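import Pool.Agent.P.MP_ab3ecb_nt.Inv.E.Lwa
import Pool.Agent.P.MP_ab3ecb_nt.Inv.E.Lwb
import Pool.Agent.P.MP_ab3ecb_nt.Inv.E.Lwc
import Pool.Agent.P.MP_ab3ecb_nt.Inv.E.Lwd
import Pool.Agent.P.MP_ab3ecb_nt.Inv.E.Lwe
import Pool.Agent.P.MP_ab3ecb_nt.Inv.E.Lw
import Pool.Agent.P.MP_ab3ecb_nt.Inv.J.Rr

/-! Point counts on plane curves over finite fields of large characteristic, with any constant
below one. -/

namespace Pool.Agent.P.MP_9344a7_nt.Lwm

open WithZero Polynomial Module NumberField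
open Pool.Agent.P.MP_6f117a_ag (Place FF Model Reg)
open Pool.Agent.P.MP_ab3ecb_nt.Inv
open scoped IntermediateField Classical Polynomial.Bivariate

lemma lwm_ar2 {d n s q Z R M : ℕ} (hs : s = (M + 1) * (1 + n * n)) (hd : d ≤ n)
    (hR : (d + 1) * R ≤ q) (h : (d + 1) * s * Z ≤ (d + 1) * (R + q * (d * s + n * d))) :
    (M + 1) * Z + M * q ≤ (M + 1) * (d + 1) * q := by
  have h1 : s * Z ≤ R + q * (d * s + n * d) := by
    rw [mul_assoc] at h
    exact Nat.le_of_mul_le_mul_left h d.succ_pos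
  have h2 : R ≤ q := le_trans (Nat.le_mul_of_pos_left R d.succ_pos) hR
  have h3 : q * (n * d) ≤ q * (n * n) := Nat.mul_le_mul_left _ (Nat.mul_le_mul_left _ hd)
  have h4 : (1 + n * n) * ((M + 1) * Z + M * q) ≤ (1 + n * n) * ((M + 1) * (d + 1) * q) := by
    have h5 : (1 + n * n) * ((M + 1) * Z + M * q) = s * Z + (1 + n * n) * (M * q) := by
      rw [hs]; ring
    have h6 : (1 + n * n) * ((M + 1) * (d + 1) * q) =
        q * (d * s) + (q + q * (n * n)) + (1 + n * n) * (M * q) := by rw [hs]; ring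
    rw [mul_add q] at h1
    omega
  exact Nat.le_of_mul_le_mul_left h4 (by omega)

theorem lwe_M (n M : ℕ) : ∃ p0 : ℕ, ∀ (k E : Type) [Field k] [IsAlgClosed k] [Field E]
    [Algebra k E] [FF k E] (p e : ℕ) [Fact p.Prime] [CharP k p] (Ψ : k[X][Y]) (x y : E),
    p0 < p → e ≠ 0 → Pc Ψ n x y → ∀ Z : Finset (k × k), (∀ z ∈ Z, z.1 ^ p ^ e = z.1 ∧
      (Ψ.map (evalRingHom z.1)).Separable ∧ Ψ.evalEval z.1 z.2 = 0 ∧
      Ψ.evalEval z.1 (z.2 ^ p ^ e) = 0 ∧ z.2 ^ p ^ e ≠ z.2) →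
    (M + 1) * Z.card + M * p ^ e ≤ (M + 1) * Ψ.natDegree * p ^ e := by
  have hRR := p_RR
  have hLWB := p_LWB
  have hLWC := p_LWC
  have hLWD := p_LWD hRR
  obtain ⟨s, hs⟩ : ∃ s, s = (M + 1) * (1 + n * n) := ⟨_, rfl⟩
  obtain ⟨K, hK⟩ : ∃ K, K = n * s * (n * s + n * s * (n * n + n) + 2 * n * n + n) := ⟨_, rfl⟩
  refine ⟨n * (n * n + K) + n * s, ?_⟩
  intro k E _ _ _ _ _ p e _ _ Ψ x y hp he hc Z hZ
  obtain ⟨d, hd⟩ : ∃ d, Ψ.natDegree = d + 1 := ⟨_, (Nat.succ_pred_eq_of_pos hc.pos).symm⟩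
  have hdn : d + 1 ≤ n := hd ▸ hc.le
  obtain ⟨⟨D, hD0, hDd, hDW, hDc⟩, hB2, hB3, hB4⟩ := hLWB k E Ψ n x y hc
  obtain ⟨δ, hδ, hW, -, hC⟩ := hLWC k E Ψ n x y hc
  obtain ⟨g, R⟩ := hRR k E ⟨x, hc.tr⟩
  obtain ⟨q, hq⟩ : ∃ q, q = p ^ e := ⟨_, rfl⟩
  have hpq : p ≤ q := hq ▸ Nat.le_self_pow he p
  rw [← hq] at hZ ⊢
  rw [hd] at hDd ⊢
  obtain ⟨r, hr, hrK⟩ : ∃ r, (d + 1) * (r + n * (d + 1)) < q ∧ K ≤ r := by
    have h1 : n * n + K ≤ (q - 1) / (d + 1) := by
      rw [Nat.le_div_iff_mul_le d.succ_pos]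
      have := Nat.mul_le_mul_left (n * n + K) hdn
      rw [mul_comm (n * n + K) n] at this
      exact this.trans (by omega)
    have h2 := Nat.mul_le_mul_left n hdn
    have h3 := Nat.mul_div_le (q - 1) (d + 1)
    refine ⟨(q - 1) / (d + 1) - n * (d + 1), ?_, by omega⟩
    rw [Nat.sub_add_cancel (by omega)]
    omega
  obtain ⟨J, hJ⟩ : ∃ J, J = d * s := ⟨_, rfl⟩
  obtain ⟨m, hm⟩ : ∃ m, m = (d + 1) * s := ⟨_, rfl⟩
  obtain ⟨κ, hκ⟩ : ∃ κ, κ = J + m * (n * n + n) + 2 * n * (d + 1) + n := ⟨_, rfl⟩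
  have hmn : m ≤ n * s := hm ▸ Nat.mul_le_mul_right s hdn
  have hJn : J ≤ n * s := hJ ▸ Nat.mul_le_mul_right s (by omega)
  have hJκ : J * κ ≤ r := by
    refine le_trans ?_ hrK
    rw [hK, hκ]
    gcongr
  -- the coefficients of the quotient of `Ψ (x, T)` by `T - y`
  let γ : Fin d → E := fun i => ∑ l ∈ Finset.Icc ((i : ℕ) + 1) (d + 1),
    y ^ (l - (i + 1)) * aeval x (Ψ.coeff l)
  have hγ : ∀ i, γ i ∈ Wt k n x y (n * (d + 1) + n) := fun i =>
    Submodule.sum_mem _ fun l hl => lwe_mul (by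
      have h1 : l - (i + 1) ≤ d + 1 := by have := (Finset.mem_Icc.1 hl).2; omega
      simpa using lwe_mon (k := k) (x := x) (y := y) (a := 0)
        (by simpa using Nat.mul_le_mul_left n h1)) (lwe_pol (hc.coef l))
  -- the unknown functions
  let α : Fin (d + 1) × Fin (J + 1) →
      (Fin (d + 1) × Fin (J + 1) → Fin (d + 1) × Fin (r + 1) → k) →ₗ[k] E := fun z =>
    Fintype.linearCombination k (fun w : Fin (d + 1) × Fin (r + 1) =>
      x ^ (w.2 : ℕ) * y ^ (w.1 : ℕ)) ∘ₗ LinearMap.proj z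
  have hα : ∀ z c, α z c ∈ Wt k n x y (r + n * (d + 1)) := fun z c => by
    simp only [α, LinearMap.comp_apply, Fintype.linearCombination_apply]
    exact Submodule.sum_mem _ fun w _ => Submodule.smul_mem _ _ (lwe_mon
      (add_le_add (Nat.lt_succ_iff.1 w.2.2) (Nat.mul_le_mul_left n w.1.2.le)))
  let U : ℕ → Fin (d + 1) →
      (Fin (d + 1) × Fin (J + 1) → Fin (d + 1) × Fin (r + 1) → k) →ₗ[k] E := fun t i =>
    ∑ j : Fin (J + 1), LinearMap.mulRight k (x ^ (j : ℕ)) ∘ₗ (δ ^ t) ∘ₗ α (i, j)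
  have hU : ∀ t i c, U t i c = ∑ j : Fin (J + 1), (δ ^ t) (α (i, j) c) * x ^ (j : ℕ) :=
    fun t i c => by simp only [U, LinearMap.sum_apply, LinearMap.comp_apply,
      LinearMap.mulRight_apply]
  have hUW : ∀ t < m, ∀ i c, U t i c ∈ Wt k n x y (r + n * (d + 1) + m * (n * n + n) + J) := by
    intro t ht i c
    rw [hU]
    refine Submodule.sum_mem _ fun j _ => lwe_mul (lwe_mono ?_ (lwe_dt hW (hα _ c) t)) ?_
    · gcongr
    · simpa using lwe_mon (k := k) (n := n) (x := x) (y := y) (l := 0) (s := J)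
        (by simpa using Nat.lt_succ_iff.1 j.2)
  have := R.fd ((r + κ) • D)
  obtain ⟨c, hc0, hcB⟩ := lwe_ker (LS ((r + κ) • D))
    (fun w : Fin m × Fin d =>
      U w.1 w.2.castSucc - LinearMap.mulLeft k (γ w.2) ∘ₗ U w.1 (Fin.last d))
    (fun w c => hDW _ (sub_mem (lwe_mono (by rw [hκ, mul_assoc 2]; omega) (hUW _ w.1.2 _ c))
      (lwe_mono (le_of_eq (by rw [hκ]; ring)) (lwe_mul (hγ _) (hUW _ w.1.2 _ c))))) (by
      have h1 := R.le ((r + κ) • D) (by rw [map_nsmul, hDd]; positivity)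
      rw [map_nsmul, hDd, nsmul_eq_mul, mul_comm] at h1
      have h2 := lwe_ar1 hJ hJκ (F := finrank k (LS ((r + κ) • D))) (by exact_mod_cast h1)
      simpa [Module.finrank_pi_fintype, hm] using h2)
  -- the auxiliary function
  obtain ⟨A, hA⟩ : ∃ A, A = ∑ z : Fin (d + 1) × Fin (J + 1),
    α z c * (x ^ (z.2 : ℕ) * y ^ (z.1 : ℕ)) ^ q := ⟨_, rfl⟩
  have hA0 : A ≠ 0 := fun h => hc0 (funext fun z => by
    have h1 := hLWD k E p e ((r + n * (d + 1)) • D) ⟨x, hc.tr⟩ (by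
      rw [map_nsmul, hDd, nsmul_eq_mul, mul_comm, ← hq]
      exact_mod_cast hr) _ (fun z => α z c) _ (fun z => hDW _ (hα z c)) (lwe_li hc hd (J + 1))
      (by rw [← hq, ← hA, h]) z
    exact funext (Fintype.linearIndependent_iff.1 (lwe_li hc hd (r + 1)) (c z) (by
      simpa only [α, LinearMap.comp_apply, Fintype.linearCombination_apply,
        LinearMap.proj_apply] using h1)))
  have hmq : ∀ z : Fin (d + 1) × Fin (J + 1),
      (x ^ (z.2 : ℕ) * y ^ (z.1 : ℕ)) ^ q ∈ Wt k n x y (q * (J + n * d)) := fun z => by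
    rw [mul_pow, ← pow_mul, ← pow_mul]
    refine lwe_mon ?_
    have h1 := Nat.lt_succ_iff.1 z.1.2
    have h2 := Nat.lt_succ_iff.1 z.2.2
    calc (z.2 : ℕ) * q + n * (z.1 * q) ≤ J * q + n * (d * q) := by gcongr
      _ = _ := by ring
  have hAW : A ∈ Wt k n x y (r + n * (d + 1) + q * (J + n * d)) :=
    hA ▸ Submodule.sum_mem _ fun z _ => lwe_mul (hα z c) (hmq z)
  have hδA : ∀ t, (δ ^ t) A = ∑ z : Fin (d + 1) × Fin (J + 1),
      (δ ^ t) (α z c) * (x ^ (z.2 : ℕ) * y ^ (z.1 : ℕ)) ^ q := fun t => by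
    rw [hA, map_sum]
    refine Finset.sum_congr rfl fun z _ => lwe_dm hδ hW (hα z c) (lwe_adj (hmq z)) ?_ t
    obtain ⟨q', hq'⟩ : ∃ q', q = q' + 1 := ⟨q - 1, by omega⟩
    have h1 : ((q' + 1 : ℕ) : E) = 0 := by
      rw [← map_natCast (algebraMap k E), ← hq', hq, Nat.cast_pow, CharP.cast_eq_zero k p,
        zero_pow he, map_zero]
    rw [hq', lwe_dq hδ (lwe_adj (lwe_mon (n := n) le_rfl)), h1, zero_mul, zero_mul]
  have hord : ∀ z ∈ Z, ∀ P : Place k E, Ctr x y P z.1 z.2 → (m : ℤ) ≤ ord P A := by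
    intro z hz P hP
    obtain ⟨h1, h2, h3, h4, h5⟩ := hZ z hz
    have h6 := hC P z.1 z.2 hP (by
      have := h2.aeval_derivative_ne_zero (x := z.2) (by
        rw [coe_aeval_eq_eval, map_evalRingHom_eval, h3])
      rwa [coe_aeval_eq_eval, derivative_map, map_evalRingHom_eval] at this)
      (hB4 z.1 h2 _ _ hP) m (fun t h0 ht h => by
        have := Nat.le_of_dvd h0 ((CharP.cast_eq_zero_iff k p t).1 h)
        omega) A (lwe_adj hAW) fun t ht => by
      rw [hδA]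
      refine lwe_van hP h1 γ _ (fun i => ?_) (lwe_root (hc.monic.map (evalRingHom z.1))
        ((hc.monic.natDegree_map _).trans hd) ((map_evalRingHom_eval _ _ _).trans h3)
        ((map_evalRingHom_eval _ _ _).trans h4) h5) (fun w => (δ ^ t) (α w c)) (fun w => ?_)
        fun i => ?_
      · refine lwe_sum _ fun l _ => lwe_vmul (lwe_pow ⟨le_one_of_sub hP.2, ev_eq hP.2⟩ _) ?_
        have := hB3 z.1 (C (Ψ.coeff l)) _ _ hP
        rw [aevalAeval_C, evalEval_C] at this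
        rw [coeff_map]
        exact this
      · have := mem_LS.1 (hDW _ (lwe_dt hW (hα w c) t)) P
        rwa [Finsupp.smul_apply, hDc _ _ _ hP, smul_zero, exp_zero] at this
      · have := hcB (⟨t, ht⟩, i)
        rwa [LinearMap.sub_apply, LinearMap.comp_apply, LinearMap.mulLeft_apply, hU, hU] at this
    simpa using (le_exp_iff hA0).1 h6
  choose Pl hPl using fun z : Z => hB2 z.1.1 z.1.2 (hZ z z.2).2.2.1
  have hinj : Function.Injective Pl := fun z z' h => by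
    have h1 := hPl z
    have h2 := hPl z'
    rw [← h] at h2
    exact Subtype.ext (Prod.ext ((ev_eq h1.1).symm.trans (ev_eq h2.1))
      ((ev_eq h1.2).symm.trans (ev_eq h2.2)))
  have h1 := lwe_deg ((mem_LS' hA0).1 (hDW _ hAW)) (Finset.univ.image Pl)
  rw [Finset.sum_image hinj.injOn, map_add, deg_dv, zero_add, map_nsmul, hDd, nsmul_eq_mul] at h1
  have h2 : (Z.card : ℤ) * m ≤ _ := le_trans (by
    rw [← nsmul_eq_mul, ← Fintype.card_coe, ← Finset.card_univ]
    refine Finset.card_nsmul_le_sum _ _ _ fun z _ => ?_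
    rw [Finsupp.add_apply, dv_apply, Finsupp.smul_apply, hDc _ _ _ (hPl z), smul_zero, add_zero]
    exact hord z z.2 _ (hPl z)) h1
  refine lwm_ar2 hs (by omega) hr.le ?_
  rw [← hm, ← hJ, mul_comm m, mul_comm (d + 1)]
  exact_mod_cast h2


/-- At least `M q / (M + 1)` smooth rational points. -/
theorem lw_M (n M : ℕ) : ∃ p0 : ℕ, ∀ (κ : Type) [Field κ] [Finite κ] (Ψ : κ[X][Y]),
    p0 < ringChar κ → Ψ.Monic → Ψ.natDegree ≤ n → (∀ i, (Ψ.coeff i).natDegree ≤ n) →
    Irreducible (Ψ.map (mapRingHom (algebraMap κ (AlgebraicClosure κ)))) →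
    M * Nat.card κ ≤ (M + 1) *
      {z : κ × κ | Ψ.evalEval z.1 z.2 = 0 ∧ (derivative Ψ).evalEval z.1 z.2 ≠ 0}.ncard := by
  obtain ⟨p0, hp0⟩ := lwe_M n (M + 1)
  refine ⟨p0 + n + (M + 1) * ((M + 2) * (n * ((n * n + n) * n))),
    fun κ _ _ Ψ hp hm hn hc hi => ?_⟩
  let _ := Fintype.ofFinite κ
  obtain ⟨e, hpp, hq⟩ := FiniteField.card κ (ringChar κ)
  set p := ringChar κ
  have := Fact.mk hpp
  set k := AlgebraicClosure κ
  set ι := algebraMap κ k
  set Φ := Ψ.map (mapRingHom ι) with hΦ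
  have hdeg : Φ.natDegree = Ψ.natDegree := hm.natDegree_map _
  obtain ⟨E, _, _, _, x, y, h⟩ := p_LWA k Φ n (hm.map _) hi (hdeg ▸ hn) fun i => by
    rw [hΦ, coeff_map]
    exact natDegree_map_le.trans (hc i)
  have hd : (Φ.natDegree : k) ≠ 0 := fun e => by
    have := Nat.le_of_dvd h.pos ((CharP.cast_eq_zero_iff k p _).1 e)
    have := h.le
    omega
  have hfix : ∀ a : κ, ι a ^ p ^ (e : ℕ) = ι a := fun a => by
    rw [← map_pow, ← hq, FiniteField.pow_card]
  let A : Finset k := Finset.univ.map ⟨ι, ι.injective⟩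
  let G : Finset k := A.filter fun a => (Φ.map (evalRingHom a)).Separable
  have hA : A.card = p ^ (e : ℕ) := by rw [Finset.card_map, Finset.card_univ, hq]
  have hG := Finset.card_filter_add_card_filter_not (s := A)
    fun a => (Φ.map (evalRingHom a)).Separable
  have hB := lw_bad p_LWB h hd (A.filter fun a => ¬ (Φ.map (evalRingHom a)).Separable)
    fun a ha => (Finset.mem_filter.1 ha).2
  let T : Finset (k × k) := (G.sigma fun a => (Φ.map (evalRingHom a)).roots.toFinset).map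
    (Equiv.sigmaEquivProd k k).toEmbedding
  have hT : ∀ z ∈ T, (∃ a, ι a = z.1) ∧ (Φ.map (evalRingHom z.1)).Separable ∧
      Φ.evalEval z.1 z.2 = 0 := fun z hz => by
    obtain ⟨⟨a, b⟩, h1, rfl⟩ := Finset.mem_map.1 hz
    obtain ⟨h2, h3⟩ := Finset.mem_sigma.1 h1
    obtain ⟨h4, h5⟩ := Finset.mem_filter.1 h2
    obtain ⟨a, -, rfl⟩ := Finset.mem_map.1 h4
    refine ⟨⟨a, rfl⟩, h5, ?_⟩
    rw [← map_evalRingHom_eval]
    exact isRoot_of_mem_roots (Multiset.mem_toFinset.1 h3)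
  have hTc : T.card = G.card * Φ.natDegree := by
    rw [Finset.card_map, Finset.card_sigma, Finset.sum_congr rfl (g := fun _ => Φ.natDegree)
      fun a ha => by
        rw [Multiset.toFinset_card_of_nodup (nodup_roots (Finset.mem_filter.1 ha).2),
          IsAlgClosed.card_roots_eq_natDegree, h.monic.natDegree_map],
      Finset.sum_const, smul_eq_mul]
  have hS := Finset.card_filter_add_card_filter_not (s := T) fun z => z.2 ^ p ^ (e : ℕ) = z.2
  have hZ := hp0 k E p e Φ x y (by omega) e.ne_zero h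
    (T.filter fun z => ¬ z.2 ^ p ^ (e : ℕ) = z.2) fun z hz => by
    obtain ⟨h1, h2⟩ := Finset.mem_filter.1 hz
    obtain ⟨⟨a, ha⟩, h5, h8⟩ := hT z h1
    refine ⟨ha ▸ hfix a, h5, h8, ?_, h2⟩
    rw [← ha] at h8 ⊢
    have h9 := map_mapRingHom_evalEval (iterateFrobenius k p e) Φ (ι a) z.2
    rw [h8, map_zero, hΦ, Polynomial.map_map, mapRingHom_comp,
      show (iterateFrobenius k p e).comp ι = ι from RingHom.ext hfix] at h9
    rw [← h9]
    exact congrArg (fun t => Φ.evalEval t _) (hfix a).symm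
  set R := {z : κ × κ | Ψ.evalEval z.1 z.2 = 0 ∧ (derivative Ψ).evalEval z.1 z.2 ≠ 0} with hR
  have hRc : (T.filter fun z => z.2 ^ p ^ (e : ℕ) = z.2).card ≤ R.ncard := by
    rw [← Set.ncard_coe_finset, ← Set.ncard_image_of_injective R
      (f := Prod.map ι ι) (ι.injective.prodMap ι.injective)]
    refine Set.ncard_le_ncard (fun z hz => ?_) (Set.toFinite R |>.image _)
    obtain ⟨h1, h9⟩ := Finset.mem_filter.1 hz
    obtain ⟨⟨a, ha⟩, h5, h8⟩ := hT z h1
    obtain ⟨b, hb⟩ := Splits.mem_range_of_isRoot (f := (X ^ Fintype.card κ - X : κ[X]))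
      (by simpa using (FiniteField.isSplittingField_sub κ κ).splits')
      (FiniteField.X_pow_card_sub_X_ne_zero κ Fintype.one_lt_card) (i := ι) (x := z.2)
      (by simpa [hq, sub_eq_zero] using h9)
    have h10 := (lw_sep Φ z.1).1 h5 _ h8
    rw [← ha, ← hb, hΦ, derivative_map, map_mapRingHom_evalEval] at h10
    rw [← ha, ← hb, hΦ, map_mapRingHom_evalEval] at h8
    exact ⟨(a, b), ⟨(map_eq_zero ι).1 h8, (map_ne_zero ι).1 h10⟩, Prod.ext ha hb⟩
  rw [Nat.card_eq_fintype_card, hq]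
  have h1 : p ≤ p ^ (e : ℕ) := Nat.le_self_pow e.ne_zero p
  generalize p ^ (e : ℕ) = q at *
  generalize (n * n + n) * n = β at *
  have h2 : Φ.natDegree * β ≤ n * β := Nat.mul_le_mul_right _ h.le
  have h3 : Φ.natDegree * q ≤ Φ.natDegree * (G.card + β) :=
    Nat.mul_le_mul_left _ (by simp only [G]; omega)
  generalize (T.filter fun z => ¬ z.2 ^ q = z.2).card = Zc at *
  have h4 : Φ.natDegree * q ≤ R.ncard + Zc + n * β := by
    rw [mul_add, mul_comm _ G.card] at h3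
    omega
  have h5 : (M + 2) * (Φ.natDegree * q) ≤ (M + 2) * (R.ncard + Zc + n * β) :=
    Nat.mul_le_mul_left _ h4
  have h6 : (M + 1) * q ≤ (M + 2) * R.ncard + (M + 2) * (n * β) := by nlinarith
  have h7 : (M + 1) * ((M + 2) * (n * β)) ≤ q := by omega
  refine Nat.le_of_mul_le_mul_left (c := M + 2) ?_ (by omega)
  nlinarith [Nat.mul_le_mul_left (M + 1) h6]

/-- The same bound for the first coordinates. -/
theorem lw_Q (n : ℕ) : ∃ C p0 : ℕ, ∀ (κ : Type) [Field κ] [Finite κ] (Ψ : κ[X][Y]),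
    p0 < ringChar κ → Ψ.Monic → Ψ.natDegree ≤ n → (∀ i, (Ψ.coeff i).natDegree ≤ n) →
    Irreducible (Ψ.map (mapRingHom (algebraMap κ (AlgebraicClosure κ)))) →
    Nat.card κ ≤ C *
      {a : κ | ∃ b, Ψ.evalEval a b = 0 ∧ (derivative Ψ).evalEval a b ≠ 0}.ncard := by
  obtain ⟨p0, hp0⟩ := lw_M n 1
  refine ⟨2 * n, p0, fun κ _ _ Ψ hp hm hn hc hi => ?_⟩
  have h1 := hp0 κ Ψ hp hm hn hc hi
  let _ := Fintype.ofFinite κ
  rw [one_mul] at h1
  refine h1.trans ?_
  rw [mul_assoc]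
  refine Nat.mul_le_mul_left _ ?_
  rw [Set.ncard_eq_toFinset_card', Set.ncard_eq_toFinset_card']
  refine (Finset.card_le_mul_card_image_of_maps_to (f := Prod.fst) (fun z hz => ?_) n
    fun a _ => ?_)
  · simp only [Set.mem_toFinset, Set.mem_ofPred_eq] at hz ⊢
    exact ⟨z.2, hz⟩
  · refine le_trans (Finset.card_le_card_of_injOn Prod.snd
      (t := (Ψ.map (evalRingHom a)).roots.toFinset) (fun z hz => ?_) fun z hz w hw e => ?_) ?_
    · simp only [Finset.coe_filter, Set.mem_toFinset, Set.mem_ofPred_eq] at hz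
      rw [Finset.mem_coe, Multiset.mem_toFinset, mem_roots (hm.map _).ne_zero, IsRoot,
        map_evalRingHom_eval, ← hz.2]
      exact hz.1.1
    · simp only [Finset.coe_filter, Set.mem_toFinset, Set.mem_ofPred_eq] at hz hw
      exact Prod.ext (hz.2.trans hw.2.symm) e
    · exact (Multiset.toFinset_card_le _).trans ((card_roots' _).trans
        ((hm.natDegree_map _).le.trans hn))

/-- Values of `ε f` that are nonzero squares. -/
theorem lw_sq (n M : ℕ) : ∃ p0 : ℕ, ∀ (F : Type) [Field F] [Finite F] (f : F[X]) (ε : F),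
    p0 < ringChar F → Squarefree f → f.natDegree ≠ 0 → f.natDegree ≤ n → ε ≠ 0 →
    M * Nat.card F ≤ 2 * (M + 1) * {a : F | ∃ b, b ≠ 0 ∧ b ^ 2 = ε * f.eval a}.ncard := by
  obtain ⟨p0, hp0⟩ := lw_M (n + 2) M
  refine ⟨p0, fun F _ _ f ε hp hf h0 hn hε => ?_⟩
  let _ := Fintype.ofFinite F
  have hm : (Y ^ 2 - C (C ε * f) : F[X][Y]).Monic := monic_X_pow_sub_C _ two_ne_zero
  have h1 := hp0 F (Y ^ 2 - C (C ε * f)) hp hm (by rw [natDegree_X_pow_sub_C]; omega)
    (fun i => by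
      rw [coeff_sub, coeff_X_pow, coeff_C]
      refine (natDegree_sub_le _ _).trans (max_le ?_ ?_)
      · split_ifs <;> simp
      · split_ifs
        · exact (natDegree_C_mul_le _ _).trans (by omega)
        · simp) (by
      set ι := algebraMap F (AlgebraicClosure F)
      have e : (Y ^ 2 - C (C ε * f) : F[X][Y]).map (mapRingHom ι) =
          Y ^ 2 - C (C (ι ε) * f.map ι) := by simp
      rw [e, (monic_X_pow_sub_C _ two_ne_zero).irreducible_iff_roots_eq_zero_of_degree_le_three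
        (by rw [natDegree_X_pow_sub_C]) (by rw [natDegree_X_pow_sub_C]; omega)]
      refine Multiset.eq_zero_of_forall_notMem fun g hg => ?_
      have h2 := isRoot_of_mem_roots hg
      rw [IsRoot, eval_sub, eval_pow, eval_X, eval_C, sub_eq_zero] at h2
      have h3 : Squarefree (f.map ι) :=
        ((PerfectField.separable_iff_squarefree.2 hf).map (f := ι)).squarefree
      have h4 : IsUnit (C (ι ε)) := isUnit_C.2 ((map_ne_zero ι).2 hε).isUnit
      have h5 := natDegree_eq_zero_of_isUnit (h3 g (h4.dvd_mul_left.1 (by rw [← h2, sq])))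
      have h6 := congrArg natDegree h2
      rw [natDegree_pow, h5, natDegree_C_mul ((map_ne_zero ι).2 hε), natDegree_map] at h6
      omega)
  refine h1.trans ?_
  rw [mul_comm 2, mul_assoc]
  refine Nat.mul_le_mul_left _ ?_
  rw [Set.ncard_eq_toFinset_card', Set.ncard_eq_toFinset_card']
  refine (Finset.card_le_mul_card_image_of_maps_to (f := Prod.fst) (fun z hz => ?_) 2
    fun a _ => ?_)
  · simp only [Set.mem_toFinset, Set.mem_ofPred_eq] at hz ⊢
    refine ⟨z.2, fun e => hz.2 (by simp [e]), ?_⟩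
    simpa [sub_eq_zero, evalEval_C] using hz.1
  · refine le_trans (Finset.card_le_card_of_injOn Prod.snd
      (t := (X ^ 2 - C (ε * f.eval a)).roots.toFinset) (fun z hz => ?_) fun z hz w hw e => ?_) ?_
    · simp only [Finset.coe_filter, Set.mem_toFinset, Set.mem_ofPred_eq] at hz
      rw [Finset.mem_coe, Multiset.mem_toFinset,
        mem_roots (monic_X_pow_sub_C _ two_ne_zero).ne_zero, ← hz.2]
      simpa [evalEval_C] using hz.1.1
    · simp only [Finset.coe_filter, Set.mem_toFinset, Set.mem_ofPred_eq] at hz hw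
      exact Prod.ext (hz.2.trans hw.2.symm) e
    · exact (Multiset.toFinset_card_le _).trans ((card_roots' _).trans natDegree_X_pow_sub_C.le)

end Pool.Agent.P.MP_9344a7_nt.Lwm
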