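import Pool.Agent.P.MP_9344a7_nt.Hc

/-! Matching of the roots of the L-series of two curves, and the passage to `Curve`. -/

namespace Pool.Agent.P.MP_9344a7_nt.R

open Finset
open Pool.Agent.P.MP_6f117a_ag (Place FF)
open Pool.Agent.P.MP_ab3ecb_nt.Inv
open scoped Classical

set_option linter.unusedSectionVars false

section

variable {k E : Type} [Field k] [Field E] [Algebra k E] [IsAlgClosed k] [FF k E]
  {σ : SA k E} {Q m n : ℕ} {x y e K : Pic k E}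

/-- The number of points of level `m` of the Hilbert class field curve. -/
noncomputable def nH (σ : SA k E) (e : Pic k E) (m : ℕ) : ℕ :=
  Nat.card {x : Pic k E // dg x = 0 ∧ (ph σ)^[m] x = x ∧ ∃ P, x - ph σ x = cls P - e}

lemma G2.kap (g : G2 K) (e1 : ph σ e = e) (e2 : dg e = 1) : ∃ κ : J σ, κ.1 = K - 2 • e :=
  ⟨⟨_, mem_J.2 ⟨by rw [map_sub, map_nsmul, e1, g.ph_K], by simp [g.dg_K, e2]⟩⟩, rfl⟩

lemma Fr.roots (h : Fr σ Q) (g : G2 K) (e1 : ph σ e = e) (e2 : dg e = 1) {κ : J σ}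
    (hκ : κ.1 = K - 2 • e) : ∃ (s : Finset (AddChar (J σ) ℂ × Bool)) (x : _ → ℂ),
      (∀ i, i ∈ s ↔ i.1 ≠ 0) ∧ (∀ χ α, Rt Q χ (SS σ e) κ α ↔ ∃ b, x (χ, b) = α) ∧ (∀ i, x i ≠ 0) ∧
      ∀ m, m ≠ 0 → ∑ i ∈ s, x i ^ m = #(fx σ m) - nH σ e m := by
  have := (h.card_J g).1
  have := Fintype.ofFinite (J σ)
  choose α β h1 h2 using fun χ : AddChar (J σ) ℂ => Fr.exists_roots (-∑ s ∈ SS σ e, χ s) (Q * χ κ)
  have h3 : ∀ χ, α χ * β χ ≠ 0 := fun χ => (h2 χ).trans_ne (mul_ne_zero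
    (Nat.cast_ne_zero.2 (by have := h.1; omega)) (χ.val_isUnit κ).ne_zero)
  refine ⟨univ.erase 0 ×ˢ univ, fun i => bif i.2 then α i.1 else β i.1, by simp, fun χ a => ?_,
    fun i => ?_, fun m hm => ?_⟩
  · rw [Rt, ← h2, ← neg_neg (∑ s ∈ _, _), ← h1, show a ^ 2 + -(α χ + β χ) * a + α χ * β χ =
      (β χ - a) * (α χ - a) by ring]
    simp [sub_eq_zero]
  · obtain ⟨χ, _ | _⟩ := i
    exacts [right_ne_zero_of_mul (h3 χ), left_ne_zero_of_mul (h3 χ)]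
  · have : sm e (0 : AddChar (J σ) ℂ) m = #(fx σ m) := by
      rw [sm, card_eq_sum_ones, Nat.cast_sum]
      exact sum_congr rfl fun P hP => (dif_pos (sub_mem_J e1 e2 (nm_fix
        (g.iter_iff.2 ((h.mem_fx g hm).1 hP))))).trans Nat.cast_one.symm
    rw [nH, h.ptsH_eq g e1 e2 hm, ← add_sum_erase _ _ (mem_univ (0 : AddChar (J σ) ℂ)), this,
      sub_add_cancel_left, ← sum_neg_distrib, sum_product]
    exact sum_congr rfl fun χ hχ => by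
      simp [h.sm_eq g e1 e2 hκ (ne_of_mem_erase hχ) (h1 χ) (h2 χ) hm]

lemma Fr.class_J (h : Fr σ Q) (g : G2 K) :
    2 * (Nat.card (J σ) + Q) = #(fx σ 2) + #(fx σ 1) ^ 2 := by
  rw [(h.card_J g).2, h.class_no g]

/-- The splitting of the invariant classes. -/
noncomputable def spl {H : AddSubgroup (Pic k E)} (hH : ∀ x, x ∈ H ↔ ph σ x = x) (e1 : ph σ e = e)
    (e2 : dg e = 1) : J σ × ℤ ≃+ H where
  toFun p := ⟨p.1.1 + p.2 • e, (hH _).2 (by rw [map_add, map_zsmul, e1, (mem_J.1 p.1.2).1])⟩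
  invFun x := (⟨x.1 - dg x.1 • e, sub_mem_J e1 e2 ((hH _).1 x.2)⟩, dg x.1)
  left_inv p := by
    have : dg (p.1.1 + p.2 • e) = p.2 := by simp [e2, (mem_J.1 p.1.2).2]
    exact Prod.ext (Subtype.ext (by simp only [this, add_sub_cancel_right])) this
  right_inv x := Subtype.ext (sub_add_cancel _ _)
  map_add' a b := Subtype.ext (by
    simp only [Prod.fst_add, Prod.snd_add, AddSubgroup.coe_add, add_zsmul]; abel)

variable {E' : Type} [Field E'] [Algebra k E'] [FF k E'] {σ' : SA k E'} {e' K' : Pic k E'}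

lemma exists_psi {H : AddSubgroup (Pic k E)} (hH : ∀ x, x ∈ H ↔ ph σ x = x) (e1 : ph σ e = e)
    (e2 : dg e = 1) {H' : AddSubgroup (Pic k E')} (hH' : ∀ x, x ∈ H' ↔ ph σ' x = x)
    (e1' : ph σ' e' = e') (e2' : dg e' = 1) (θ : J σ ≃+ J σ') : ∃ ψ : H ≃+ H',
      ∀ (x : H) (a : J σ) (n : ℤ), x.1 = a.1 + n • e → (ψ x).1 = (θ a).1 + n • e' :=
  ⟨(spl hH e1 e2).symm.trans ((θ.prodCongr (.refl ℤ)).trans (spl hH' e1' e2')), fun x a n h => by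
    rw [show x = spl hH e1 e2 (a, n) from Subtype.ext h, AddEquiv.trans_apply,
      AddEquiv.symm_apply_apply]
    rfl⟩

theorem match_roots (h : Fr σ Q) (g : G2 K) (e1 : ph σ e = e) (e2 : dg e = 1) {κ : J σ}
    (hκ : κ.1 = K - 2 • e) (h' : Fr σ' Q) (g' : G2 K') (e1' : ph σ' e' = e') (e2' : dg e' = 1)
    {κ' : J σ'} (hκ' : κ'.1 = K' - 2 • e') (h1 : ∀ m, m ≠ 0 → #(fx σ m) = #(fx σ' m))
    (h2 : ∀ m, m ≠ 0 → nH σ e m = nH σ' e' m) (χ : AddChar (J σ) ℂ) (α : ℂ) (h0 : χ ≠ 0)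
    (hα : Rt Q χ (SS σ e) κ α) : ∃ χ' : AddChar (J σ') ℂ, χ' ≠ 0 ∧ Rt Q χ' (SS σ' e') κ' α := by
  obtain ⟨s, x, a1, a2, a3, a4⟩ := h.roots g e1 e2 hκ
  obtain ⟨t, y, b1, b2, -, b4⟩ := h'.roots g' e1' e2' hκ'
  obtain ⟨b, rfl⟩ := (a2 χ α).1 hα
  obtain ⟨j, j1, j2⟩ := common_root s t x y (fun m hm => by rw [a4 m hm, b4 m hm, h1 m hm, h2 m hm])
    ((a1 (χ, b)).2 h0) (a3 _)
  exact ⟨j.1, (b1 j).1 j1, (b2 _ _).2 ⟨j.2, j2⟩⟩

end

variable {F E : Type} [Field F] [Fintype F] [Field E] [Algebra (AlgebraicClosure F) E]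

theorem pack (C : Curve F E) (hg : Genus (AlgebraicClosure F) E 2) :
    ∃ (_ : FF (AlgebraicClosure F) E) (σ : SA (AlgebraicClosure F) E)
      (K : Pic (AlgebraicClosure F) E), Fr σ (Fintype.card F) ∧ G2 K ∧ C.fr = σ.pl ∧ C.φ = ph σ ∧
      (∀ x, x ∈ C.PicF ↔ ph σ x = x) ∧ (∀ m, C.pts m = #(fx σ m)) ∧
      (∀ e m, C.ptsH e m = nH σ e m) ∧ Nonempty ({x : C.PicF // HasDeg x.1 0} ≃ J σ) := by
  have : FF (AlgebraicClosure F) E := .of_fg C.fg C.tr.le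
  obtain ⟨t, ht⟩ := (trdeg_ne_zero_iff.1 (C.tr.trans_ne one_ne_zero)).transcendental
  obtain ⟨K, g⟩ := exists_G2 ht hg
  let σ : SA (AlgebraicClosure F) E :=
    ⟨C.Φ, (FiniteField.frobeniusAlgEquivOfAlgebraic F _).toRingEquiv, C.frob⟩
  have e1 : C.fr = σ.pl := rfl
  have e2 : C.φ = ph σ := rfl
  refine ⟨‹_›, σ, K, ⟨Fintype.one_lt_card, ?_, fun _ => rfl⟩, g, e1, e2, fun x => Iff.rfl,
    fun m => (card_fs _).symm, fun e m => ?_, ⟨(Equiv.subtypeSubtypeEquivSubtypeInter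
      (· ∈ C.PicF) (HasDeg · 0)).trans (Equiv.subtypeEquivRight fun x =>
        and_congr_right' hasDeg)⟩⟩
  · rw [← map_natCast (algebraMap F _), FiniteField.cast_card_eq_zero, map_zero]
  · simp only [Curve.ptsH, nH, hasDeg, e2]

end Pool.Agent.P.MP_9344a7_nt.R
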