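import Pool.Agent.P.MP_9344a7_nt.Pc

/-! The count of invariant effective divisors in a class. -/

namespace Pool.Agent.P.MP_9344a7_nt.R

open WithZero Module Finset
open Pool.Agent.P.MP_6f117a_ag (Place FF)
open Pool.Agent.P.MP_ab3ecb_nt.Inv
open scoped Classical

set_option linter.unusedSectionVars false

variable {k E : Type} [Field k] [Field E] [Algebra k E] [IsAlgClosed k] [FF k E]

/-- The action on classes. -/
noncomputable def ph (σ : SA k E) : Pic k E →+ Pic k E :=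
  QuotientAddGroup.map _ _ σ.dm.toAddMonoidHom fun _ h => mem_Prin.2 ((mem_Prin.1 h).dm σ)

lemma ph_mk (σ : SA k E) (D : Dv k E) : ph σ (D : Pic k E) = (σ.dm D : Dv k E) := rfl

@[simp] lemma dg_ph (σ : SA k E) (x : Pic k E) : dg (ph σ x) = dg x := by
  obtain ⟨D, rfl⟩ := QuotientAddGroup.mk_surjective x
  rw [ph_mk, dg_mk, dg_mk, σ.deg_dm]

lemma ll_ph (σ : SA k E) (x : Pic k E) : ll (ph σ x) = ll x := by
  obtain ⟨D, rfl⟩ := QuotientAddGroup.mk_surjective x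
  rw [ph_mk, ll_mk, ll_mk, σ.finrank_LS_dm]

lemma ph_cls (σ : SA k E) (P : Place k E) : ph σ (cls P) = cls (σ.pl P) := by
  rw [cls, ph_mk, σ.dm_single, cls]

lemma dm_eq {σ : SA k E} {A : Dv k E} : σ.dm A = A ↔ ∀ P, A (σ.pl P) = A P :=
  ⟨fun h P => by rw [← σ.dm_apply A P, h], fun h => Finsupp.ext (σ.pl.surjective.forall.2
    fun P => by rw [σ.dm_apply, h])⟩

lemma ph_inv {σ : SA k E} {A : Dv k E} (h : ∀ P, A (σ.pl P) = A P) : ph σ (A : Pic k E) = A := by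
  rw [ph_mk, dm_eq.2 h]

/-- `σ` acts on the constants as the power `Q` of the characteristic. -/
def Fr (σ : SA k E) (Q : ℕ) : Prop := 2 ≤ Q ∧ (Q : k) = 0 ∧ ∀ c, σ.s0 c = c ^ Q

variable {σ : SA k E} {Q n : ℕ} {x K : Pic k E}

theorem Fr.count (h : Fr σ Q) (hx : ph σ x = x) (hn : dg x = n) : ∃ X : Finset (Dv k E),
    (∀ A, A ∈ X ↔ A ∈ Eff σ.pl n ∧ (A : Pic k E) = x) ∧ X.card * (Q - 1) + 1 = Q ^ ll x := by
  obtain ⟨D, rfl⟩ := QuotientAddGroup.mk_surjective x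
  obtain ⟨f, f0, hf⟩ := mk_eq.1 ((ph_mk σ D).symm.trans hx)
  have s0 : ∀ {z : E}, z ≠ 0 → f * σ.s z ≠ 0 := fun hz => mul_ne_zero f0 ((map_ne_zero σ.s).2 hz)
  have e0 : ∀ {z : E}, z ≠ 0 → dv k (f * σ.s z) + D = σ.dm (dv k z + D) := fun hz => by
    rw [dv_mul f0 ((map_ne_zero σ.s).2 hz), hf, σ.dv_s, map_add]
    abel
  let θ : LS D →ₛₗ[(σ.s0 : k →+* k)] LS D :=
    { toFun z := ⟨f * σ.s z, by
        rcases eq_or_ne z.1 0 with e | e
        · simp [e]
        · rw [mem_LS' (s0 e), e0 e]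
          exact fun P => (mem_LS' e).1 z.2 _⟩
      map_add' a b := Subtype.ext (by simp [mul_add])
      map_smul' c a := Subtype.ext (by simp [Algebra.smul_def, σ.h, mul_left_comm]) }
  have t1 : ∀ z, (θ z).1 = f * σ.s z := fun _ => rfl
  have hθ : Function.Injective θ := fun a b e =>
    Subtype.ext (σ.s.injective (mul_left_cancel₀ f0 (congrArg Subtype.val e)))
  have := rr_fd D
  have hc := card_fixed h.1 h.2.1 h.2.2 θ hθ
  have hQ : Q ≠ 0 := by have := h.1; omega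
  have f1 : {w | θ w = w}.Finite :=
    Nat.finite_of_card_ne_zero (hc.trans_ne (pow_ne_zero _ hQ))
  have hr := card_roots h.1 h.2.1
  have f2 : {c : k | c ^ Q = c}.Finite := Nat.finite_of_card_ne_zero (hr.trans_ne hQ)
  have c1 : #f1.toFinset = Q ^ finrank k (LS D) := by
    rw [← hc, ← Set.ncard_eq_toFinset_card _ f1]; rfl
  have c2 : #f2.toFinset = Q := by rw [← Set.ncard_eq_toFinset_card _ f2]; exact hr
  have m1 : ∀ w, w ∈ f1.toFinset.erase 0 ↔ w.1 ≠ 0 ∧ f * σ.s w = w := fun w => by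
    rw [mem_erase, Set.Finite.mem_toFinset, Set.mem_ofPred_eq, Subtype.ext_iff (a1 := θ w), t1,
      Ne, Subtype.ext_iff]
    rfl
  have ex : ∀ {z z' : E}, z ≠ 0 → z' ≠ 0 → dv k z' + D = dv k z + D →
      ∃ c : k, c ≠ 0 ∧ z' = algebraMap k E c * z := fun {z z'} hz hz' e => by
    obtain ⟨c, hc⟩ := const_of_dv (k := k) (z := z' / z) (by
      rw [dv_div hz' hz, add_right_cancel e, sub_self])
    exact ⟨c, fun e => div_ne_zero hz' hz (by rw [← hc, e, map_zero]),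
      by rw [hc, div_mul_cancel₀ _ hz]⟩
  have cs : ∀ (c : k) {z : E}, c ≠ 0 → z ≠ 0 → dv k (algebraMap k E c * z) = dv k z :=
    fun c z hc hz => by rw [dv_mul ((map_ne_zero _).2 hc) hz, dv_const, zero_add]
  refine ⟨(f1.toFinset.erase 0).image fun w => dv k w.1 + D, fun A => ?_, ?_⟩
  · rw [mem_image]
    constructor
    · rintro ⟨w, hw, rfl⟩
      obtain ⟨w0, w1⟩ := (m1 w).1 hw
      exact ⟨⟨(mem_LS' w0).1 w.2, dm_eq.1 (by rw [← e0 w0, w1]), by
        rw [map_add, deg_dv, zero_add]; exact hn⟩, mk_eq.2 ⟨w, w0, (add_sub_cancel_right _ _).symm⟩⟩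
    · rintro ⟨⟨a1, a2, -⟩, a3⟩
      obtain ⟨z, z0, hz⟩ := mk_eq.1 a3
      have z1 : dv k z + D = A := by rw [hz, sub_add_cancel]
      obtain ⟨c, c0, hc⟩ := ex z0 (s0 z0) (by rw [e0 z0, z1, dm_eq.2 a2])
      obtain ⟨d, hd⟩ := IsAlgClosed.exists_pow_nat_eq c⁻¹ (n := Q - 1) (by have := h.1; omega)
      have d0 : d ≠ 0 := fun e => inv_ne_zero c0 (by
        rw [← hd, e, zero_pow (by have := h.1; omega)])
      have z2 : algebraMap k E d * z ≠ 0 := mul_ne_zero ((map_ne_zero _).2 d0) z0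
      refine ⟨⟨algebraMap k E d * z, (mem_LS' z2).2 (by rwa [cs d d0 z0, z1])⟩,
        (m1 _).2 ⟨z2, ?_⟩, by rw [cs d d0 z0, z1]⟩
      change f * σ.s (_ * z) = _ * z
      rw [map_mul, σ.h, h.2.2, mul_left_comm, hc, ← mul_assoc, ← map_mul, ← pow_sub_one_mul hQ, hd,
        mul_right_comm, inv_mul_cancel₀ c0, one_mul]
  · rw [ll_mk, ← c1, ← card_erase_add_one (s := f1.toFinset) (a := 0) (by simp),
      card_eq_sum_card_image (fun w : LS D => dv k w.1 + D) (f1.toFinset.erase 0),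
      sum_const_nat (m := Q - 1) fun A hA => ?_]
    obtain ⟨w, hw, rfl⟩ := mem_image.1 hA
    obtain ⟨w0, w1⟩ := (m1 w).1 hw
    rw [← c2, ← card_erase_of_mem (a := 0) (by simp [hQ])]
    symm
    refine card_bij (fun c _ => c • w) (fun c hc => ?_) (fun a _ b _ e => ?_) fun u hu => ?_
    · have hc : c ≠ 0 ∧ c ^ Q = c := by simpa using hc
      rw [mem_filter, m1, Submodule.coe_smul, Algebra.smul_def, cs c hc.1 w0, map_mul, σ.h, h.2.2,
        hc.2, mul_left_comm, w1]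
      exact ⟨⟨mul_ne_zero ((map_ne_zero _).2 hc.1) w0, rfl⟩, rfl⟩
    · exact smul_left_injective k (fun e => w0 (congrArg Subtype.val e)) e
    · rw [mem_filter, m1] at hu
      obtain ⟨c, c0, hc⟩ := ex w0 hu.1.1 hu.2
      have := hu.1.2
      rw [hc, map_mul, σ.h, h.2.2, mul_left_comm, w1] at this
      exact ⟨c, by simpa [c0] using (algebraMap k E).injective (mul_right_cancel₀ w0 this),
        Subtype.ext (by rw [Submodule.coe_smul, Algebra.smul_def, hc])⟩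

lemma G2.ph_K (g : G2 K) (σ : SA k E) : ph σ K = K := by_contra fun e => by
  have := g.two (by rw [dg_ph, g.dg_K]) e
  rw [ll_ph, g.ll_K] at this
  omega

lemma G2.fix_iff (g : G2 K) {P : Place k E} : ph σ (cls P) = cls P ↔ σ.pl P = P :=
  ⟨fun e => g.cls_inj (by rw [← ph_cls, e]), fun e => by rw [ph_cls, e]⟩

lemma G2.conj_fix (g : G2 K) {P : Place k E} (hP : σ.pl P = P) :
    ∃ P', σ.pl P' = P' ∧ cls P' = K - cls P := by
  obtain ⟨P', h⟩ := g.conj P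
  exact ⟨P', g.fix_iff.1 (by rw [h, map_sub, g.ph_K, g.fix_iff.2 hP]), h⟩

lemma Fr.countK (h : Fr σ Q) (g : G2 K) : ∃ X : Finset (Dv k E),
    (∀ A, A ∈ X ↔ A ∈ Eff σ.pl 2 ∧ (A : Pic k E) = K) ∧ X.card = Q + 1 := by
  obtain ⟨X, h1, h2⟩ := h.count (n := 2) (g.ph_K σ) g.dg_K
  refine ⟨X, h1, ?_⟩
  obtain ⟨r, rfl⟩ := Nat.exists_eq_add_of_le' h.1
  rw [g.ll_K, show r + 2 - 1 = r + 1 from rfl] at h2
  exact Nat.eq_of_mul_eq_mul_right r.succ_pos (by nlinarith)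

lemma Fr.fixed (h : Fr σ Q) (g : G2 K) :
    ∃ X : Finset (Place k E), (∀ P, P ∈ X ↔ σ.pl P = P) ∧ X.card ≤ 2 * Q + 2 := by
  obtain ⟨X, h1, h2⟩ := h.countK g
  refine ⟨(X.biUnion fun A => A.support).filter fun P => σ.pl P = P, fun P => ?_, ?_⟩
  · rw [mem_filter, and_iff_right_iff_imp, mem_biUnion]
    intro hP
    obtain ⟨P', p1, p2⟩ := g.conj_fix hP
    have l : ∀ P : Place k E, (0 : Dv k E) ≤ Finsupp.single P 1 := fun P =>
      Finsupp.single_nonneg.2 zero_le_one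
    refine ⟨Finsupp.single P 1 + Finsupp.single P' 1, (h1 _).2 ⟨⟨add_nonneg (l P) (l P'),
      dm_eq.1 (by rw [map_add, σ.dm_single, σ.dm_single, hP, p1]), by simp⟩,
      show cls P + cls P' = K by rw [p2, add_sub_cancel]⟩, Finsupp.mem_support_iff.2 ?_⟩
    have : (0 : Dv k E) P ≤ Finsupp.single P' 1 P := l P' P
    simp only [Finsupp.add_apply, Finsupp.single_eq_same, Finsupp.zero_apply] at this ⊢
    omega
  · refine (card_filter_le _ _).trans ((card_biUnion_le_card_mul _ _ 2 fun A hA => ?_).trans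
      (by omega))
    obtain ⟨⟨a1, -, a2⟩, -⟩ := (h1 A).1 hA
    have : ∑ P ∈ A.support, (1 : ℤ) ≤ deg A := sum_le_sum fun P hP =>
      lt_of_le_of_ne (a1 P) (Finsupp.mem_support_iff.1 hP).symm
    rw [sum_const, nsmul_one, a2] at this
    exact_mod_cast this

lemma Fr.pw (h : Fr σ Q) {m : ℕ} (hm : m ≠ 0) : ∃ τ : SA k E, Fr τ (Q ^ m) ∧
    (∀ P, τ.pl P = σ.pl^[m] P) ∧ ∀ x, ph τ x = (ph σ)^[m] x := by
  have key : ∀ m : ℕ, ∃ τ : SA k E, (∀ c, τ.s0 c = c ^ Q ^ m) ∧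
      (∀ P, τ.pl P = σ.pl^[m] P) ∧ ∀ x, ph τ x = (ph σ)^[m] x := fun m => by
    induction m with
    | zero =>
      refine ⟨⟨.refl _, .refl _, fun _ => rfl⟩, by simp, fun _ => rfl, fun x => ?_⟩
      obtain ⟨D, rfl⟩ := QuotientAddGroup.mk_surjective x
      rw [ph_mk, Function.iterate_zero_apply]
      exact congrArg _ (Finsupp.ext fun _ => rfl)
    | succ m ih =>
      obtain ⟨τ, h1, h2, h3⟩ := ih
      refine ⟨⟨σ.s.trans τ.s, σ.s0.trans τ.s0, fun c => by simp [σ.h, τ.h]⟩, fun c => ?_,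
        fun P => ?_, fun x => ?_⟩
      · simp [h1, h.2.2, ← pow_mul, pow_succ']
      · rw [Function.iterate_succ_apply, ← h2]
        rfl
      · obtain ⟨D, rfl⟩ := QuotientAddGroup.mk_surjective x
        rw [Function.iterate_succ_apply, ← h3, ph_mk, ph_mk, ph_mk]
        exact congrArg _ (Finsupp.ext fun _ => rfl)
  obtain ⟨τ, h1, h2⟩ := key m
  exact ⟨τ, ⟨h.1.trans (Nat.le_self_pow hm Q), by rw [Nat.cast_pow, h.2.1, zero_pow hm], h1⟩, h2⟩

end Pool.Agent.P.MP_9344a7_nt.R
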