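import Mathlib

/-! Two quadratic L-polynomials over a cyclic group of prime order with a common root agree. -/

namespace Pool.Agent.P.MP_9344a7_nt.R

open Finset

set_option synthInstance.maxSize 100000 in
lemma small : ∀ q < 10, ∀ N < 38, q ≤ N → ∀ e < 19, 2 ≤ q → q ≤ 2 * e →
    N * N + N ≤ 2 * (2 * e + N) + 2 * q → (2 * e + N) * e + q ≤ q * (2 * e + N) + e * e →
    (e * e) % (2 * e + N) = q % (2 * e + N) →
    (q = 3 ∧ N = 5 ∧ e = 4) ∨ 2 * e + N ∈ [8, 12, 16, 21, 25] := by decide +kernel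

/-- The indicator function of a set of four residues. -/
def ind (a c d x : ZMod 13) : ℤ := if x = a ∨ x = a - 1 ∨ x = c ∨ x = d then 1 else 0

set_option synthInstance.maxSize 100000 in
lemma ok13' : ∀ a c d : ZMod 13, (∀ j : ZMod 13, j ≠ 0 →
    ind a c d (a - j) + (ind a c d (a - 1 - j) + (ind a c d (c - j) + ind a c d (d - j))) = 1) →
    ∀ κ : ZMod 13, ind a c d (κ - a) + (ind a c d (κ - (a - 1)) + (ind a c d (κ - c) +
      ind a c d (κ - d))) = 0 → ∃ x, ind a c d x + ind a c d (κ - x) = 0 ∧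
      ∃ y, ind a c d y + ind a c d (κ - y) = 0 ∧
      ind a c d (y + y - x) + ind a c d (κ - (y + y - x)) = 0 ∧ y + y ≠ κ ∧ x ≠ y := by
  decide +kernel

lemma ok13 {f : ZMod 13 → ℤ} (h : ∀ j, f j = 0 ∨ f j = 1) (h4 : ∑ j, f j = 4)
    (h1 : ∀ j, j ≠ 0 → ∑ i, f i * f (i - j) = 1) {κ : ZMod 13} (h2 : ∀ j, f j + f (κ - j) ≤ 1) :
    ∃ x, f x + f (κ - x) = 0 ∧ ∃ y, f y + f (κ - y) = 0 ∧
      f (y + y - x) + f (κ - (y + y - x)) = 0 ∧ y + y ≠ κ ∧ x ≠ y := by
  have e : ∀ g : ZMod 13 → ℤ, ∑ i, f i * g i = ∑ i with f i = 1, g i := fun g => by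
    rw [sum_filter]
    exact sum_congr rfl fun i _ => by rcases h i with e | e <;> simp [e]
  obtain ⟨a, -, ha⟩ := exists_ne_zero_of_sum_ne_zero ((h1 1 (by decide)).trans_ne one_ne_zero)
  have a1 : f a = 1 := (h _).resolve_left (left_ne_zero_of_mul ha)
  have a2 : f (a - 1) = 1 := (h _).resolve_left (right_ne_zero_of_mul ha)
  have a3 : a - 1 ≠ a := by simpa using (by decide : (1 : ZMod 13) ≠ 0)
  set T : Finset (ZMod 13) := {i | f i = 1}
  have t4 : #T = 4 := by
    have := e fun _ => 1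
    simp only [mul_one, h4, sum_const, nsmul_eq_mul] at this
    omega
  have m1 : a ∈ T := by simpa [T] using a1
  have m2 : a - 1 ∈ T.erase a := by simpa [T, a3] using a2
  obtain ⟨c, d, cd, hT⟩ := card_eq_two.1 (show #((T.erase a).erase (a - 1)) = 2 by
    rw [card_erase_of_mem m2, card_erase_of_mem m1, t4])
  have e2 : ∀ g : ZMod 13 → ℤ, ∑ i, f i * g i = g a + (g (a - 1) + (g c + g d)) := fun g => by
    rw [e, ← add_sum_erase _ _ m1, ← add_sum_erase _ _ m2, hT, sum_pair cd]
  obtain rfl : f = ind a c d := funext fun x => by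
    have : f x = 1 ↔ x = a ∨ x = a - 1 ∨ x = c ∨ x = d := by
      rw [← mem_singleton (a := d), ← mem_insert, ← hT, ← mem_insert, insert_erase m2, ← mem_insert,
        insert_erase m1]
      simp [T]
    have := h x
    rw [ind]
    split_ifs <;> tauto
  refine ok13' a c d (fun j hj => (e2 _).symm.trans (h1 j hj)) κ
    ((e2 fun i => ind a c d (κ - i)).symm.trans ?_)
  refine sum_eq_zero fun i _ => ?_
  have := h2 i
  rcases h i with e | e <;> rcases h (κ - i) with e' | e' <;> simp_all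

variable {h : ℕ} [Fact h.Prime]

/-- The Fourier coefficient. -/
noncomputable def hat (χ : AddChar (ZMod h) ℂ) (f : ZMod h → ℤ) : ℂ := ∑ j, f j * χ j

/-- The standard character. -/
noncomputable abbrev ψ : AddChar (ZMod h) ℂ := ZMod.stdAddChar

lemma const_of_hat {f : ZMod h → ℤ} (h0 : hat ψ f = 0) : ∃ c, ∀ j, f j = c := by
  have hp : h.Prime := Fact.out
  have e : ∀ n : ℕ, ψ (n : ZMod h) = ψ (1 : ZMod h) ^ n := fun n => by
    rw [← AddChar.map_nsmul_eq_pow, nsmul_one]
  have hz : IsPrimitiveRoot (ψ (1 : ZMod h)) h :=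
    isPrimitiveRoot_of_mem_nthRootsFinset hp ((Polynomial.mem_nthRootsFinset hp.pos 1).2 (by
      rw [← e, ZMod.natCast_self, AddChar.map_zero_eq_one])) fun e1 => one_ne_zero
      (ZMod.injective_stdAddChar (e1.trans (AddChar.map_zero_eq_one _).symm))
  have := (hz.sum_eq_zero_iff_forall_eq_int hp fun i => f (ZMod.finEquiv h i)).1 (by
    rw [← h0, hat, ← (ZMod.finEquiv h).toEquiv.sum_comp]
    refine sum_congr rfl fun i _ => ?_
    rw [← e]
    congr 2
    obtain ⟨n, rfl⟩ := Nat.exists_eq_succ_of_ne_zero hp.ne_zero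
    exact Fin.cast_val_eq_self i)
  exact ⟨f 0, fun j => by simpa using this ((ZMod.finEquiv h).symm j) ((ZMod.finEquiv h).symm 0)⟩

lemma hat_add (χ : AddChar (ZMod h) ℂ) (f g : ZMod h → ℤ) :
    hat χ (fun j => f j + g j) = hat χ f + hat χ g := by
  simp [hat, add_mul, sum_add_distrib]

lemma hat_sub (χ : AddChar (ZMod h) ℂ) (f g : ZMod h → ℤ) :
    hat χ (fun j => f j - g j) = hat χ f - hat χ g := by
  simp [hat, sub_mul]

lemma hat_shift (χ : AddChar (ZMod h) ℂ) (f : ZMod h → ℤ) (t : ZMod h) :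
    hat χ (fun j => f (j - t)) = χ t * hat χ f := by
  rw [hat, hat, mul_sum, ← Equiv.sum_comp (Equiv.addRight t)]
  exact sum_congr rfl fun j _ => by simp [AddChar.map_add_eq_mul]; ring

lemma hat_refl (χ : AddChar (ZMod h) ℂ) (f : ZMod h → ℤ) (t : ZMod h) :
    hat χ (fun j => f (t - j)) = χ t * hat χ⁻¹ f := by
  rw [hat, hat, mul_sum, ← (Equiv.subLeft t).sum_comp]
  exact sum_congr rfl fun j _ => by
    simp only [Equiv.subLeft_apply, sub_sub_cancel, AddChar.inv_apply]
    rw [sub_eq_add_neg, AddChar.map_add_eq_mul]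
    ring

lemma hat_corr (χ : AddChar (ZMod h) ℂ) (f : ZMod h → ℤ) :
    hat χ (fun j => ∑ i, f i * f (i - j)) = hat χ f * hat χ⁻¹ f := by
  have := fun i => hat_refl χ f i
  simp only [hat] at this ⊢
  simp only [Int.cast_sum, Int.cast_mul, sum_mul, mul_assoc]
  rw [sum_comm]
  exact sum_congr rfl fun i _ => by rw [← mul_sum, this]

lemma exists_prim {δ : ZMod h → ℤ} (h0 : ∑ j, δ j = 0) {t : ZMod h} (ht : t ≠ 0) :
    ∃ f : ZMod h → ℤ, ∀ j, f j - f (j - t) = δ j := by
  let g : ℕ → ℤ := fun n => ∑ i ∈ range n, δ (((i : ZMod h) + 1) * t)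
  have g0 : g h = 0 := by
    rw [← h0, ← ((Equiv.addRight 1).trans (Equiv.mulRight₀ t ht)).sum_comp]
    exact sum_nbij (fun i : ℕ => (i : ZMod h)) (by simp) (fun a ha b hb e => by
      simpa [ZMod.val_cast_of_lt (mem_range.1 ha), ZMod.val_cast_of_lt (mem_range.1 hb)] using
        congrArg ZMod.val e) (fun j _ => ⟨j.val, by simpa using j.val_lt, by simp⟩) fun _ _ => rfl
  have g1 : ∀ x : ZMod h, g (x + 1).val = g (x.val + 1) := fun x => by
    rw [ZMod.val_add, ZMod.val_one]
    rcases (Nat.succ_le_of_lt x.val_lt).eq_or_lt with e | e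
    · rw [show x.val + 1 = h from e, Nat.mod_self, g0]; rfl
    · rw [Nat.mod_eq_of_lt e]
  refine ⟨fun j => g (j / t).val, fun j => ?_⟩
  have e : j / t = (j - t) / t + 1 := by field_simp; ring
  beta_reduce
  rw [e, g1]
  simp only [g, sum_range_succ, add_sub_cancel_left, ZMod.natCast_zmod_val]
  rw [← e, div_mul_cancel₀ _ ht]

theorem core {q : ℕ} (hq : 2 ≤ q) {S S' : ZMod h → ℤ} {κ κ' : ZMod h} {N : ℤ}
    (b : ∀ j, S j = 0 ∨ S j = 1) (b' : ∀ j, S' j = 0 ∨ S' j = 1)
    (s : ∀ j, S (κ - j) = S j) (s' : ∀ j, S' (κ' - j) = S' j)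
    (hN : ∑ j, S j = N) (hN' : ∑ j, S' j = N) (hA : N * N + N ≤ 2 * h + 2 * q)
    (sid : ∀ a b c d, S a = 1 → S b = 1 → S c = 1 → S d = 1 → a + b = c + d → a + b ≠ κ →
      a = c ∨ a = d) {α : ℂ}
    (r : α ^ 2 + hat ψ S * α + q * ψ κ = 0) (r' : α ^ 2 + hat ψ S' * α + q * ψ κ' = 0) :
    S = S' ∧ κ = κ' := by
  have hp : h.Prime := Fact.out
  have hc : ∀ c : ℤ, ∑ _j : ZMod h, c = h * c := fun c => by simp [ZMod.card]
  have u0 : ∀ x : ZMod h, ψ x ≠ 0 := fun x e => by
    simpa [e] using (ψ.map_add_eq_mul x (-x)).symm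
  have a0 : α ≠ 0 := fun e => by
    rw [e] at r
    exact mul_ne_zero (Nat.cast_ne_zero.2 (by omega : q ≠ 0)) (u0 κ) (by simpa using r)
  by_cases ht : κ = κ'
  · subst ht
    obtain ⟨c, hc'⟩ := const_of_hat (f := fun j => S j - S' j) (by
      rw [hat_sub]
      exact mul_right_cancel₀ a0 (by linear_combination r - r'))
    have := hc c
    rw [← sum_congr rfl fun j _ => hc' j, sum_sub_distrib, hN, hN', sub_self] at this
    have c0 : c = 0 := by simpa [hp.ne_zero] using this
    exact ⟨funext fun j => sub_eq_zero.1 ((hc' j).trans c0), rfl⟩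
  exfalso
  obtain ⟨t, rfl⟩ : ∃ t, κ' = κ + t := ⟨κ' - κ, by ring⟩
  have t0 : t ≠ 0 := fun e => ht (by simp [e])
  have v1 : 1 - ψ t ≠ 0 := sub_ne_zero.2 fun e => t0
    (ZMod.injective_stdAddChar (e.symm.trans (AddChar.map_zero_eq_one _).symm))
  rw [AddChar.map_add_eq_mul] at r'
  have key : ∀ f : ZMod h → ℤ, (∀ j, f j - f (j - t) = S' j - S j) →
      (∃ c', ∀ j, f j + f (κ - j) + S j = c') ∧
      ∃ c, ∀ j, ∑ i, f i * f (i - j) - (if j = 0 then (q : ℤ) else 0) = c := fun f hf => by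
    have e : ∀ χ, hat χ f - χ t * hat χ f = hat χ S' - hat χ S := fun χ => by
      rw [← hat_shift, ← hat_sub, ← hat_sub, funext hf]
    have e1 := e ψ
    have e2 := e ψ⁻¹
    have e3 := hat_refl ψ S κ
    have e4 := hat_refl ψ S' (κ + t)
    rw [funext s] at e3
    rw [funext s', AddChar.map_add_eq_mul] at e4
    have e5 : ψ t * ψ⁻¹ t = 1 := by
      rw [AddChar.inv_apply, ← AddChar.map_add_eq_mul, add_neg_cancel, AddChar.map_zero_eq_one]
    have e6 : α * hat ψ f = q * ψ κ :=
      mul_left_cancel₀ v1 (by linear_combination α * e1 + r' - r)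
    have e7 : α + hat ψ f + hat ψ S = 0 := mul_left_cancel₀ a0 (by linear_combination r + e6)
    have e8 : ψ κ * hat ψ⁻¹ f = α := mul_left_cancel₀ v1 (by
      linear_combination (-(ψ κ * ψ t)) * e2 + e4 - ψ t * e3 - (ψ κ * hat ψ⁻¹ f) * e5 + e1 -
        (1 - ψ t) * e7)
    refine ⟨const_of_hat ?_, const_of_hat ?_⟩
    · rw [hat_add, hat_add, hat_refl, e8]
      linear_combination e7
    · rw [hat_sub, hat_corr]
      have : hat ψ (fun j : ZMod h => if j = 0 then (q : ℤ) else 0) = q := by simp [hat]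
      rw [this]
      exact mul_left_cancel₀ (u0 κ) (by linear_combination hat ψ f * e8 + e6)
  obtain ⟨f0, h0⟩ := exists_prim (δ := fun j => S' j - S j)
    (by rw [sum_sub_distrib, hN, hN', sub_self]) t0
  obtain ⟨⟨c0, h1⟩, -⟩ := key f0 h0
  set f := fun j => f0 j - c0 / 2 with hfd
  have hf : ∀ j, f j - f (j - t) = S' j - S j := fun j => by rw [← h0]; ring
  have h2 : ∀ j, f j + f (κ - j) + S j = c0 % 2 := fun j => by
    have := h1 j
    simp only [hfd]
    omega
  obtain ⟨-, c, h3⟩ := key f hf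
  clear_value f
  have sh : ∀ g : ℤ → ℤ, ∑ j, g (f (j - t)) = ∑ j, g (f j) := fun g =>
    (Equiv.subRight t).sum_comp fun j => g (f j)
  have sr : ∀ g : ℤ → ℤ, ∑ j, g (f (κ - j)) = ∑ j, g (f j) := fun g =>
    (Equiv.subLeft κ).sum_comp fun j => g (f j)
  set ε := ∑ j, f j with hε
  set u := ∑ j, S j * S' j with hu
  have q1 : ∑ j, f j * f j = q + c := by have := h3 0; simp at this; omega
  have q2 : ∑ j, f j * f (j - t) = c := by simpa [t0] using h3 t
  have q3 : ε * ε = q + h * c := by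
    rw [← hc, ← sum_congr rfl fun j _ => h3 j, sum_sub_distrib, sum_comm, hε, sum_mul]
    simp only [← mul_sum, sum_ite_eq', mem_univ, if_true, add_sub_cancel]
    exact sum_congr rfl fun i _ => by rw [(Equiv.subLeft i).sum_comp f |>.symm]; rfl
  have q4 : 2 * ε + N = h * (c0 % 2) := by
    rw [← hc, ← sum_congr rfl fun j _ => h2 j, sum_add_distrib, sum_add_distrib, hN, sr fun x => x]
    ring
  have q5 : N - u = q := by
    have e : ∀ j, S j + S' j - 2 * (S j * S' j) =
        f j * f j + f (j - t) * f (j - t) - 2 * (f j * f (j - t)) := fun j => by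
      have := hf j
      rcases b j with e | e <;> rcases b' j with e' | e' <;> rw [e, e'] at this ⊢ <;>
        rw [show f j = f (j - t) + _ from eq_add_of_sub_eq' this] <;> ring
    have := sum_congr rfl fun j (_ : j ∈ univ) => e j
    simp only [sum_sub_distrib, sum_add_distrib, ← mul_sum] at this
    rw [sh fun x => x * x, hN, hN', q1, q2] at this
    omega
  have q6 : 0 ≤ u := sum_nonneg fun j _ => by
    rcases b j with e | e <;> rcases b' j with e' | e' <;> simp [e, e']
  have q7 : N + N - u ≤ h := by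
    have := sum_le_sum fun j (_ : j ∈ univ) => show S j + S' j - S j * S' j ≤ 1 by
      rcases b j with e | e <;> rcases b' j with e' | e' <;> simp [e, e']
    rw [hc, sum_sub_distrib, sum_add_distrib, hN, hN'] at this
    omega
  have h0 : (0 : ℤ) < h := by exact_mod_cast hp.pos
  rcases Int.emod_two_eq_zero_or_one c0 with e | e <;> rw [e] at h2 q4
  · have q8 : ∑ j, |f j| ≤ q + c := q1 ▸ sum_le_sum fun j _ => by
      rw [← abs_mul_abs_self]; exact Int.le_self_sq _ |>.trans_eq (sq _)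
    have q9 := sum_le_sum fun j (_ : j ∈ univ) => show |f (κ - j)| - f (κ - j) ≤
        |f j| + f j + (|f (j - t)| + f (j - t)) + 2 * (S j * S' j) by
      have a1 := hf j
      have a2 := h2 j
      rcases b j with e | e <;> rcases b' j with e' | e' <;> rw [e, e'] at a1 ⊢ <;>
        rw [e] at a2 <;> simp only [abs_eq_max_neg] <;> omega
    simp only [sum_sub_distrib, sum_add_distrib, ← mul_sum] at q9
    rw [sh fun x => |x|, sr fun x => |x|, sh fun x => x, sr fun x => x] at q9
    rcases le_or_gt c 0 with c0 | c0 <;> nlinarith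
  · have q8 : ε ≤ q + c := q1 ▸ sum_le_sum fun j _ => (Int.le_self_sq _).trans_eq (sq _)
    have q9 : (h : ℤ) ≤ 4 * q + 1 := by nlinarith
    have q10 : q < 10 := by nlinarith
    lift N to ℕ using by omega
    obtain ⟨e, he⟩ := Int.eq_ofNat_of_zero_le (show 0 ≤ ε by omega)
    rw [he] at q3 q4 q8
    obtain rfl : h = 2 * e + N := by omega
    rcases small q q10 N (by omega) (by omega) e (by omega) hq (by omega) (by exact_mod_cast hA)
      (by zify; push_cast at q3 h0; nlinarith) (by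
        zify
        push_cast at q3
        rw [q3, Int.add_mul_emod_self_left]) with ⟨rfl, rfl, rfl⟩ | h13
    · obtain rfl : c = 1 := by omega
      have f01 : ∀ j, f j = 0 ∨ f j = 1 := fun j => by
        have := (sum_eq_sum_iff_of_le fun j (_ : j ∈ univ) =>
          (Int.le_self_sq (f j)).trans_eq (sq _)).1 (by rw [q1, ← hε, he]; rfl) j (mem_univ _)
        exact or_iff_not_imp_left.2 fun e => (mul_eq_left₀ e).1 this.symm
      obtain ⟨x, h4, y, h5, h6, h7, h8⟩ := ok13 f01 (hε.symm.trans he) (fun j hj => by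
        simpa [hj] using h3 j) (κ := κ) fun j => by
          have := h2 j
          have := b j
          omega
      have fz : ∀ j, f j + f (κ - j) = 0 → S j = 1 := fun j hj => by
        have := h2 j
        omega
      exact (sid y y x _ (fz _ h5) (fz _ h5) (fz _ h4) (fz _ h6) (by ring) h7).elim h8.symm
        fun e => h8 (by linear_combination e)
    · simp only [List.mem_cons, List.not_mem_nil, or_false] at h13
      rcases h13 with e | e | e | e | e <;> rw [e] at hp <;> norm_num at hp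

end Pool.Agent.P.MP_9344a7_nt.R
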