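import Pool.Agent.P.MP_9344a7_nt.IfA

/-! Proof of the additive core statement. -/

namespace Pool.Agent.P.MP_9344a7_nt

namespace CoreC

open Finset Polynomial ArithmeticFunction

theorem next_cyc (n : ℕ) (hn : 0 < n) : (cyclotomic n ℚ).nextCoeff = -(moebius n : ℚ) := by
  have key : ∀ n > 0, ∑ i ∈ n.divisors, (cyclotomic i ℚ).nextCoeff =
      if n = 1 then (-1 : ℚ) else 0 := fun n hn => by
    rw [← Monic.nextCoeff_prod _ _ fun i _ => cyclotomic.monic i ℚ,
      prod_cyclotomic_eq_X_pow_sub_one hn, nextCoeff_of_natDegree_pos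
        (by rw [← C_1, natDegree_X_pow_sub_C]; exact hn), ← C_1, natDegree_X_pow_sub_C,
      coeff_sub, coeff_X_pow, coeff_C, if_neg (by omega)]
    by_cases h : n = 1
    · simp [h]
    · rw [if_neg (by omega), if_neg h, sub_zero]
  have := sum_eq_iff_sum_mul_moebius_eq.1 key n hn
  rw [← this, Nat.sum_divisorsAntidiagonal' (fun a b => (moebius a : ℚ) * if b = 1 then -1 else 0),
    sum_eq_single 1 (fun b _ h => by simp [h]) (fun h => by simp at h; omega)]
  simp

theorem exists_fun : ∃ Φ : ℂ →ₗ[ℚ] ℚ, ∀ n > 0, ∀ ζ : ℂ, IsPrimitiveRoot ζ n →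
    Φ ζ = (moebius n : ℚ) / n.totient := by
  let K := algebraicClosure ℚ ℂ
  have : Algebra.IsIntegral ℚ K := (algebraicClosure.isAlgebraic ℚ ℂ).isIntegral
  obtain ⟨Φ, hΦ⟩ := LinearMap.exists_extend (p := K.toSubalgebra.toSubmodule)
    (Algebra.normalizedTrace ℚ K)
  refine ⟨Φ, fun n hn ζ h => ?_⟩
  have h1 : ζ ∈ K := mem_algebraicClosure_iff'.2 ((h.isIntegral hn).tower_top)
  have h2 : Φ ζ = Algebra.normalizedTrace ℚ K ⟨ζ, h1⟩ := LinearMap.congr_fun hΦ ⟨ζ, h1⟩
  have h3 : minpoly ℚ (⟨ζ, h1⟩ : K) = minpoly ℚ ζ := IntermediateField.minpoly_eq (⟨ζ, h1⟩ : K)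
  rw [h2, Algebra.normalizedTrace_minpoly, h3,
    ← cyclotomic_eq_minpoly_rat h hn, natDegree_cyclotomic, next_cyc n hn, neg_neg, smul_eq_mul,
    div_eq_inv_mul]

theorem tot4 {n : ℕ} (h1 : n ≠ 1) (h : n.Coprime 6) : 4 ≤ n.totient := by
  have h0 : 0 < n := Nat.pos_of_ne_zero fun e => by simp [e] at h
  have hp := Nat.minFac_prime h1
  have h2 := Nat.le_of_dvd (Nat.totient_pos.2 h0) (Nat.totient_dvd_of_dvd n.minFac_dvd)
  have h3 := Nat.Coprime.coprime_dvd_left n.minFac_dvd h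
  rw [Nat.totient_prime hp] at h2
  generalize n.minFac = p at *
  have := hp.two_le
  by_contra hc
  have : p ≤ 4 := by omega
  interval_cases p <;> simp_all (config := {decide := true})

theorem tot16 {n : ℕ} (h1 : n ≠ 1) (h : n.Coprime 6) (h2 : moebius n = 1) : 16 ≤ n.totient := by
  have hp := Nat.minFac_prime h1
  have hs : Squarefree n := moebius_ne_zero_iff_squarefree.1 (by simp [h2])
  obtain ⟨m, hm⟩ := n.minFac_dvd
  generalize n.minFac = p at *
  subst hm
  have h3 : m ≠ 1 := fun e => by simp [e, moebius_apply_prime hp] at h2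
  rw [Nat.totient_mul (Nat.coprime_of_squarefree_mul hs)]
  exact Nat.mul_le_mul (tot4 hp.ne_one (Nat.Coprime.coprime_mul_right h))
    (tot4 h3 (Nat.Coprime.coprime_mul_left h))

theorem card_sq {h : ℕ} (h0 : h ≠ 0) :
    ∑ d ∈ h.divisors, |(moebius d : ℝ)| ≤ 2 ^ h.primeFactors.card := by
  have h1 : ∑ d ∈ h.divisors, |(moebius d : ℝ)| = (h.divisors.filter Squarefree).card := by
    rw [card_filter, Nat.cast_sum]
    refine sum_congr rfl fun d _ => ?_
    rw [← Int.cast_abs, abs_moebius]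
    split_ifs <;> simp
  rw [h1]
  norm_cast
  rw [← card_powerset]
  refine card_le_card_of_injOn Nat.primeFactors (fun d hd => ?_) fun d hd e he h2 => ?_
  · simp only [coe_filter, Nat.mem_divisors, Set.mem_ofPred_eq] at hd
    exact mem_coe.2 (mem_powerset.2 (Nat.primeFactors_mono hd.1.1 h0))
  · simp only [coe_filter, Nat.mem_divisors, Set.mem_ofPred_eq] at hd he
    rw [← Nat.prod_primeFactors_of_squarefree hd.2, h2, Nat.prod_primeFactors_of_squarefree he.2]

theorem omega_pow (k : ℕ) (hk : 0 < k) {h : ℕ} (h0 : h ≠ 0) :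
    k ^ h.primeFactors.card ≤ k ^ k * h := by
  rw [← card_filter_add_card_filter_not (fun p => p < k), pow_add]
  refine Nat.mul_le_mul (Nat.pow_le_pow_right hk ?_) ?_
  · exact (card_le_card fun p hp => mem_range.2 (mem_filter.1 hp).2).trans_eq (card_range k)
  · refine le_trans ?_ (Nat.le_of_dvd (Nat.pos_of_ne_zero h0)
      ((prod_dvd_prod_of_subset _ _ _ (filter_subset (fun p => ¬ p < k) _)).trans
        (Nat.prod_primeFactors_dvd h)))
    exact pow_card_le_prod _ _ _ fun p hp => not_lt.1 (mem_filter.1 hp).2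

theorem small (D : ℕ) : ∃ q0, ∀ q h : ℕ, q0 ≤ q → h ≠ 0 → h ≤ q ^ 3 →
    D * (2 ^ h.primeFactors.card) ^ 2 ≤ q := by
  obtain ⟨C, h1, hC⟩ : ∃ C, 1 ≤ C ∧ ∀ h : ℕ, h ≠ 0 → (2 ^ 12) ^ h.primeFactors.card ≤ C * h :=
    ⟨_, Nat.one_le_pow _ _ (by norm_num), fun h => omega_pow _ (by norm_num)⟩
  refine ⟨D ^ 2 * C, fun q h a1 a2 a3 => ?_⟩
  have a4 := hC h a2
  rw [← pow_mul, mul_comm 12, pow_mul] at a4
  generalize 2 ^ h.primeFactors.card = ρ at *
  have a5 : ρ ^ 4 ≤ C * q := by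
    refine le_of_pow_le_pow_left₀ (n := 3) (by norm_num) (Nat.zero_le _) ?_
    rw [← pow_mul, mul_pow]
    exact a4.trans (Nat.mul_le_mul (Nat.le_self_pow (by norm_num) C) a3)
  refine le_of_pow_le_pow_left₀ (n := 2) (by norm_num) (Nat.zero_le _) ?_
  calc (D * ρ ^ 2) ^ 2 = D ^ 2 * ρ ^ 4 := by ring
    _ ≤ D ^ 2 * (C * q) := Nat.mul_le_mul_left _ a5
    _ = D ^ 2 * C * q := by ring
    _ ≤ q * q := Nat.mul_le_mul_right _ a1
    _ = q ^ 2 := by ring

variable {A : Type} [AddCommGroup A] [Fintype A] [DecidableEq A]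

/-- the normalised Ramanujan sum -/
noncomputable def cc (x : A) : ℝ := (moebius (addOrderOf x) : ℝ) / (addOrderOf x).totient

omit [Fintype A] [DecidableEq A] in
theorem cc_zero : cc (0 : A) = 1 := by simp [cc]

omit [Fintype A] [DecidableEq A] in
theorem cc_neg (x : A) : cc (-x) = cc x := by simp [cc]

omit [Fintype A] [DecidableEq A] in
theorem cc_nsmul (h : (Nat.card A).Coprime 6) (x : A) {k : ℕ} (hk : k ∣ 6) : cc (k • x) = cc x := by
  rw [cc, cc, Nat.Coprime.addOrderOf_nsmul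
    ((h.coprime_dvd_left (addOrderOf_dvd_natCard x)).coprime_dvd_right hk)]

omit [Fintype A] [DecidableEq A] in
theorem cc_bound (h : (Nat.card A).Coprime 6) {x : A} (hx : x ≠ 0) :
    -1 / 4 ≤ cc x ∧ cc x ≤ 1 / 16 := by
  have h1 : addOrderOf x ≠ 1 := by simpa using hx
  have h2 := h.coprime_dvd_left (addOrderOf_dvd_natCard x)
  have h3 : (4 : ℝ) ≤ (addOrderOf x).totient := by exact_mod_cast tot4 h1 h2
  rw [cc, le_div_iff₀ (by linarith), div_le_iff₀ (by linarith)]
  rcases moebius_eq_or (addOrderOf x) with e | e | e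
  · rw [e]; constructor <;> push_cast <;> linarith
  · have h4 : (16 : ℝ) ≤ (addOrderOf x).totient := by exact_mod_cast tot16 h1 h2 e
    rw [e]; constructor <;> push_cast <;> linarith
  · rw [e]; constructor <;> push_cast <;> linarith

omit [Fintype A] [DecidableEq A] in
theorem prim {χ : AddChar A ℂ} (h : Function.Injective χ) (x : A) :
    IsPrimitiveRoot (χ x) (addOrderOf x) :=
  ⟨by rw [← AddChar.map_nsmul_eq_pow, addOrderOf_nsmul_eq_zero, AddChar.map_zero_eq_one],
    fun l hl => addOrderOf_dvd_of_nsmul_eq_zero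
      (h (by rw [AddChar.map_nsmul_eq_pow, hl, AddChar.map_zero_eq_one]))⟩

omit [DecidableEq A] in
theorem sum_cc {χ : AddChar A ℂ} (h : Function.Injective χ) :
    ∑ x : A, |cc x| ≤ 2 ^ (Nat.card A).primeFactors.card := by
  refine le_trans ?_ (card_sq Nat.card_pos.ne')
  rw [← sum_fiberwise_of_maps_to (s := univ) (t := (Nat.card A).divisors) (g := addOrderOf)
    fun x _ => Nat.mem_divisors.2 ⟨addOrderOf_dvd_natCard x, Nat.card_pos.ne'⟩]
  refine sum_le_sum fun d hd => ?_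
  have h0 := Nat.pos_of_mem_divisors hd
  have h1 : (0 : ℝ) < d.totient := by exact_mod_cast Nat.totient_pos.2 h0
  have h2 : (univ.filter fun x : A => addOrderOf x = d).card ≤ d.totient := by
    rw [← Complex.card_primitiveRoots]
    exact card_le_card_of_injOn χ (fun x hx => mem_coe.2 ((mem_primitiveRoots h0).2
      ((mem_filter.1 (mem_coe.1 hx)).2 ▸ prim h x))) h.injOn
  rw [sum_congr rfl (g := fun _ => |(moebius d : ℝ)| / d.totient) fun x hx => by
    rw [cc, (mem_filter.1 hx).2, abs_div, abs_of_pos h1], sum_const, nsmul_eq_mul, mul_comm,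
    div_mul_eq_mul_div, div_le_iff₀ h1]
  exact mul_le_mul_of_nonneg_left (by exact_mod_cast h2) (abs_nonneg _)

/-- the number of representations as a difference -/
def uu (S T : Finset A) (b : A) : ℕ := (T.filter fun x => x - b ∈ S).card

theorem sum_uu (S T : Finset A) (g : A → ℝ) :
    ∑ x ∈ T, ∑ s ∈ S, g (x - s) = ∑ b, uu S T b * g b := by
  have : ∀ x, ∑ s ∈ S, g (x - s) = ∑ b, if x - b ∈ S then g b else 0 := fun x => by
    rw [← (Equiv.subLeft x).sum_comp]
    simp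
  simp only [this, uu, card_filter, Nat.cast_sum, sum_mul]
  rw [sum_comm]
  exact sum_congr rfl fun b _ => sum_congr rfl fun x _ => by split_ifs <;> simp

omit [Fintype A] in
theorem sid_two {S : Finset A} (h : Sid S) {b b' : A} (hb : b ≠ b') {T : Finset A}
    (hT : ∀ x ∈ T, x - b ∈ S ∧ x - b' ∈ S) : T.card ≤ 2 := by
  rw [← card_image_of_injective T (sub_left_injective (b := b))]
  refine h (b - b') (sub_ne_zero.2 hb) _ (fun y hy => ?_) fun y hy => ?_ <;>
    obtain ⟨x, hx, rfl⟩ := mem_image.1 hy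
  exacts [(hT x hx).1, by simpa using (hT x hx).2]

theorem self_est {S : Finset A} (h : Sid S) (g : A → ℝ) :
    |∑ x ∈ S, ∑ s ∈ S, g (x - s) - S.card * g 0| ≤ 2 * ∑ b, |g b| := by
  rw [sum_uu, ← add_sum_erase _ _ (mem_univ 0), show uu S S 0 = S.card by simp [uu],
    add_sub_cancel_left, mul_sum]
  refine (abs_sum_le_sum_abs _ _).trans ((sum_le_sum fun b hb => ?_).trans
    (sum_le_sum_of_subset_of_nonneg (erase_subset 0 univ) fun _ _ _ => by positivity))
  rw [abs_mul, Nat.abs_cast]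
  refine mul_le_mul_of_nonneg_right ?_ (abs_nonneg _)
  exact_mod_cast sid_two h (ne_of_mem_erase hb) fun x hx => by simpa [and_comm] using hx

omit [Fintype A] in
theorem shift_est {S : Finset A} (h : Sid S) (T M : Finset A) :
    ∑ b ∈ M, uu S T b ≤ T.card + M.card ^ 2 := by
  have : ∑ b ∈ M, uu S T b ≤
      (M.biUnion fun b => T.filter fun x => x - b ∈ S).card + M.card ^ 2 := by
    induction M using Finset.induction_on with
    | empty => simp
    | insert b M hb ih =>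
      rw [sum_insert hb, biUnion_insert, card_insert_of_notMem hb]
      have h1 := card_union_add_card_inter (T.filter fun x => x - b ∈ S)
        (M.biUnion fun b => T.filter fun x => x - b ∈ S)
      have h2 : ((T.filter fun x => x - b ∈ S) ∩
          M.biUnion fun b => T.filter fun x => x - b ∈ S).card ≤ M.card * 2 := by
        rw [inter_biUnion]
        refine card_biUnion_le_card_mul _ _ _ fun b' hb' => sid_two h (b := b) (b' := b')
          (fun e => hb (e ▸ hb')) fun x hx => ?_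
        simp only [mem_inter, mem_filter] at hx
        exact ⟨hx.1.2, hx.2.2⟩
      rw [uu]
      nlinarith
  exact this.trans (Nat.add_le_add_right
    (card_le_card (biUnion_subset.2 fun _ _ => filter_subset _ _)) _)

theorem top_est {S : Finset A} (h : Sid S) (T : Finset A) {w : A → ℝ} {W : ℝ} (h0 : 0 ≤ W)
    (hw : ∀ b, w b ≤ W) {m : ℕ} (hm : 0 < m) :
    ∑ b, uu S T b * w b ≤ W * (T.card + m ^ 2) + (T.card + m ^ 2) / m * ∑ b, |w b| := by
  set L : ℝ := (T.card + m ^ 2) / m with hL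
  have m0 : (0 : ℝ) < m := by exact_mod_cast hm
  have L0 : 0 ≤ L := by positivity
  have h1 : (univ.filter fun b => L < uu S T b).card ≤ m := by
    by_contra hc
    obtain ⟨M, a1, a2⟩ := exists_subset_card_eq (not_le.1 hc).le
    have a3 : ((∑ b ∈ M, uu S T b : ℕ) : ℝ) ≤ T.card + m ^ 2 := by
      exact_mod_cast a2 ▸ shift_est h T M
    have a4 := sum_lt_sum_of_nonempty (card_pos.1 (a2 ▸ hm)) fun b hb => (mem_filter.1 (a1 hb)).2
    rw [sum_const, a2, nsmul_eq_mul, hL, mul_div_cancel₀ _ m0.ne'] at a4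
    push_cast at a3
    linarith
  rw [← sum_filter_add_sum_filter_not univ fun b => L < uu S T b]
  refine add_le_add ?_ ?_
  · have a3 : ((∑ b with L < uu S T b, uu S T b : ℕ) : ℝ) ≤ T.card + m ^ 2 := by
      exact_mod_cast (shift_est h T _).trans (Nat.add_le_add_left (Nat.pow_le_pow_left h1 2) _)
    refine le_trans ?_ (mul_le_mul_of_nonneg_left a3 h0)
    rw [Nat.cast_sum, mul_sum]
    exact sum_le_sum fun b _ => by
      rw [mul_comm W]; exact mul_le_mul_of_nonneg_left (hw b) (Nat.cast_nonneg _)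
  · rw [mul_sum]
    refine (sum_le_sum fun b hb => ?_).trans
      (sum_le_sum_of_subset_of_nonneg (filter_subset _ _) fun _ _ _ => by positivity)
    exact (mul_le_mul_of_nonneg_left (le_abs_self _) (Nat.cast_nonneg _)).trans
      (mul_le_mul_of_nonneg_right (not_lt.1 (mem_filter.1 hb).2) (abs_nonneg _))

omit [DecidableEq A] in
theorem ident {q : ℕ} (hq : q ≠ 0) {χ : AddChar A ℂ} (h : Function.Injective χ) {S S' : Finset A}
    {κ κ' : A} {α : ℂ} (s : ∀ x ∈ S, κ - x ∈ S) (s' : ∀ x ∈ S', κ' - x ∈ S')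
    (r : Rt q χ S κ α) (r' : Rt q χ S' κ' α) (y : A) :
    ∑ x ∈ S, ∑ z ∈ S, cc (x - z - y) + ∑ x ∈ S', ∑ z ∈ S', cc (x - z - y) -
      ∑ x ∈ S', ∑ z ∈ S, (cc (x - z - y) + cc (x - z + y)) =
      q * (2 * cc y - cc (κ' - κ - y) - cc (κ' - κ + y)) := by
  have sym : ∀ (T : Finset A) (k : A), (∀ x ∈ T, k - x ∈ T) →
      ∑ x ∈ T, χ x = χ k * ∑ x ∈ T, χ (-x) := fun T k hT => by
    rw [mul_sum]
    exact sum_nbij' (k - ·) (k - ·) hT hT (by simp) (by simp) fun x _ => by
      rw [← AddChar.map_add_eq_mul]; simp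
  have cor : ∀ T U : Finset A, ∑ x ∈ T, ∑ z ∈ U, χ (x - z - y) =
      (∑ x ∈ T, χ x) * (∑ x ∈ U, χ (-x)) * χ (-y) := fun T U => by
    rw [sum_mul_sum]
    simp only [sum_mul, sub_eq_add_neg, AddChar.map_add_eq_mul]
  have e1 := sym S κ s
  have e2 := sym S' κ' s'
  have e3 : χ κ * χ (-κ) = 1 := by rw [← AddChar.map_add_eq_mul]; simp
  have e4 : χ κ' * χ (-κ') = 1 := by rw [← AddChar.map_add_eq_mul]; simp
  have e5 : χ (κ' - κ - y) = χ κ' * χ (-κ) * χ (-y) := by
    simp only [sub_eq_add_neg, AddChar.map_add_eq_mul]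
  have e6 : χ (κ - κ' - y) = χ κ * χ (-κ') * χ (-y) := by
    simp only [sub_eq_add_neg, AddChar.map_add_eq_mul]
  have e7 : ∑ x ∈ S, ∑ z ∈ S, χ (x - z - y) + ∑ x ∈ S', ∑ z ∈ S', χ (x - z - y) -
      ∑ x ∈ S', ∑ z ∈ S, χ (x - z - y) - ∑ x ∈ S, ∑ z ∈ S', χ (x - z - y) =
      (q : ℚ) • ((2 : ℚ) • χ (-y) - χ (κ' - κ - y) - χ (κ - κ' - y)) := by
    rw [cor, cor, cor, cor, e5, e6]
    rw [Rt] at r r'
    generalize ∑ x ∈ S, χ x = a, ∑ x ∈ S', χ x = a', ∑ x ∈ S, χ (-x) = b,
      ∑ x ∈ S', χ (-x) = b', χ κ = k, χ κ' = k', χ (-κ) = l, χ (-κ') = l', χ (-y) = v at *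
    have e8 : (q * k' - q * k) ^ 2 + (a - a') * (a * (q * k') - a' * (q * k)) = 0 := by
      linear_combination (a - a') ^ 2 * r -
        ((a - a') * α + (q * k' - q * k) + a * (a - a')) * (r - r')
    have e9 : (a - a') * (b - b') = q * (2 - k' * l - k * l') := by
      refine mul_left_cancel₀ (Nat.cast_ne_zero.2 hq : (q : ℂ) ≠ 0) ?_
      linear_combination l * l' * e8 - (a - a') * q * k' * l * l' * e1 +
        (a - a') * q * k * l * l' * e2 -
        (q * (a - a') * (b - b') * k' * l' + q ^ 2 * (k * l' - 2 * k' * l')) * e3 -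
        (q * (a - a') * (b - b') + q ^ 2 * (k' * l - 2)) * e4
    simp only [Rat.smul_def]
    push_cast
    linear_combination v * e9
  obtain ⟨Φ, hΦ⟩ := exists_fun
  have e8 : ∀ x, ((Φ (χ x) : ℚ) : ℝ) = cc x := fun x => by
    rw [hΦ _ (addOrderOf_pos x) _ (prim h x), cc]
    push_cast
    rfl
  have e9 := congrArg (fun z => ((Φ z : ℚ) : ℝ)) e7
  simp only [map_sub, map_add, map_sum, map_smul, smul_eq_mul] at e9
  push_cast at e9
  simp only [e8] at e9
  rw [sum_comm (s := S) (t := S'), cc_neg] at e9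
  simp only [sum_add_distrib]
  rw [← cc_neg (κ' - κ + y), show -(κ' - κ + y) = κ - κ' - y by abel, ← e9,
    sum_congr rfl fun x _ => sum_congr rfl fun z _ => (cc_neg (x - z + y)).symm]
  simp only [show ∀ x z : A, -(x - z + y) = z - x - y from fun x z => by abel]
  ring

omit [Fintype A] in
theorem uu_symm {S S' : Finset A} {κ κ' : A} (s : ∀ x ∈ S, κ - x ∈ S)
    (s' : ∀ x ∈ S', κ' - x ∈ S') (b : A) : uu S S' (κ' - κ - b) = uu S S' b := by
  refine card_nbij' (κ' - ·) (κ' - ·) (fun x hx => ?_) (fun x hx => ?_) (by simp [Set.LeftInvOn])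
    (by simp [Set.RightInvOn, Set.LeftInvOn]) <;>
    simp only [coe_filter, Set.mem_ofPred_eq] at hx ⊢ <;> refine ⟨s' x hx.1, ?_⟩
  · rw [show κ' - x - b = κ - (x - (κ' - κ - b)) by abel]
    exact s _ hx.2
  · rw [show κ' - x - (κ' - κ - b) = κ - (x - b) by abel]
    exact s _ hx.2

omit [DecidableEq A] in
theorem abs_shift (g : A → ℝ) (y : A) : ∑ b, |g (b - y)| = ∑ b, |g b| :=
  (Equiv.subRight y).sum_comp fun b => |g b|

theorem ident2 {q : ℕ} (hq : q ≠ 0) {χ : AddChar A ℂ} (h : Function.Injective χ) {S S' : Finset A}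
    {κ κ' : A} {α : ℂ} (s : ∀ x ∈ S, κ - x ∈ S) (s' : ∀ x ∈ S', κ' - x ∈ S')
    (r : Rt q χ S κ α) (r' : Rt q χ S' κ' α) (hc : S.card = S'.card) (d : Sid S) (d' : Sid S')
    (y : A) : 2 * S.card * cc y - q * (2 * cc y - cc (κ' - κ - y) - cc (κ' - κ + y)) -
      4 * ∑ b : A, |cc b| ≤ ∑ b, uu S S' b * (cc (b - y) + cc (b + y)) := by
  have h1 := (abs_le.1 (self_est d fun b => cc (b - y))).1
  have h2 := (abs_le.1 (self_est d' fun b => cc (b - y))).1
  rw [abs_shift, zero_sub, cc_neg] at h1 h2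
  rw [← hc] at h2
  rw [← ident hq h s s' r r' y, ← sum_uu S S' fun b => cc (b - y) + cc (b + y)]
  linarith

omit [Fintype A] in
theorem four_le (h : (Nat.card A).Coprime 6) {t : A} (ht : t ≠ 0) (b : A) :
    cc b + cc (b - 2 • t) + (cc (b - t) + cc (b + t)) ≤ 1 + 3 * cc t := by
  have h2 := cc_nsmul h t (k := 2) (by norm_num)
  have h3 := cc_nsmul h t (k := 3) (by norm_num)
  have h4 := cc_neg t
  by_cases a1 : b = 0
  · rw [a1, zero_sub, zero_sub, zero_add, cc_neg, cc_zero]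
    linarith
  by_cases a2 : b - 2 • t = 0
  · rw [a2, sub_eq_zero.1 a2, show 2 • t - t = t by abel, show 2 • t + t = 3 • t by abel, cc_zero]
    linarith
  by_cases a3 : b - t = 0
  · rw [a3, sub_eq_zero.1 a3, show t - 2 • t = -t by abel, show t + t = 2 • t by abel, cc_zero]
    linarith
  by_cases a4 : b + t = 0
  · rw [a4, eq_neg_of_add_eq_zero_left a4, show -t - 2 • t = -(3 • t) by abel,
      show -t - t = -(2 • t) by abel, cc_neg (3 • t), cc_neg (2 • t), cc_zero]
    linarith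
  linarith [(cc_bound h a1).2, (cc_bound h a2).2, (cc_bound h a3).2, (cc_bound h a4).2,
    (cc_bound h ht).1]

end CoreC

open CoreC Finset in
theorem p_CORE : S_CORE := by
  intro C0
  obtain ⟨K, K1, K2⟩ : ∃ K : ℕ, 64 ≤ K ∧ 64 * C0 ≤ K := ⟨64 * (C0 + 1), by omega, by omega⟩
  obtain ⟨q0, hq0⟩ := small (100 * K ^ 3)
  refine ⟨q0 + 16, fun q A _ _ S S' κ κ' χ α a1 a2 a3 a4 a5 a6 s s' d d' r r' => ?_⟩
  classical
  have := Fintype.ofFinite A
  have b1 := hq0 q _ (by omega) Nat.card_pos.ne' a3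
  have b2 := sum_cc a4
  have b3 : 0 < 2 ^ (Nat.card A).primeFactors.card := by positivity
  have q0 : q ≠ 0 := by omega
  have b4 := fun (w : A → ℝ) (W : ℝ) (h0 : 0 ≤ W) (hw : ∀ b, w b ≤ W) =>
    top_est d S' h0 hw (Nat.mul_pos (by omega : 0 < K) b3)
  rw [← a5] at b4
  have c1 : (100 : ℝ) * K ^ 3 * ((2 : ℝ) ^ (Nat.card A).primeFactors.card) ^ 2 ≤ q := by
    exact_mod_cast b1
  have c2 : (1 : ℝ) ≤ 2 ^ (Nat.card A).primeFactors.card := by exact_mod_cast b3
  push_cast at b4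
  generalize (2 : ℝ) ^ (Nat.card A).primeFactors.card = ρ at *
  have c3 : (64 : ℝ) ≤ K := by exact_mod_cast K1
  have c4 : (64 : ℝ) * C0 ≤ K := by exact_mod_cast K2
  have c5 : (2 : ℝ) * S.card ≤ 3 * q + 16 := by exact_mod_cast a6
  have c6 : (16 : ℝ) ≤ q := by exact_mod_cast (by omega : 16 ≤ q)
  obtain ⟨E, c7, c8, c9, c10⟩ : ∃ E : ℝ, 100 * K * E ≤ q ∧ (K * ρ) ^ 2 ≤ E ∧ 64 * ρ ≤ E ∧
      K * ((S.card + (K * ρ) ^ 2) / (K * ρ) * ρ) ≤ S.card + E := by
    refine ⟨(K * ρ) ^ 2, by linarith, le_rfl,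
      by nlinarith [mul_le_mul_of_nonneg_right c3 (by linarith : 0 ≤ ρ)], le_of_eq ?_⟩
    field_simp
  have c11 : 0 ≤ (S.card + (K * ρ) ^ 2) / (K * ρ) := by positivity
  generalize (S.card + (K * ρ) ^ 2) / (K * ρ) = L at *
  have c12 : 6400 * E ≤ q := by nlinarith
  have c13 : 64 * (L * ρ) ≤ S.card + E := by
    nlinarith [mul_nonneg c11 (by linarith : 0 ≤ ρ)]
  have ht : κ' - κ = 0 := by
    by_contra ht
    have e1 := ident2 q0 a4 s s' r r' a5 d d' (κ' - κ)
    have e2 : ∑ b, uu S S' b * (cc (b - (κ' - κ)) + cc (b + (κ' - κ))) =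
        ∑ b, uu S S' b * (cc b + cc (b - 2 • (κ' - κ))) := by
      rw [← (Equiv.subLeft (κ' - κ)).sum_comp]
      refine sum_congr rfl fun b _ => ?_
      rw [Equiv.subLeft_apply, uu_symm s s', ← cc_neg b, ← cc_neg (b - _)]
      congr 3 <;> abel
    generalize κ' - κ = t at *
    have e3 := cc_bound a2 ht
    have e4 := b4 _ _ (by linarith) (four_le a2 ht)
    have e5 : ∑ b, |cc b + cc (b - 2 • t) + (cc (b - t) + cc (b + t))| ≤ 4 * ρ := by
      refine (sum_le_sum fun b _ => (abs_add_le _ _).trans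
        (add_le_add (abs_add_le _ _) (abs_add_le _ _))).trans ?_
      have := abs_shift cc (-t)
      simp only [sub_neg_eq_add] at this
      simp only [sum_add_distrib, abs_shift cc, this]
      linarith
    have e6 := mul_le_mul_of_nonneg_left e5 c11
    simp only [mul_add (uu S S' _ : ℝ) (cc _ + cc _), sum_add_distrib, ← e2] at e4
    rw [sub_self, cc_zero, ← two_nsmul, cc_nsmul a2 t (by norm_num)] at e1
    have e7 : (1 + 3 * cc t) * (K * ρ) ^ 2 ≤ 2 * E := by nlinarith [sq_nonneg (K * ρ)]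
    have e8 : 15 / 16 * (2 * q - S.card) ≤ (1 - cc t) * (2 * q - S.card) :=
      mul_le_mul_of_nonneg_right (by linarith) (by linarith)
    nlinarith
  refine ⟨(sub_eq_zero.1 ht).symm, S \ S', ?_, fun x h1 h2 => by simpa [h1] using h2⟩
  have e1 := ident2 q0 a4 s s' r r' a5 d d' 0
  simp only [ht, sub_zero, add_zero, cc_zero] at e1
  have e2 := b4 (fun b => if b = 0 then 1 / 16 else cc b) (1 / 16) (by norm_num) fun b => by
    split_ifs with h
    exacts [le_rfl, (cc_bound a2 h).2]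
  have e3 : ∑ b : A, |if b = 0 then 1 / 16 else cc b| ≤ ρ :=
    (sum_le_sum fun b _ => by
      split_ifs with h
      · rw [h, cc_zero]; norm_num [abs_of_pos]
      · exact le_rfl).trans b2
  have e4 : ∑ b, uu S S' b * (cc b + cc b) = 15 / 8 * uu S S' 0 +
      2 * ∑ b, uu S S' b * if b = 0 then 1 / 16 else cc b := by
    rw [← add_sum_erase _ _ (mem_univ 0), ← add_sum_erase _ _ (mem_univ 0), cc_zero, if_pos rfl,
      mul_add 2, mul_sum, sum_congr rfl (g := fun b => 2 * (uu S S' b * if b = 0 then 1 / 16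
        else cc b)) fun b hb => by rw [if_neg (ne_of_mem_erase hb)]; ring]
    ring
  have e5 : ((S \ S').card : ℝ) + uu S S' 0 = S.card := by
    rw [← card_sdiff_add_card_inter S S', uu, inter_comm]
    simp [filter_mem_eq_inter]
  have e6 := mul_le_mul_of_nonneg_left e3 c11
  have e7 : ((S \ S').card : ℝ) ≤ 2 * (E + L * ρ) := by linarith
  have e8 : (K : ℝ) * (S \ S').card ≤ 64 * q := by
    nlinarith [mul_le_mul_of_nonneg_left e7 (by linarith : (0 : ℝ) ≤ K)]
  have e9 : (C0 : ℝ) * (S \ S').card ≤ q := by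
    nlinarith [mul_le_mul_of_nonneg_right c4 (Nat.cast_nonneg (S \ S').card)]
  exact_mod_cast e9

end Pool.Agent.P.MP_9344a7_nt
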