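import Pool.Agent.P.MP_6f117a_ag.Defs

/-! Curves over a finite field, their class groups, and the Hilbert class field curve. -/

namespace Pool.Agent.P.MP_9344a7_nt

open WithZero
open Pool.Agent.P.MP_6f117a_ag (Place)

section

variable (k E : Type) [Field k] [Field E] [Algebra k E]

/-- Divisors. -/
abbrev Div := Place k E →₀ ℤ

/-- Principal divisors. -/
def Prin : AddSubgroup (Div k E) where
  carrier := {D | ∃ z : E, z ≠ 0 ∧ ∀ P : Place k E, P.v z = exp (-D P)}
  zero_mem' := ⟨1, one_ne_zero, fun P => by simp⟩
  add_mem' := fun ⟨z, hz, h⟩ ⟨w, hw, h'⟩ => ⟨z * w, mul_ne_zero hz hw, fun P => by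
    rw [map_mul, h, h', ← exp_add, Finsupp.add_apply, neg_add]⟩
  neg_mem' := fun ⟨z, hz, h⟩ => ⟨z⁻¹, inv_ne_zero hz, fun P => by
    rw [map_inv₀, h, Finsupp.neg_apply, ← exp_neg]⟩

/-- The divisor class group. -/
abbrev Pic := Div k E ⧸ Prin k E

variable {k E}

/-- The degree of a divisor. -/
def degree (D : Div k E) : ℤ := D.sum fun _ n => n

/-- The dimension of the Riemann-Roch space of a divisor. -/
noncomputable def ell (D : Div k E) : ℕ :=
  Module.finrank k (Submodule.span k {z : E | ∀ P : Place k E, P.v z ≤ exp (D P)})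

/-- The class `x` has degree `n`. -/
def HasDeg (x : Pic k E) (n : ℤ) : Prop := ∃ D : Div k E, (D : Pic k E) = x ∧ degree D = n

/-- The class of a point. -/
noncomputable def cls (P : Place k E) : Pic k E := (Finsupp.single P 1 : Div k E)

variable (k E)

/-- The genus is `g`. -/
def Genus (g : ℤ) : Prop := IsGreatest (Set.range fun D : Div k E => degree D + 1 - ell D) g

end

variable (F E : Type) [Field F] [Fintype F] [Field E] [Algebra (AlgebraicClosure F) E]

/-- A curve over `F`, given by the function field `E` of its base change to the algebraic closure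
and the Frobenius automorphism `Φ` of `E`; the function field over `F` is the fixed field. -/
structure Curve where
  fg : (⊤ : IntermediateField (AlgebraicClosure F) E).FG
  tr : Algebra.trdeg (AlgebraicClosure F) E = 1
  Φ : E ≃+* E
  frob : ∀ c : AlgebraicClosure F,
    Φ (algebraMap _ E c) = algebraMap _ E (c ^ Fintype.card F)
  desc : Submodule.span (AlgebraicClosure F) {z | Φ z = z} = ⊤

namespace Curve

variable {F E} (C : Curve F E)

/-- The Frobenius map on geometric points. -/
noncomputable def fr : Equiv.Perm (Place (AlgebraicClosure F) E) where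
  toFun P := ⟨P.v.comap (C.Φ.symm : E →+* E), P.surj.comp C.Φ.symm.surjective, fun c => by
    obtain ⟨d, rfl⟩ := IsAlgClosed.exists_pow_nat_eq c (Fintype.card_pos (α := F))
    rw [← C.frob, Valuation.comap_apply, RingHom.coe_coe, C.Φ.symm_apply_apply]
    exact P.triv d⟩
  invFun P := ⟨P.v.comap (C.Φ : E →+* E), P.surj.comp C.Φ.surjective, fun c => by
    rw [Valuation.comap_apply, RingHom.coe_coe, C.frob]
    exact P.triv _⟩
  left_inv := fun ⟨v, _, _⟩ => (Place.mk.injEq ..).mpr
    (Valuation.ext fun z => congrArg v (C.Φ.symm_apply_apply z))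
  right_inv := fun ⟨v, _, _⟩ => (Place.mk.injEq ..).mpr
    (Valuation.ext fun z => congrArg v (C.Φ.apply_symm_apply z))

/-- The Frobenius map on divisor classes. -/
noncomputable def φ : Pic (AlgebraicClosure F) E →+ Pic (AlgebraicClosure F) E :=
  QuotientAddGroup.map _ _ (Finsupp.domCongr C.fr).toAddMonoidHom fun _ ⟨z, hz, h⟩ =>
    ⟨C.Φ z, (map_ne_zero C.Φ).2 hz, C.fr.surjective.forall.2 fun P => by
      rw [← C.Φ.symm_apply_apply z] at h
      exact (h P).trans (by simp)⟩

/-- The rational divisor classes. -/
noncomputable def PicF : AddSubgroup (Pic (AlgebraicClosure F) E) := C.φ.eqLocus (.id _)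

/-- The class number. -/
noncomputable def h : ℕ := Nat.card {x : C.PicF // HasDeg x.1 0}

/-- The number of points over the extension of degree `m`. -/
noncomputable def pts (m : ℕ) : ℕ := Nat.card {P // C.fr^[m] P = P}

/-- The number of points over the extension of degree `m` of the preimage of the curve, embedded
by `P ↦ [P] - e`, under the isogeny `1 - Φ` of the Jacobian. -/
noncomputable def ptsH (e : C.PicF) (m : ℕ) : ℕ :=
  Nat.card {x : Pic (AlgebraicClosure F) E // HasDeg x 0 ∧ C.φ^[m] x = x ∧ ∃ P, x - C.φ x = cls P - e.1}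

/-- The number of points over the extension of degree `m` whose norm is the class `x`. -/
noncomputable def ptsIn (m : ℕ) (x : C.PicF) : ℕ :=
  Nat.card {P // C.fr^[m] P = P ∧ ∑ i ∈ Finset.range m, cls (C.fr^[i] P) = x.1}

end Curve

end Pool.Agent.P.MP_9344a7_nt
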