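import Pool.Agent.P.MP_9344a7_nt.Rie

/-! The theorem of Riemann-Roch: existence of a canonical divisor. -/

namespace Pool.Agent.P.MP_9344a7_nt.R

open WithZero Module
open Pool.Agent.P.MP_6f117a_ag (Place FF)
open Pool.Agent.P.MP_ab3ecb_nt.Inv
open scoped Classical

set_option linter.unusedSectionVars false

variable {k E : Type} [Field k] [Field E] [Algebra k E]

lemma fin_step {M : Type} [AddCommGroup M] [Module k M] (B : Submodule k M) (φ : M →ₗ[k] k)
    [FiniteDimensional k (B ⊓ LinearMap.ker φ : Submodule k M)] :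
    FiniteDimensional k B ∧ finrank k B ≤ finrank k (B ⊓ LinearMap.ker φ : Submodule k M) + 1 := by
  have h1 : FiniteDimensional k B := Module.Finite.iff_fg.2
    (Submodule.fg_of_fg_map_of_fg_inf_ker φ (IsNoetherian.noetherian _)
      (Module.Finite.iff_fg.1 inferInstance))
  refine ⟨h1, ?_⟩
  have h2 := (φ.domRestrict B).finrank_range_add_finrank_ker
  have h3 : finrank k (LinearMap.range (φ.domRestrict B)) ≤ 1 :=
    (Submodule.finrank_le _).trans (finrank_self k).le
  have h4 : finrank k (LinearMap.ker (φ.domRestrict B)) =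
      finrank k (B ⊓ LinearMap.ker φ : Submodule k M) := by
    rw [LinearMap.ker_domRestrict, ← Submodule.finrank_map_subtype_eq, Submodule.map_comap_subtype]
  omega

/-- Functions bounded by `D` away from `O`. -/
def UU (O : Place k E) (D : Dv k E) : Submodule k E := ⨅ P : {P // P ≠ O}, P.1.le (D P)

lemma mem_UU {O : Place k E} {D : Dv k E} {z : E} :
    z ∈ UU O D ↔ ∀ P, P ≠ O → P.v z ≤ exp (D P) :=
  (Submodule.mem_iInf _).trans Subtype.forall

/-- Weil differentials bounded by `D`. -/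
noncomputable def Om (O : Place k E) (D : Dv k E) : Submodule k (Dual k E) :=
  (UU O D ⊔ O.le (D O)).dualAnnihilator

lemma mem_Om {O : Place k E} {D : Dv k E} {ω : Dual k E} :
    ω ∈ Om O D ↔ (∀ z ∈ UU O D, ω z = 0) ∧ ∀ z, O.v z ≤ exp (D O) → ω z = 0 := by
  rw [Om, Submodule.dualAnnihilator_sup_eq, Submodule.mem_inf, Submodule.mem_dualAnnihilator,
    Submodule.mem_dualAnnihilator]
  rfl

lemma Om_anti {O : Place k E} {D D' : Dv k E} (h : D ≤ D') : Om O D' ≤ Om O D := fun _ hω =>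
  mem_Om.2 ⟨fun z hz => (mem_Om.1 hω).1 z (mem_UU.2 fun P hP =>
    (mem_UU.1 hz P hP).trans (exp_le_exp.2 (h P))),
    fun z hz => (mem_Om.1 hω).2 z (hz.trans (exp_le_exp.2 (h O)))⟩

lemma LS_le_UU (O : Place k E) (D : Dv k E) (n : ℤ) : LS (D + Finsupp.single O n) ≤ UU O D :=
  fun z hz => mem_UU.2 fun P hP => by simpa [Finsupp.single_eq_of_ne hP] using mem_LS.1 hz P

lemma UU_ev (O : Place k E) (D : Dv k E) {z : E} (hz : z ∈ UU O D) :
    ∃ n0 : ℤ, ∀ n ≥ n0, z ∈ LS (D + Finsupp.single O n) := by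
  refine ⟨log (O.v z) - D O, fun n hn => mem_LS.2 fun P => ?_⟩
  by_cases h : P = O
  · subst h
    refine le_exp_log.trans (exp_le_exp.2 ?_)
    simp only [Finsupp.add_apply, Finsupp.single_eq_same]
    omega
  · simpa [Finsupp.single_eq_of_ne h] using mem_UU.1 hz P h

variable [IsAlgClosed k] [FF k E] {g : ℕ} {O : Place k E}

lemma peel (O : Place k E) {x y : E} {n : ℤ} (hx : O.v x = exp (n + 1))
    (hy : O.v y ≤ exp (n + 1)) : ∃ c : k, O.v (y - c • x) ≤ exp n := by
  have x0 : x ≠ 0 := by rintro rfl; exact exp_ne_zero (hx.symm.trans O.v.map_zero)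
  obtain ⟨c, hc⟩ := PL.res O (x := y / x) (by rw [map_div₀, hx, div_le_one₀ exp_pos]; exact hy)
  refine ⟨c, ?_⟩
  rw [show y - c • x = (y / x - algebraMap k E c) * x by rw [Algebra.smul_def]; field_simp,
    ← lt_mul_exp_iff_le exp_ne_zero, ← exp_add, map_mul, hx]
  exact mul_lt_of_lt_one_left exp_pos hc

lemma exact_of_not {x : E} {n : ℤ} (h1 : O.v x ≤ exp (n + 1)) (h2 : ¬ O.v x ≤ exp n) :
    O.v x = exp (n + 1) := by
  have h3 := not_le.1 h2
  have v0 : O.v x ≠ 0 := (exp_pos.trans h3).ne'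
  refine le_antisymm h1 ?_
  rw [← exp_log v0, exp_lt_exp] at h3
  rw [← exp_log v0, exp_le_exp]
  omega

lemma Om_step (D : Dv k E) {x : E} (hx : O.v x = exp (D O + 1)) :
    Om O (D + Finsupp.single O 1) = Om O D ⊓ LinearMap.ker (Dual.eval k E x) := by
  ext ω
  have e : UU O (D + Finsupp.single O 1) = UU O D := by
    ext z
    simp only [mem_UU]
    exact forall₂_congr fun P hP => by simp [Finsupp.single_eq_of_ne hP]
  rw [Submodule.mem_inf, mem_Om, mem_Om, e, LinearMap.mem_ker, Dual.eval_apply, Finsupp.add_apply,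
    Finsupp.single_eq_same]
  refine ⟨fun h => ⟨⟨h.1, fun z hz => h.2 z (hz.trans (exp_le_exp.2 (by omega)))⟩, h.2 x hx.le⟩,
    fun h => ⟨h.1.1, fun z hz => ?_⟩⟩
  obtain ⟨c, hc⟩ := peel O hx hz
  have := h.1.2 _ hc
  rwa [map_sub, map_smul, h.2, smul_zero, sub_zero] at this

lemma jump {D : Dv k E} (h : finrank k (LS (D + Finsupp.single O 1)) ≠ finrank k (LS D)) :
    Om O (D + Finsupp.single O 1) = Om O D := by
  obtain ⟨x, h1, h2⟩ := SetLike.not_le_iff_exists.1
    fun e : LS (D + Finsupp.single O 1) ≤ LS D => h (by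
      rw [le_antisymm e (LS_mono (le_add_of_nonneg_right (Finsupp.single_nonneg.2 zero_le_one)))])
  have h3 := LS_le_UU O D 1 h1
  have h4 : O.v x = exp (D O + 1) := exact_of_not (by simpa using mem_LS.1 h1 O) fun h5 =>
    h2 (mem_LS.2 fun P => by
      by_cases e : P = O
      · exact e ▸ h5
      · exact mem_UU.1 h3 P e)
  rw [Om_step D h4, inf_eq_left]
  exact fun ω hω => (mem_Om.1 hω).1 x h3

lemma nojump {D : Dv k E} (h : finrank k (LS (D + Finsupp.single O 1)) = finrank k (LS D))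
    [FiniteDimensional k (Om O (D + Finsupp.single O 1))] : FiniteDimensional k (Om O D) ∧
      finrank k (Om O D) = finrank k (Om O (D + Finsupp.single O 1)) + 1 := by
  obtain ⟨x, hx⟩ := O.surj (exp (D O + 1))
  have e := Om_step D hx
  have := rr_fd (D + Finsupp.single O 1)
  have h0 := Submodule.eq_of_le_of_finrank_eq
    (LS_mono (le_add_of_nonneg_right (Finsupp.single_nonneg.2 zero_le_one))) h.symm
  have h1 : x ∉ UU O D ⊔ O.le (D O) := fun h1 => by
    obtain ⟨u, hu, m, hm, rfl⟩ := Submodule.mem_sup.1 h1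
    have hm : O.v m < exp (D O + 1) := lt_of_le_of_lt hm (exp_lt_exp.2 (by omega))
    have h2 : O.v u = exp (D O + 1) := by
      rw [show u = u + m - m by abel, O.v.map_sub_eq_of_lt_left (hx ▸ hm), hx]
    have h3 : u ∈ LS D := h0 ▸ mem_LS.2 fun P => by
      by_cases e : P = O
      · simp [e, h2]
      · simpa [Finsupp.single_eq_of_ne e] using mem_UU.1 hu P e
    have h4 := mem_LS.1 h3 O
    rw [h2, exp_le_exp] at h4
    omega
  obtain ⟨ω, w1, w2⟩ := Submodule.exists_dual_map_eq_bot_of_notMem h1 inferInstance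
  have w3 : ω ∈ Om O D := Submodule.mem_dualAnnihilator _ |>.2 fun z hz => by
    have : ω z ∈ Submodule.map ω _ := Submodule.mem_map_of_mem hz
    rwa [w2] at this
  have : FiniteDimensional k (Om O D ⊓ LinearMap.ker (Dual.eval k E x) : Submodule k _) :=
    e ▸ inferInstance
  obtain ⟨f1, f2⟩ := fin_step (Om O D) (Dual.eval k E x)
  refine ⟨f1, le_antisymm (e ▸ f2) (Submodule.finrank_lt_finrank_of_lt ?_)⟩
  rw [e]
  exact inf_lt_left.2 fun h => w1 (h w3)

lemma RR.Om_bot (R : RR k E g) {D : Dv k E} (h : (finrank k (LS D) : ℤ) = deg D + 1 - g) :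
    Om O D = ⊥ := by
  have key : ∀ n : ℕ, Om O (D + Finsupp.single O (n : ℤ)) = Om O D ∧
      (finrank k (LS (D + Finsupp.single O (n : ℤ))) : ℤ) = deg D + n + 1 - g := fun n => by
    induction n with
    | zero => rw [Nat.cast_zero, Finsupp.single_zero, add_zero, add_zero]; exact ⟨rfl, h⟩
    | succ n ih =>
      have h1 := R.rie (D + Finsupp.single O (n : ℤ) + Finsupp.single O 1)
      have h2 := R.step (D + Finsupp.single O (n : ℤ)) O
      rw [map_add, map_add, deg_single, deg_single] at h1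
      rw [Nat.cast_succ, Finsupp.single_add, ← add_assoc, jump (by omega)]
      exact ⟨ih.1, by omega⟩
  refine (Submodule.eq_bot_iff _).2 fun ω hω => LinearMap.ext fun z => ?_
  refine (mem_Om.1 ((key (log (O.v z) - D O).toNat).1 ▸ hω)).2 z
    (le_exp_log.trans (exp_le_exp.2 ?_))
  simp only [Finsupp.add_apply, Finsupp.single_eq_same]
  omega

lemma RR.Om_rank (R : RR k E g) (O : Place k E) (D : Dv k E) : FiniteDimensional k (Om O D) ∧
    (finrank k (Om O D) : ℤ) = finrank k (LS D) - (deg D + 1 - g) := by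
  obtain ⟨c, hc⟩ := R.big
  have key : ∀ (n : ℕ) (D : Dv k E), c ≤ deg D + n → FiniteDimensional k (Om O D) ∧
      (finrank k (Om O D) : ℤ) = finrank k (LS D) - (deg D + 1 - g) := fun n => by
    induction n with
    | zero =>
      intro D hD
      have := hc D (by simpa using hD)
      rw [R.Om_bot this, finrank_bot]
      exact ⟨inferInstance, by omega⟩
    | succ n ih =>
      intro D hD
      obtain ⟨h1, h2⟩ := ih (D + Finsupp.single O 1) (by rw [map_add, deg_single]; omega)
      rw [map_add, deg_single] at h2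
      by_cases h : finrank k (LS (D + Finsupp.single O 1)) = finrank k (LS D)
      · obtain ⟨h3, h4⟩ := nojump h
        exact ⟨h3, by omega⟩
      · have h3 := R.step D O
        have := rr_fd (D + Finsupp.single O 1)
        have h4 := Submodule.finrank_mono (LS_mono (le_add_of_nonneg_right
          (Finsupp.single_nonneg.2 zero_le_one) : D ≤ D + Finsupp.single O 1))
        rw [jump h] at h1 h2
        exact ⟨h1, by omega⟩
  exact key (c - deg D).toNat D (by omega)

/-- Multiplication of a differential by a function. -/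
noncomputable def act (ω : Dual k E) : E →ₗ[k] Dual k E :=
  (LinearMap.mul k E).compr₂ ω

lemma act_apply (ω : Dual k E) (f z : E) : act ω f z = ω (f * z) := rfl

lemma act_mem {ω : Dual k E} {D : Dv k E} (h : ω ∈ Om O D) {f : E} (hf : f ≠ 0) :
    act ω f ∈ Om O (D + dv k f) := by
  have key : ∀ (P : Place k E) z, P.v z ≤ exp ((D + dv k f) P) → P.v (f * z) ≤ exp (D P) :=
    fun P z hz => by
      rw [map_mul, v_eq P hf]
      refine (mul_le_mul_right hz _).trans_eq ?_
      rw [← exp_add, Finsupp.add_apply, dv_apply]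
      congr 1
      ring
  exact mem_Om.2 ⟨fun z hz => (mem_Om.1 h).1 _ (mem_UU.2 fun P hP => key P z (mem_UU.1 hz P hP)),
    fun z hz => (mem_Om.1 h).2 _ (key O z hz)⟩

lemma act_mem' {ω : Dual k E} {D B : Dv k E} (h : ω ∈ Om O D) {f : E} (hf : f ∈ LS B) :
    act ω f ∈ Om O (D - B) := by
  rcases eq_or_ne f 0 with rfl | h0
  · simp
  · refine Om_anti ?_ (act_mem h h0)
    rw [sub_eq_add_neg]
    exact add_le_add_right (neg_le_iff_add_nonneg'.2 (add_comm B _ ▸ (mem_LS' h0).1 hf)) D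

lemma act_ne {ω : Dual k E} (h : ω ≠ 0) {f : E} (hf : f ≠ 0) : act ω f ≠ 0 := fun e =>
  h (LinearMap.ext fun z => by
    have := LinearMap.congr_fun e (f⁻¹ * z)
    rwa [act_apply, mul_inv_cancel_left₀ hf] at this)

lemma RR.one_dim (R : RR k E g) {ω ω' : Dual k E} {D : Dv k E} (h : ω ∈ Om O D)
    (h' : ω' ∈ Om O D) (h0 : ω ≠ 0) : ∃ f, ω' = act ω f := by
  obtain ⟨n, hn⟩ : ∃ n : ℤ, deg D < n ∧ 3 * g - deg D < n := ⟨_, lt_add_one _ |>.trans_le' (le_max_left _ _),
    lt_add_one _ |>.trans_le' (le_max_right _ _)⟩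
  set B : Dv k E := Finsupp.single O n
  have := rr_fd B
  obtain ⟨f1, f2⟩ := R.Om_rank O (D - B)
  let T : (LS B × LS B) →ₗ[k] Om O (D - B) := LinearMap.codRestrict _
    ((act ω ∘ₗ (LS B).subtype).coprod (act ω' ∘ₗ (LS B).subtype)) fun p =>
      add_mem (act_mem' h p.1.2) (act_mem' h' p.2.2)
  have h1 := R.rie B
  have hB : deg B = n := deg_single O n
  rw [LS_eq_bot (by rw [map_sub]; omega), finrank_bot, map_sub] at f2
  obtain ⟨⟨a, b⟩, h2, h3⟩ := Submodule.exists_mem_ne_zero_of_ne_bot (p := LinearMap.ker T)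
    fun e => by
      have := LinearMap.finrank_le_finrank_of_injective (f := T)
        ((injective_iff_map_eq_zero T).2 fun p hp => (Submodule.eq_bot_iff _).1 e p hp)
      rw [finrank_prod] at this
      omega
  have h4 : act ω a + act ω' b = 0 := congrArg Subtype.val h2
  have b0 : (b : E) ≠ 0 := fun e => by
    rw [e, map_zero, add_zero] at h4
    exact act_ne h0 (fun e' => h3 (Prod.ext (Subtype.ext e') (Subtype.ext e))) h4
  refine ⟨-(a * (b : E)⁻¹), LinearMap.ext fun z => ?_⟩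
  have := LinearMap.congr_fun h4 ((b : E)⁻¹ * z)
  rw [LinearMap.add_apply, act_apply, act_apply, mul_inv_cancel_left₀ b0] at this
  rw [act_apply, neg_mul, map_neg, mul_assoc]
  exact eq_neg_of_add_eq_zero_right this

lemma LS_inf (A B : Dv k E) : LS A ⊓ LS B = LS (A ⊓ B) := by
  ext z
  simp only [Submodule.mem_inf, mem_LS, Finsupp.inf_apply, ← forall_and]
  refine forall_congr' fun P => ?_
  rcases le_total (A P) (B P) with h | h
  · rw [inf_eq_left.2 h]; exact ⟨fun h => h.1, fun h' => ⟨h', h'.trans (exp_le_exp.2 h)⟩⟩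
  · rw [inf_eq_right.2 h]; exact ⟨fun h => h.2, fun h' => ⟨h'.trans (exp_le_exp.2 h), h'⟩⟩

lemma RR.Om_sup (R : RR k E g) {ω : Dual k E} {A B : Dv k E} (h : ω ∈ Om O A) (h' : ω ∈ Om O B) :
    ω ∈ Om O (A ⊔ B) := by
  refine mem_Om.2 ⟨fun z hz => ?_, fun z hz => ?_⟩
  · obtain ⟨c, hc⟩ := R.big
    obtain ⟨n0, h0⟩ := UU_ev O _ hz
    set n := max n0 (c - deg (A ⊓ B))
    set N : Dv k E := Finsupp.single O n
    have hN : deg N = n := deg_single O n
    have d1 := deg_mono (inf_le_left : A ⊓ B ≤ A)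
    have d2 := deg_mono (inf_le_right : A ⊓ B ≤ B)
    have d3 := congrArg deg (inf_add_sup A B)
    have e1 := hc (A + N) (by rw [map_add]; omega)
    have e2 := hc (B + N) (by rw [map_add]; omega)
    have e3 := hc (A ⊓ B + N) (by rw [map_add]; omega)
    have e4 := hc (A ⊔ B + N) (by rw [map_add] at d3 d3 ⊢; omega)
    have := rr_fd (A + N)
    have := rr_fd (B + N)
    have := rr_fd (A ⊔ B + N)
    have e5 := Submodule.finrank_sup_add_finrank_inf_eq (LS (A + N)) (LS (B + N))
    rw [LS_inf, ← inf_add] at e5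
    simp only [map_add] at e1 e2 e3 e4 d3
    have e6 : LS (A + N) ⊔ LS (B + N) = LS (A ⊔ B + N) := Submodule.eq_of_le_of_finrank_eq
      (sup_le (LS_mono (add_le_add_left le_sup_left N)) (LS_mono (add_le_add_left le_sup_right N)))
      (by omega)
    obtain ⟨u, hu, w, hw, rfl⟩ := Submodule.mem_sup.1 (e6 ▸ h0 n (le_max_left _ _))
    rw [map_add, (mem_Om.1 h).1 u (LS_le_UU O A n hu), (mem_Om.1 h').1 w (LS_le_UU O B n hw),
      add_zero]
  · rw [Finsupp.sup_apply] at hz
    rcases le_total (A O) (B O) with e | e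
    · exact (mem_Om.1 h').2 z (by rwa [sup_eq_right.2 e] at hz)
    · exact (mem_Om.1 h).2 z (by rwa [sup_eq_left.2 e] at hz)

theorem RR.canonical (R : RR k E g) (O : Place k E) : ∃ W : Dv k E, ∀ D : Dv k E,
    (finrank k (LS D) : ℤ) = deg D + 1 - g + finrank k (LS (W - D)) := by
  obtain ⟨c, hc⟩ := R.big
  have sp : ∀ D : Dv k E, Om O D ≠ ⊥ → deg D < c := fun D h => by_contra fun h1 =>
    h (R.Om_bot (hc D (by omega)))
  obtain ⟨w, ⟨W, rfl, hW⟩, hw⟩ := Int.exists_greatest_of_bdd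
    (P := fun s => ∃ D : Dv k E, deg D = s ∧ Om O D ≠ ⊥)
    ⟨c, fun _ ⟨D, e, h⟩ => e ▸ (sp D h).le⟩ ⟨_, Finsupp.single O (-2), rfl, fun e => by
      have := (R.Om_rank O (Finsupp.single O (-2))).2
      rw [e, finrank_bot, deg_single] at this
      omega⟩
  obtain ⟨ω, h1, h0⟩ := Submodule.exists_mem_ne_zero_of_ne_bot hW
  refine ⟨W, fun D => ?_⟩
  let T : LS (W - D) →ₗ[k] Om O D := LinearMap.codRestrict _ (act ω ∘ₗ (LS (W - D)).subtype)
    fun f => by simpa using act_mem' h1 f.2
  have hT : Function.Bijective T := by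
    refine ⟨(injective_iff_map_eq_zero T).2 fun f e => by_contra fun hf =>
      act_ne h0 (fun e' => hf (Subtype.ext e')) (congrArg Subtype.val e), fun ⟨ω', h2⟩ => ?_⟩
    obtain ⟨f, rfl⟩ := R.one_dim (Om_anti inf_le_left h1) (Om_anti inf_le_right h2) h0
    rcases eq_or_ne f 0 with rfl | hf
    · exact ⟨0, Subtype.ext (by simp [T])⟩
    have h3 := hw _ ⟨_, rfl, fun e => act_ne h0 hf
      ((Submodule.eq_bot_iff _).1 e _ (R.Om_sup (act_mem h1 hf) h2))⟩
    have h4 := eq_zero_of_deg (sub_nonneg.2 (le_sup_left : W + dv k f ≤ (W + dv k f) ⊔ D))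
      (le_antisymm (by simp only [map_sub, map_add, deg_dv]; omega)
        (deg_nonneg (sub_nonneg.2 le_sup_left)))
    refine ⟨⟨f, (mem_LS' hf).2 ?_⟩, rfl⟩
    rw [← add_sub_assoc, add_comm, sub_nonneg]
    exact sup_eq_left.1 (sub_eq_zero.1 h4)
  have := (LinearEquiv.ofBijective T hT).finrank_eq
  have := (R.Om_rank O D).2
  omega

end Pool.Agent.P.MP_9344a7_nt.R
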