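import Pool.Agent.P.MP_9344a7_nt.Defs

/-! The clauses of the statement on two curves. -/

namespace Pool.Agent.P.MP_9344a7_nt.Curve

variable {F E E' : Type} [Field F] [Fintype F] [Field E] [Algebra (AlgebraicClosure F) E]
  [Field E'] [Algebra (AlgebraicClosure F) E'] (C : Curve F E) (D : Curve F E')

/-- The rational classes of degree zero are the multiples of one class. -/
def CyclicJ : Prop :=
  ∃ g : Pic (AlgebraicClosure F) E, ∀ x, (C.φ x = x ∧ HasDeg x 0) ↔ ∃ n : ℤ, x = n • g

/-- For some rational classes of degree one the Hilbert class field curves have the same numbers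
of points over all finite extensions. -/
def SameH : Prop := ∃ (e : C.PicF) (e' : D.PicF), HasDeg e.1 1 ∧ HasDeg e'.1 1 ∧
  ∀ m, 0 < m → C.ptsH e m = D.ptsH e' m

/-- The first curve is isomorphic to a conjugate of the second. -/
def Conj : Prop := ∃ (i : E ≃+* E') (s : AlgebraicClosure F ≃+* AlgebraicClosure F),
  (∀ c, i (algebraMap _ E c) = algebraMap _ E' (s c)) ∧ ∀ z, i (C.Φ z) = D.Φ (i z)

end Pool.Agent.P.MP_9344a7_nt.Curve
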