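import Mathlib

/-! The additive statements behind part A. -/

namespace Pool.Agent.P.MP_9344a7_nt

section

variable {A : Type} [AddCommGroup A]

/-- Every non-zero element is a difference in at most two ways. -/
def Sid (S : Finset A) : Prop := ∀ d, d ≠ 0 → ∀ T ⊆ S, (∀ s ∈ T, s + d ∈ S) → T.card ≤ 2

/-- `α` is an inverse root of `1 + χ(S) T + q χ(κ) T ^ 2`. -/
def Rt (q : ℕ) (χ : AddChar A ℂ) (S : Finset A) (κ : A) (α : ℂ) : Prop :=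
  α ^ 2 + (∑ s ∈ S, χ s) * α + q * χ κ = 0

end

/-- A common root under one faithful character. -/
def S_CORE : Prop := ∀ C0 : ℕ, ∃ q0 : ℕ, ∀ (q : ℕ) (A : Type) [AddCommGroup A] [Finite A]
  (S S' : Finset A) (κ κ' : A) (χ : AddChar A ℂ) (α : ℂ), q0 ≤ q → (Nat.card A).Coprime 6 →
  Nat.card A ≤ q ^ 3 → Function.Injective χ → S.card = S'.card → 2 * S.card ≤ 3 * q + 16 →
  (∀ s ∈ S, κ - s ∈ S) → (∀ s ∈ S', κ' - s ∈ S') → Sid S → Sid S' →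
  Rt q χ S κ α → Rt q χ S' κ' α →
  κ = κ' ∧ ∃ B : Finset A, C0 * B.card ≤ q ∧ ∀ s ∈ S, s ∉ B → s ∈ S'

/-- Matching of all roots, the first group being cyclic. -/
def S_RED : Prop := ∀ C0 : ℕ, ∃ q0 : ℕ, ∀ (q : ℕ) (A A' : Type) [AddCommGroup A] [Finite A]
  [AddCommGroup A'] [Finite A'] (S : Finset A) (S' : Finset A') (κ : A) (κ' : A'), q0 ≤ q →
  IsAddCyclic A → (Nat.card A).Coprime 6 → Nat.card A = Nat.card A' →
  2 * Nat.card A ≤ S.card ^ 2 + 2 * q ^ 2 + 2 → S.card = S'.card → 3 * q ≤ 4 * S.card →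
  2 * S.card ≤ 3 * q + 16 → (∀ s ∈ S, κ - s ∈ S) → (∀ s ∈ S', κ' - s ∈ S') → Sid S → Sid S' →
  (∀ (χ : AddChar A ℂ) (α : ℂ), χ ≠ 0 → Rt q χ S κ α →
    ∃ χ' : AddChar A' ℂ, χ' ≠ 0 ∧ Rt q χ' S' κ' α) →
  ∃ θ : A ≃+ A', θ κ = κ' ∧ ∃ B : Finset A, C0 * B.card ≤ q ∧ ∀ s ∈ S, s ∉ B → θ s ∈ S'

end Pool.Agent.P.MP_9344a7_nt
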