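import Pool.Agent.P.MP_9344a7_nt.Lf
import Pool.Agent.P.MP_9344a7_nt.IfA

/-! Characters of the class group and the points of the Hilbert class field curve. -/

namespace Pool.Agent.P.MP_9344a7_nt.R

open Finset
open Pool.Agent.P.MP_6f117a_ag (Place FF)
open Pool.Agent.P.MP_ab3ecb_nt.Inv
open scoped Classical

set_option linter.unusedSectionVars false

variable {k E : Type} [Field k] [Field E] [Algebra k E] [IsAlgClosed k] [FF k E]

/-- The invariant classes of degree zero. -/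
noncomputable def J (σ : SA k E) : AddSubgroup (Pic k E) := (ph σ).eqLocus (.id _) ⊓ dg.ker

variable {σ : SA k E} {Q m n : ℕ} {x y e K : Pic k E}

lemma mem_J : x ∈ J σ ↔ ph σ x = x ∧ dg x = 0 := Iff.rfl

lemma sub_mem_J (e1 : ph σ e = e) (e2 : dg e = 1) (hx : ph σ x = x) : x - dg x • e ∈ J σ :=
  mem_J.2 ⟨by rw [map_sub, map_zsmul, hx, e1], by simp [e2]⟩

/-- The extension of a character that is trivial on `e`. -/
noncomputable def ext (e : Pic k E) (χ : AddChar (J σ) ℂ) (x : Pic k E) : ℂ :=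
  if h : x - dg x • e ∈ J σ then χ ⟨_, h⟩ else 0

lemma ext_eq (e2 : dg e = 1) (χ : AddChar (J σ) ℂ) (a : J σ) (n : ℤ) (h : x = a + n • e) :
    ext e χ x = χ a := by
  have : x - dg x • e = a := by simp [h, e2, (mem_J.1 a.2).2]
  rw [ext, dif_pos (by rw [this]; exact a.2)]
  exact congrArg χ (Subtype.ext this)

lemma ext_add (e1 : ph σ e = e) (e2 : dg e = 1) (χ : AddChar (J σ) ℂ) (x y : Pic k E)
    (hx : ph σ x = x) (hy : ph σ y = y) : ext e χ (x + y) = ext e χ x * ext e χ y := by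
  rw [ext_eq e2 χ ⟨_, sub_mem_J e1 e2 hx⟩ (dg x) (sub_add_cancel _ _).symm,
    ext_eq e2 χ ⟨_, sub_mem_J e1 e2 hy⟩ (dg y) (sub_add_cancel _ _).symm, ← χ.map_add_eq_mul]
  exact ext_eq e2 χ _ (dg x + dg y) (by simp only [AddSubgroup.coe_add, add_zsmul]; abel)

/-- The image of the rational points. -/
noncomputable def SS (σ : SA k E) (e : Pic k E) : Finset (J σ) :=
  fs {a | ∃ P, σ.pl P = P ∧ a.1 = cls P - e}

/-- The sum of a character over the points of level `m`. -/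
noncomputable def sm (e : Pic k E) (χ : AddChar (J σ) ℂ) (m : ℕ) : ℂ :=
  ∑ P ∈ fx σ m, ext e χ (nm (ph σ) m (cls P))

namespace Fr

variable (h : Fr σ Q) (g : G2 K)
include h g

lemma card_J : Finite (J σ) ∧ Nat.card (J σ) = #(cl σ 2) := by
  have e : J σ ≃ cl σ (2 : ℕ) := (Equiv.addRight K).subtypeEquiv fun x => by
    rw [h.mem_cl g le_rfl]
    simp [mem_J, g.ph_K, g.dg_K]
  exact ⟨.of_equiv _ e.symm, (Nat.card_congr e).trans (Nat.card_eq_finsetCard _)⟩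

lemma mem_SS {a : J σ} : a ∈ SS σ e ↔ ∃ P, σ.pl P = P ∧ a.1 = cls P - e :=
  have := (h.card_J g).1
  mem_fs (Set.toFinite _)

lemma sym_SS {κ : J σ} (hκ : κ.1 = K - 2 • e) : ∀ s ∈ SS σ e, κ - s ∈ SS σ e := fun s hs => by
  obtain ⟨P, h1, h2⟩ := (h.mem_SS g).1 hs
  obtain ⟨P', h3, h4⟩ := g.conj_fix h1
  exact (h.mem_SS g).2 ⟨P', h3, by rw [AddSubgroup.coe_sub, hκ, h2, h4]; abel⟩

lemma sid_SS : Sid (SS σ e) := fun d hd T h1 h2 => not_lt.1 fun h3 => by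
  obtain ⟨a, ha, b, hb, c, hc, ab, ac, bc⟩ := two_lt_card.1 h3
  have key : ∀ s ∈ T, ∃ P P', s.1 = cls P - e ∧ s.1 + d.1 = cls P' - e := fun s hs => by
    obtain ⟨P, -, e1⟩ := (h.mem_SS g).1 (h1 hs)
    obtain ⟨P', -, e2⟩ := (h.mem_SS g).1 (h2 s hs)
    exact ⟨P, P', e1, e2⟩
  obtain ⟨P, P', e1, e2⟩ := key a ha
  have k2 : ∀ s ∈ T, a ≠ s → s.1 = K - cls P - e - d.1 := fun s hs as => by
    obtain ⟨R, R', e3, e4⟩ := key s hs
    rcases g.sid (P := P) (Q' := R') (P' := R) (Q := P') (by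
      rw [sub_eq_iff_eq_add.1 e1.symm, sub_eq_iff_eq_add.1 e2.symm,
        sub_eq_iff_eq_add.1 e3.symm, sub_eq_iff_eq_add.1 e4.symm]; abel) with e5 | e5 | e5
    · exact (as (Subtype.ext (by rw [e1, e3, e5]))).elim
    · exact (hd (Subtype.ext (by simpa [← e5, ← e1] using e2))).elim
    · rw [← e5, add_sub_cancel_left, ← e4, add_sub_cancel_right]
  exact bc (Subtype.ext ((k2 b hb ab).trans (k2 c hc ac).symm))

variable (e1 : ph σ e = e) (e2 : dg e = 1)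
include e1 e2

lemma sum_SS {M : Type} [AddCommMonoid M] (f : Pic k E → M) :
    ∑ s ∈ SS σ e, f (s + e) = ∑ P ∈ fx σ 1, f (cls P) := by
  have m := fun P => h.mem_fx g one_ne_zero (P := P)
  symm
  refine sum_bij (fun P hP => ⟨cls P - e, mem_J.2 ⟨by
    rw [map_sub, e1, g.fix_iff.2 ((m P).1 hP)], by simp [e2]⟩⟩)
    (fun P hP => (h.mem_SS g).2 ⟨P, (m P).1 hP, rfl⟩)
    (fun P _ P' _ e => g.cls_inj (sub_left_injective (congrArg Subtype.val e))) (fun s hs => ?_)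
    fun P _ => by simp
  obtain ⟨P, h1, h2⟩ := (h.mem_SS g).1 hs
  exact ⟨P, (m P).2 h1, Subtype.ext h2.symm⟩

lemma card_SS : #(SS σ e) = #(fx σ 1) := by simpa using h.sum_SS g e1 e2 fun _ => (1 : ℕ)

lemma sm_eq {κ : J σ} (hκ : κ.1 = K - 2 • e) {χ : AddChar (J σ) ℂ} (h0 : χ ≠ 0) {α β : ℂ}
    (h1 : α + β = -∑ s ∈ SS σ e, χ s) (h2 : α * β = Q * χ κ) (hm : m ≠ 0) :
    sm e χ m = -(α ^ m + β ^ m) := by
  obtain ⟨a, ha⟩ := AddChar.ne_zero_iff.1 h0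
  refine h.lchi g (ext e χ) ((ext_eq e2 χ 0 0 (by simp)).trans χ.map_zero_eq_one)
    (ext_add e1 e2 χ) (mem_J.1 a.2).1 (mem_J.1 a.2).2 (by rwa [ext_eq e2 χ a 0 (by simp)]) ?_ ?_ hm
  · rw [h1, ← h.sum_SS g e1 e2, sum_congr rfl fun s _ => ext_eq e2 χ s 1 (by simp)]
  · rw [h2, ext_eq e2 χ κ 2 (by rw [hκ, two_nsmul, two_zsmul, sub_add_cancel])]

omit h g e1 e2 in
lemma exists_roots (a b : ℂ) : ∃ α β, α + β = a ∧ α * β = b := by
  obtain ⟨r, hr⟩ := IsAlgClosed.exists_eq_mul_self (a ^ 2 - 4 * b)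
  exact ⟨(a + r) / 2, (a - r) / 2, by ring, by linear_combination hr / 4⟩

lemma onto {τ : SA k E} (hm : m ≠ 0) (t1 : Fr τ (Q ^ m)) (t2 : ∀ P, τ.pl P = σ.pl^[m] P)
    (t3 : ∀ x, ph τ x = (ph σ)^[m] x) : (J τ).map (nm (ph σ) m) = J σ := by
  have := (h.card_J g).1
  have n1 : ∀ x ∈ J τ, nm (ph σ) m x ∈ J σ := fun x hx =>
    mem_J.2 ⟨nm_fix ((t3 x).symm.trans hx.1), by rw [dg_nm, (mem_J.1 hx).2, mul_zero]⟩
  refine le_antisymm (by rintro _ ⟨x, hx, rfl⟩; exact n1 x hx) fun a ha => by_contra fun h1 => ?_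
  let H := ((J τ).map (nm (ph σ) m)).addSubgroupOf (J σ)
  obtain ⟨χ0, h2⟩ := (AddChar.exists_apply_ne_zero (a := ((⟨a, ha⟩ : J σ) : J σ ⧸ H))).2
    fun e => h1 ((QuotientAddGroup.eq_zero_iff (N := H) _).1 e)
  let χ := χ0.compAddMonoidHom (QuotientAddGroup.mk' H)
  let κ : J σ := ⟨K - 2 • e, mem_J.2 ⟨by rw [map_sub, map_nsmul, e1, g.ph_K], by
    simp [g.dg_K, e2]⟩⟩
  obtain ⟨α, β, h3, h4⟩ := exists_roots (-∑ s ∈ SS σ e, χ s) (Q * χ κ)
  have e3 : ph τ e = e := (t3 e).trans (Function.iterate_fixed e1 m)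
  have h5 := (t1.newt1 g).W_eq (newt_qd (α ^ m) (β ^ m)) (by simp [t1.ef_zero g, qd])
    (fun n hn => ?_) 3
  · obtain ⟨A, hA, -⟩ := t1.exists_ef g (x := 3 • e) (n := 3) (by rw [map_nsmul, e3])
      (by simp [e2]) (by omega)
    exact card_ne_zero_of_mem hA (Nat.cast_eq_zero.1 h5)
  have e4 : fx σ (m * n) = fx τ n := by
    rw [fx, fx, funext t2, Function.iterate_mul]
  rw [← pow_mul, ← pow_mul, ← h.sm_eq g e1 e2 (κ := κ) rfl
    (AddChar.ne_zero_iff.2 ⟨⟨a, ha⟩, h2⟩) h3 h4 (mul_ne_zero hm hn), sm, e4, card_eq_sum_ones,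
    Nat.cast_sum]
  refine sum_congr rfl fun P hP => ?_
  have h6 := sub_mem_J e3 e2 (nm_fix (g.iter_iff.2 ((t1.mem_fx g hn).1 hP)))
  rw [nm_mul t3, ext_eq e2 χ ⟨_, n1 _ h6⟩ (m * dg (nm (ph τ) n (cls P))) (by
    dsimp only
    rw [map_sub, map_zsmul, nm_of_fix e1, mul_comm, mul_zsmul, natCast_zsmul, sub_add_cancel])]
  exact Nat.cast_one.trans (χ0.map_zero_eq_one.symm.trans (congrArg χ0
    ((QuotientAddGroup.eq_zero_iff (N := H) _).2 (AddSubgroup.mem_map_of_mem _ h6)).symm))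

theorem ptsH_eq [Fintype (J σ)] (hm : m ≠ 0) :
    (Nat.card {x : Pic k E // dg x = 0 ∧ (ph σ)^[m] x = x ∧ ∃ P, x - ph σ x = cls P - e} : ℂ) =
      ∑ χ : AddChar (J σ) ℂ, sm e χ m := by
  obtain ⟨τ, t1, t2, t3⟩ := h.pw hm
  have := (t1.card_J g).1
  have fT : {x : Pic k E | dg x = 0 ∧ (ph σ)^[m] x = x ∧ ∃ P, x - ph σ x = cls P - e}.Finite :=
    (Set.toFinite (J τ : Set (Pic k E))).subset fun x hx => mem_J.2 ⟨(t3 x).trans hx.2.1, hx.1⟩
  let δ : Pic k E →+ Pic k E := .id _ - ph σ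
  have d1 : ∀ x, δ x = x - ph σ x := fun _ => rfl
  have c1 : ∀ x, ph τ (ph σ x) = ph σ (ph τ x) := fun x => by
    rw [t3, t3, ← Function.iterate_succ_apply, Function.iterate_succ_apply']
  have e3 : ph τ e = e := (t3 e).trans (Function.iterate_fixed e1 m)
  have j1 : ∀ x, x ∈ J σ ↔ x ∈ J τ ∧ δ x = 0 := fun x =>
    ⟨fun hx => ⟨mem_J.2 ⟨(t3 x).trans (Function.iterate_fixed hx.1 m), hx.2⟩,
      sub_eq_zero.2 hx.1.symm⟩, fun hx => mem_J.2 ⟨(sub_eq_zero.1 hx.2).symm, hx.1.2⟩⟩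
  have j2 : ∀ x ∈ J τ, δ x ∈ J τ ∧ nm (ph σ) m (δ x) = 0 := fun x hx =>
    ⟨mem_J.2 ⟨by rw [d1, map_sub, c1, (mem_J.1 hx).1], by simp [d1]⟩, by
      rw [d1, nm_sub, ← t3, (mem_J.1 hx).1, sub_self]⟩
  let Z := (fx σ m).filter fun P => nm (ph σ) m (cls P - e) = 0
  have z1 : ∀ P ∈ fx σ m, cls P - e ∈ J τ := fun P hP => mem_J.2
    ⟨by rw [map_sub, e3, t3, g.iter_iff.2 ((h.mem_fx g hm).1 hP)], by simp [e2]⟩
  have c2 : #fT.toFinset = #Z * Fintype.card (J σ) := by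
    rw [← card_image_of_injOn (f := fun P => cls P - e) fun P _ P' _ e =>
      g.cls_inj (sub_left_injective e), card_eq_sum_card_fiberwise (f := δ)
        (t := Z.image fun P => cls P - e) fun x hx => ?_, sum_const_nat fun y hy => ?_]
    · obtain ⟨P, hP, rfl⟩ := mem_image.1 hy
      obtain ⟨x0, x1, x2⟩ := herb j1 j2 (h.onto g e1 e2 hm t1 t2 t3) (z1 P (mem_filter.1 hP).1)
        (mem_filter.1 hP).2
      symm
      refine card_bij (fun a _ => x0 + a) (fun a _ => ?_)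
        (fun a _ b _ e => Subtype.ext (add_left_cancel e)) fun x hx => ?_
      · have a1 := (j1 a).1 a.2
        have a2 := mem_J.1 (add_mem x1 a1.1)
        have a3 : δ (x0 + a) = cls P - e := by rw [map_add, x2, a1.2, add_zero]
        exact mem_filter.2 ⟨fT.mem_toFinset.2 ⟨a2.2, (t3 _).symm.trans a2.1, P, a3⟩, a3⟩
      · obtain ⟨a1, a2⟩ := mem_filter.1 hx
        have a1 := fT.mem_toFinset.1 a1
        exact ⟨⟨x - x0, (j1 _).2 ⟨sub_mem (mem_J.2 ⟨(t3 x).trans a1.2.1, a1.1⟩) x1, by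
          rw [map_sub, a2, x2, sub_self]⟩⟩, mem_univ _, add_sub_cancel _ _⟩
    · obtain ⟨a1, a2, P, a3⟩ := fT.mem_toFinset.1 hx
      have a4 := j2 x (mem_J.2 ⟨(t3 x).trans a2, a1⟩)
      rw [d1, a3] at a4
      have a5 := (mem_J.1 a4.1).1
      rw [map_sub, e3, t3, sub_left_inj, g.iter_iff] at a5
      exact mem_image.2 ⟨P, mem_filter.2 ⟨(h.mem_fx g hm).2 a5, a4.2⟩, a3.symm⟩
  refine (congrArg Nat.cast ((Set.ncard_eq_toFinset_card _ fT).trans c2)).trans ?_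
  rw [Nat.cast_mul]
  simp only [sm]
  rw [sum_comm, ← nsmul_eq_mul, ← sum_const, sum_filter]
  refine sum_congr rfl fun P hP => ?_
  have a1 : nm (ph σ) m (cls P - e) ∈ J σ := (h.onto g e1 e2 hm t1 t2 t3).le ⟨_, z1 P hP, rfl⟩
  rw [sum_congr rfl fun χ _ => ext_eq e2 χ ⟨_, a1⟩ m (by
    dsimp only
    rw [map_sub, nm_of_fix e1, natCast_zsmul, sub_add_cancel]), AddChar.sum_apply_eq_ite]
  simp only [Subtype.ext_iff, ZeroMemClass.coe_zero]

end Fr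

end Pool.Agent.P.MP_9344a7_nt.R
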