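import Pool.Agent.P.MP_9344a7_nt.IfA

/-! The reduction to one faithful character. -/

namespace Pool.Agent.P.MP_9344a7_nt

namespace Red

open Finset Polynomial
open scoped Classical

variable {A A' : Type} [AddCommGroup A] [AddCommGroup A']

lemma sid_map {φ : A' →+ A} (hφ : Function.Injective φ) {S : Finset A'} (h : Sid S) :
    Sid (S.image φ) := by
  intro d hd T hT h1
  rcases T.eq_empty_or_nonempty with rfl | ⟨t, ht⟩
  · simp
  obtain ⟨u, -, rfl⟩ := mem_image.1 (hT ht)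
  obtain ⟨w, -, hw⟩ := mem_image.1 (h1 _ ht)
  obtain rfl : d = φ (w - u) := by rw [map_sub, hw, add_sub_cancel_left]
  refine le_trans (card_le_card (t := (S.filter fun s => φ s ∈ T).image φ) fun x hx => ?_)
    (card_image_le.trans (h (w - u) (fun e => hd (by rw [e, map_zero])) _ (filter_subset _ _)
      fun s hs => ?_))
  · obtain ⟨s, hs, rfl⟩ := mem_image.1 (hT hx)
    exact mem_image_of_mem _ (mem_filter.2 ⟨hs, hx⟩)
  · obtain ⟨v, hv, e⟩ := mem_image.1 (h1 _ (mem_filter.1 hs).2)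
    rw [← map_add] at e
    exact hφ e ▸ hv

lemma sym_map (φ : A' →+ A) {S : Finset A'} {κ : A'} (h : ∀ s ∈ S, κ - s ∈ S) :
    ∀ s ∈ S.image φ, φ κ - s ∈ S.image φ := by
  intro s hs
  obtain ⟨u, hu, rfl⟩ := mem_image.1 hs
  rw [← map_sub]
  exact mem_image_of_mem _ (h u hu)

/-- A faithful character, with the conjugation principle. -/
lemma faith [Finite A] (hA : IsAddCyclic A) : ∃ (χ : AddChar A ℂ) (ζ : ℂ) (g : A → ℕ),
    Function.Injective χ ∧ (∀ x, χ x = ζ ^ g x) ∧ (∀ w : ℂ, w ^ Nat.card A = 1 → ∃ x, χ x = w) ∧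
    ∀ a : ℕ, a.Coprime (Nat.card A) → ∀ P : ℤ[X], aeval ζ P = 0 → aeval (ζ ^ a) P = 0 := by
  have : NeZero (Nat.card A) := ⟨Nat.card_pos.ne'⟩
  let e := zmodAddCyclicAddEquiv hA
  let χ : AddChar A ℂ := (ZMod.stdAddChar (N := Nat.card A)).compAddMonoidHom e.symm.toAddMonoidHom
  have h1 : Function.Injective χ := ZMod.injective_stdAddChar.comp e.symm.injective
  have h2 : ∀ i : ℕ, χ (e i) = χ (e 1) ^ i := fun i => by
    rw [← AddChar.map_nsmul_eq_pow, ← map_nsmul, nsmul_one]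
  have h3 : IsPrimitiveRoot (χ (e 1)) (Nat.card A) := by
    refine ⟨by rw [← h2, ZMod.natCast_self, map_zero, AddChar.map_zero_eq_one], fun l hl => ?_⟩
    rw [← h2, ← χ.map_zero_eq_one] at hl
    exact (ZMod.natCast_eq_zero_iff _ _).1 ((map_eq_zero_iff e e.injective).1 (h1 hl))
  refine ⟨χ, χ (e 1), fun x => (e.symm x).val, h1, fun x => ?_, fun w hw => ?_, fun a ha P hP => ?_⟩
  · rw [← h2, ZMod.natCast_zmod_val, e.apply_symm_apply]
  · obtain ⟨i, -, rfl⟩ := h3.eq_pow_of_pow_eq_one hw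
    exact ⟨_, h2 i⟩
  · obtain ⟨Q, rfl⟩ := minpoly.isIntegrallyClosed_dvd (h3.isIntegral Nat.card_pos) hP
    rw [map_mul, h3.minpoly_eq_pow_coprime ha, minpoly.aeval, zero_mul]

lemma count {S : Finset A} (h : Sid S) (D : Finset A) :
    ((D.erase 0).sigma fun d => S.filter fun s => s + d ∈ S).card ≤ 2 * D.card := by
  rw [card_sigma]
  refine (sum_le_card_nsmul _ _ 2 fun d hd => h d (ne_of_mem_erase hd) _ (filter_subset _ _)
    fun s hs => (mem_filter.1 hs).2).trans ?_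
  rw [smul_eq_mul, mul_comm]
  exact Nat.mul_le_mul_left _ card_erase_le

lemma good {l n : ℕ} (hl : l.Prime) :
    l ≤ ((range l).filter fun m => (1 + m * n).Coprime (l * n)).card + 1 := by
  have h1 := card_filter_add_card_filter_not (s := range l) fun m => (1 + m * n).Coprime (l * n)
  have h2 : ∀ m, ¬ (1 + m * n).Coprime (l * n) → l ∣ 1 + m * n := fun m hm => by
    by_contra h
    exact hm (Nat.Coprime.mul_right ((hl.coprime_iff_not_dvd).2 h).symm (by simp))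
  have h3 : ((range l).filter fun m => ¬ (1 + m * n).Coprime (l * n)).card ≤ 1 := by
    refine card_le_one.2 fun a ha b hb => ?_
    obtain ⟨a1, a2⟩ := mem_filter.1 ha
    obtain ⟨b1, b2⟩ := mem_filter.1 hb
    have a3 := h2 a a2
    have h4 : l.Coprime n := (hl.coprime_iff_not_dvd).2 fun h =>
      hl.one_lt.ne' (Nat.dvd_one.1 ((Nat.dvd_add_left (h.mul_left a)).1 a3))
    have h5 : 1 + a * n ≡ 1 + b * n [MOD l] :=
      ((Nat.modEq_zero_iff_dvd).2 a3).trans ((Nat.modEq_zero_iff_dvd).2 (h2 b b2)).symm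
    exact Nat.ModEq.eq_of_lt_of_lt (Nat.ModEq.cancel_right_of_coprime h4
      (Nat.ModEq.add_left_cancel' 1 h5)) (mem_range.1 a1) (mem_range.1 b1)
  rw [card_range] at h1
  omega

lemma num {q N M x n : ℕ} (hq : 4000 ≤ q) (h1 : 3 * q ≤ 4 * N) (h2 : N = M + x)
    (h3 : 400 * x ≤ 4000 + q) (h4 : M * M ≤ M + 2 * n) (h5 : 10 * n ≤ N ^ 2 + 2 * q ^ 2 + 2) :
    False := by
  have h6 : 200 * x ≤ q := by omega
  have h7 : 149 * q ≤ 200 * M := by omega
  subst h2
  have h8 : 200 * x * M ≤ q * M := Nat.mul_le_mul_right _ h6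
  have h9 : 200 * x * (200 * x) ≤ q * q := Nat.mul_le_mul h6 h6
  have h10 : 149 * q * M ≤ 200 * M * M := Nat.mul_le_mul_right _ h7
  have h11 : 149 * q * q ≤ 200 * M * q := Nat.mul_le_mul_right _ h7
  have h12 : 4000 * M ≤ q * M := Nat.mul_le_mul_right _ hq
  have h13 : 4000 * q ≤ q * q := Nat.mul_le_mul_right _ hq
  nlinarith

end Red

open Finset Polynomial Red
open scoped Classical

theorem p_RED (hC : S_CORE) : S_RED := by
  intro C0
  obtain ⟨q0, h0⟩ := hC C0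
  obtain ⟨q1, h1⟩ := hC 400
  refine ⟨q0 + q1 + 4000, fun q A A' _ _ _ _ S S' κ κ' hq hA h6 hc hh hN hl hu hs hs' hS hS' hR => ?_⟩
  let _ := Fintype.ofFinite A
  have h3 : Nat.card A ≤ q ^ 3 := by
    have a1 : S.card ≤ 2 * q := by omega
    have a2 := Nat.pow_le_pow_left a1 2
    have a3 : 4000 * q ^ 2 ≤ q * q ^ 2 := Nat.mul_le_mul_right _ (by omega)
    have a4 : 1 ≤ q ^ 2 := Nat.one_le_pow _ _ (by omega)
    nlinarith
  obtain ⟨χ, ζ, g, hχ, hg, hw, hP⟩ := faith hA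
  obtain ⟨α, hα⟩ : ∃ α, Rt q χ S κ α := by
    obtain ⟨r, hr⟩ := IsAlgClosed.exists_pow_nat_eq ((∑ s ∈ S, χ s) ^ 2 - 4 * (q * χ κ)) two_pos
    exact ⟨(r - ∑ s ∈ S, χ s) / 2, by rw [Rt]; linear_combination hr / 4⟩
  obtain ⟨χ', -, hα'⟩ := hR χ α (fun e => by
    obtain ⟨a, -, b, -, ab⟩ := one_lt_card.1 (show 1 < S.card by omega)
    exact ab (hχ (by rw [e]; rfl))) hα
  choose r hr using fun x : A' => hw (χ' x) (by
    rw [← AddChar.map_nsmul_eq_pow, hc, card_nsmul_eq_zero', AddChar.map_zero_eq_one])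
  let ρ : A' →+ A := AddMonoidHom.mk' r fun x y => hχ (by
    rw [AddChar.map_add_eq_mul, hr, hr, hr, AddChar.map_add_eq_mul])
  have hρ : ∀ x, χ (ρ x) = χ' x := hr
  by_cases hi : Function.Injective ρ
  · let θ := AddEquiv.ofBijective ρ ((Nat.bijective_iff_injective_and_card _).2 ⟨hi, hc.symm⟩)
    obtain ⟨e, B, b1, b2⟩ := h0 q A S (S'.image ρ) κ (ρ κ') χ α (by omega) h6 h3 hχ
      (by rw [card_image_of_injective _ hi, hN]) hu hs (sym_map ρ hs') hS (sid_map hi hS') hα (by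
        rw [Rt, sum_image hi.injOn]
        simp only [hρ]
        exact hα')
    refine ⟨θ.symm, by rw [e]; exact θ.symm_apply_apply κ', B, b1, fun s a1 a2 => ?_⟩
    obtain ⟨u, hu, rfl⟩ := mem_image.1 (b2 s a1 a2)
    exact (θ.symm_apply_apply u).symm ▸ hu
  exfalso
  obtain ⟨l, n, hp, hn, hk⟩ : ∃ l n : ℕ, l.Prime ∧ Nat.card A = l * n ∧ ∀ x, n • ρ x = 0 := by
    obtain ⟨c, e⟩ := AddSubgroup.card_addSubgroup_dvd_card ρ.range
    obtain ⟨l, a1, c', rfl⟩ := Nat.exists_prime_and_dvd (n := c) fun a1 => hi (by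
      rw [a1, mul_one] at e
      exact ((Nat.bijective_iff_surjective_and_card _).2 ⟨AddMonoidHom.range_eq_top.1
        (AddSubgroup.eq_top_of_card_eq _ e.symm), hc.symm⟩).1)
    refine ⟨l, c' * Nat.card ρ.range, a1, by rw [e]; ring, fun x => ?_⟩
    have a2 := congrArg Subtype.val (card_nsmul_eq_zero' (x := (⟨ρ x, x, rfl⟩ : ρ.range)))
    rw [mul_smul, show Nat.card ρ.range • ρ x = 0 from a2, smul_zero]
  have h5 : 5 ≤ l := by
    have a1 : l.Coprime 6 := Nat.Coprime.coprime_dvd_left (hn ▸ dvd_mul_right l n) h6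
    by_contra a2
    have := hp.two_le
    have a3 : l = 2 ∨ l = 3 ∨ l = 4 := by omega
    rcases a3 with rfl | rfl | rfl <;> exact absurd a1 (by decide)
  have hn0 : 0 < n := Nat.pos_of_ne_zero fun e => Nat.card_pos.ne' (by rw [hn, e, mul_zero])
  let μ : ℕ → A →+ A := fun m => nsmulAddMonoidHom (1 + m * n)
  have hμ : ∀ m x, μ m x = x + m • n • x := fun m x => by
    rw [← mul_smul, nsmulAddMonoidHom_apply, add_smul, one_smul]
  have hj : ∀ m, (1 + m * n).Coprime (l * n) → Function.Injective (μ m) := fun m hm =>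
    (Nat.Coprime.nsmul_right_bijective (hn ▸ hm.symm)).1
  have hG : ∀ m, (1 + m * n).Coprime (l * n) → Rt q χ (S.image (μ m)) (μ m κ) α ∨
      Rt q χ (S.image (μ m)) (μ m κ) (-∑ s ∈ S', χ' s - α) := fun m hm => by
    have a1 : ∀ x, aeval ζ (X ^ g x : ℤ[X]) = χ x := fun x => by rw [map_pow, aeval_X, hg]
    have a2 : ∀ x, aeval (ζ ^ (1 + m * n)) (X ^ g x : ℤ[X]) = χ (μ m x) := fun x => by
      rw [map_pow, aeval_X, nsmulAddMonoidHom_apply, AddChar.map_nsmul_eq_pow, hg, ← pow_mul,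
        ← pow_mul, mul_comm]
    have a3 : ∀ x, χ (μ m (ρ x)) = χ' x := fun x => by rw [hμ, hk, smul_zero, add_zero, hρ]
    have a4 := hP _ (hn ▸ hm) ((∑ s ∈ S, X ^ g s - ∑ s ∈ S', X ^ g (ρ s)) ^ 2 *
      ((q : ℤ[X]) * X ^ g (ρ κ')) -
      (∑ s ∈ S', X ^ g (ρ s)) * (∑ s ∈ S, X ^ g s - ∑ s ∈ S', X ^ g (ρ s)) *
        ((q : ℤ[X]) * X ^ g κ - (q : ℤ[X]) * X ^ g (ρ κ')) +
        ((q : ℤ[X]) * X ^ g κ - (q : ℤ[X]) * X ^ g (ρ κ')) ^ 2) (by
      rw [Rt] at hα hα'
      simp only [map_add, map_sub, map_mul, sq, map_sum, map_natCast, a1, hρ]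
      generalize ∑ s ∈ S, χ s = u at *
      generalize ∑ s ∈ S', χ' s = v at *
      linear_combination ((u - v) * (-v - α) + (q * χ κ - q * χ' κ')) * (hα - hα') +
        (u - v) ^ 2 * hα')
    rw [Rt] at hα'
    simp only [map_add, map_sub, map_mul, sq, map_sum, map_natCast, a2, a3] at a4
    rw [Rt, Rt, sum_image (hj m hm).injOn, ← mul_eq_zero]
    generalize ∑ s ∈ S, χ (μ m s) = u at *
    generalize ∑ s ∈ S', χ' s = v at *
    have a5 : q * χ' κ' = -α ^ 2 - v * α := by linear_combination hα'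
    rw [a5] at a4
    linear_combination a4
  obtain ⟨β, Γ, g1, g2⟩ : ∃ (β : ℂ) (Γ : Finset ℕ), l ≤ 2 * Γ.card + 1 ∧ ∀ m ∈ Γ, m < l ∧
      (1 + m * n).Coprime (l * n) ∧ Rt q χ (S.image (μ m)) (μ m κ) β := by
    have a1 := good (n := n) hp
    set G := (range l).filter fun m => (1 + m * n).Coprime (l * n)
    have a2 := card_filter_add_card_filter_not (s := G) fun m => Rt q χ (S.image (μ m)) (μ m κ) α
    have a3 : ∀ m ∈ G, m < l ∧ (1 + m * n).Coprime (l * n) := fun m hm =>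
      ⟨mem_range.1 (mem_filter.1 hm).1, (mem_filter.1 hm).2⟩
    by_cases a4 : l ≤ 2 * (G.filter fun m => Rt q χ (S.image (μ m)) (μ m κ) α).card + 1
    · exact ⟨α, _, a4, fun m hm => ⟨(a3 m (mem_filter.1 hm).1).1, (a3 m (mem_filter.1 hm).1).2,
        (mem_filter.1 hm).2⟩⟩
    · exact ⟨_, G.filter fun m => ¬ Rt q χ (S.image (μ m)) (μ m κ) α, by omega, fun m hm =>
        ⟨(a3 m (mem_filter.1 hm).1).1, (a3 m (mem_filter.1 hm).1).2,
        (hG m (a3 m (mem_filter.1 hm).1).2).resolve_left (mem_filter.1 hm).2⟩⟩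
  obtain ⟨b, hb⟩ := card_pos.1 (show 0 < Γ.card by omega)
  have hbj := hj b (g2 b hb).2.1
  set S1 := S.filter fun s => ¬ n • s = 0
  have hU : ∀ m ∈ Γ.erase b,
      400 * S1.card ≤ 400 * (S1.filter fun s => μ m s ∈ S.image (μ b)).card + q := fun m hm => by
    obtain ⟨-, a1, a2⟩ := g2 m (mem_of_mem_erase hm)
    obtain ⟨-, B, b1, b2⟩ := h1 q A (S.image (μ m)) (S.image (μ b)) (μ m κ) (μ b κ) χ β (by omega)
      h6 h3 hχ (by rw [card_image_of_injective _ (hj m a1), card_image_of_injective _ hbj])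
      (by rwa [card_image_of_injective _ (hj m a1)]) (sym_map _ hs) (sym_map _ hs)
      (sid_map (hj m a1) hS) (sid_map hbj hS) a2 (g2 b hb).2.2
    have a3 := card_filter_add_card_filter_not (s := S1) fun s => μ m s ∈ S.image (μ b)
    have a4 : (S1.filter fun s => ¬ μ m s ∈ S.image (μ b)).card ≤ B.card :=
      card_le_card_of_injOn (μ m) (fun s hs => by
        obtain ⟨a5, a6⟩ := mem_filter.1 hs
        by_contra a7
        exact a6 (b2 _ (mem_image_of_mem _ (mem_filter.1 a5).1) a7)) (hj m a1).injOn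
    omega
  have hz : ∀ s : A, l • n • s = 0 := fun s => by rw [← mul_smul, ← hn, card_nsmul_eq_zero']
  have hm : ∀ s ∈ S1, ∀ m < l, ∀ m' < l, μ m s = μ m' s → m = m' := fun s a1 m a2 m' a3 e => by
    have := Fact.mk hp
    rw [hμ, hμ, add_right_inj, nsmul_eq_nsmul_iff_modEq,
      addOrderOf_eq_prime (hz s) (mem_filter.1 a1).2] at e
    exact e.eq_of_lt_of_lt a2 a3
  have hV : ∑ m ∈ Γ.erase b, (S1.filter fun s => μ m s ∈ S.image (μ b)).card ≤ 2 * l := by
    rw [← card_sigma]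
    refine le_trans (card_le_card_of_injOn (fun z => ⟨μ z.1 z.2 - μ b z.2, μ b z.2⟩)
      (fun z a1 => ?_) fun z a1 w a2 e => ?_) ((count (sid_map hbj hS)
        (univ.filter fun d => l • d = 0)).trans (Nat.mul_le_mul_left _
          (IsAddCyclic.card_nsmul_eq_zero_le hp.pos)))
    · obtain ⟨a2, a3⟩ := mem_sigma.1 a1
      obtain ⟨a4, a5⟩ := mem_filter.1 a3
      refine mem_sigma.2 ⟨mem_erase.2 ⟨fun e => ne_of_mem_erase a2 (hm _ a4 _
        (g2 _ (mem_of_mem_erase a2)).1 _ (g2 b hb).1 (sub_eq_zero.1 e)), mem_filter.2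
        ⟨mem_univ _, ?_⟩⟩, mem_filter.2 ⟨mem_image_of_mem _ (mem_filter.1 a4).1, ?_⟩⟩
      · dsimp only
        rw [hμ, hμ, add_sub_add_left_eq_sub, smul_sub, smul_comm l, smul_comm l b, hz, smul_zero,
          smul_zero, sub_zero]
      · dsimp only
        rwa [add_sub_cancel]
    · obtain ⟨m, s⟩ := z
      obtain ⟨m', s'⟩ := w
      obtain ⟨e1, e2⟩ := Sigma.mk.inj_iff.1 e
      obtain rfl : s = s' := hbj (eq_of_heq e2)
      obtain ⟨a3, a4⟩ := mem_sigma.1 a1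
      obtain rfl : m = m' := hm s (mem_filter.1 a4).1 _ (g2 _ (mem_of_mem_erase a3)).1 _
        (g2 _ (mem_of_mem_erase (mem_sigma.1 a2).1)).1 (sub_left_injective e1)
      rfl
  have hx : 400 * S1.card ≤ 4000 + q := by
    have a1 := sum_le_sum hU
    rw [sum_add_distrib, sum_const, sum_const, ← mul_sum, smul_eq_mul, smul_eq_mul,
      card_erase_of_mem hb] at a1
    refine Nat.le_of_mul_le_mul_left (c := Γ.card - 1) ?_ (by omega)
    rw [mul_add]
    omega
  set S0 := S.filter fun s => n • s = 0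
  have hM : S0.card * S0.card ≤ S0.card + 2 * n := by
    have a1 : S0.offDiag.card ≤ 2 * n := le_trans (card_le_card_of_injOn
      (fun z => ⟨z.2 - z.1, z.1⟩) (fun z a1 => ?_) fun z _ w _ e => ?_)
      ((count hS (univ.filter fun d => n • d = 0)).trans (Nat.mul_le_mul_left _
        (IsAddCyclic.card_nsmul_eq_zero_le hn0)))
    · rw [offDiag_card] at a1
      omega
    · obtain ⟨a2, a3, a4⟩ := mem_offDiag.1 a1
      refine mem_sigma.2 ⟨mem_erase.2 ⟨sub_ne_zero.2 a4.symm, mem_filter.2 ⟨mem_univ _, ?_⟩⟩,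
        mem_filter.2 ⟨(mem_filter.1 a2).1, ?_⟩⟩
      · rw [smul_sub, (mem_filter.1 a2).2, (mem_filter.1 a3).2, sub_zero]
      · rw [add_sub_cancel]
        exact (mem_filter.1 a3).1
    · obtain ⟨e1, e2⟩ := Sigma.mk.inj_iff.1 e
      have e3 := eq_of_heq e2
      exact Prod.ext e3 (sub_left_injective (e3 ▸ e1))
  refine num (by omega) hl (card_filter_add_card_filter_not (s := S) fun s => n • s = 0).symm
    hx hM (le_trans ?_ hh)
  rw [hn]
  nlinarith

end Pool.Agent.P.MP_9344a7_nt
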