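import Mathlib

/-! Fixed vectors of Frobenius-semilinear maps. -/

namespace Pool.Agent.P.MP_9344a7_nt.R

open Module Polynomial

variable {k : Type} [Field k] [IsAlgClosed k] {Q : ℕ} {σ : k →+* k}

/-- The coordinates of the candidate fixed vector. -/
noncomputable def lp (Q : ℕ) (a : ℕ → k) : ℕ → k[X]
  | 0 => C (a 0) * X ^ Q
  | i + 1 => lp Q a i ^ Q + C (a (i + 1)) * X ^ Q

omit [IsAlgClosed k] in
lemma lp_dvd (hQ : 2 ≤ Q) (a : ℕ → k) (i : ℕ) : X ^ 2 ∣ lp Q a i := by
  induction i with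
  | zero => exact (pow_dvd_pow X hQ).mul_left _
  | succ i ih => exact (ih.pow (by omega)).add ((pow_dvd_pow X hQ).mul_left _)

omit [IsAlgClosed k] in
lemma lp_zero (hQ : 2 ≤ Q) (a : ℕ → k) (i : ℕ) (h : lp Q a i = 0) : ∀ j ≤ i, a j = 0 := by
  induction i with
  | zero => intro j hj; simpa [lp, Nat.le_zero.1 hj] using h
  | succ i ih =>
    have h1 : lp Q a i ^ Q = -(C (a (i + 1)) * X ^ Q) := eq_neg_of_add_eq_zero_left h
    have h2 := congrArg natDegree h1
    have h3 := natDegree_C_mul_X_pow_le (a (i + 1)) Q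
    rw [natDegree_pow, natDegree_neg] at h2
    have h4 : lp Q a i = 0 := eq_zero_of_dvd_of_natDegree_lt (lp_dvd hQ a i) (by
      rw [natDegree_X_pow]
      nlinarith)
    rw [h4, zero_pow (by omega)] at h1
    intro j hj
    rcases hj.eq_or_lt with rfl | hj
    · simpa using h1
    · exact ih h4 j (by omega)

variable {V : Type} [AddCommGroup V] [Module k V] [FiniteDimensional k V]

lemma exists_fixed (hQ : 2 ≤ Q) (hσ : ∀ c, σ c = c ^ Q) (θ : V →ₛₗ[σ] V)
    (hθ : Function.Injective θ) [Nontrivial V] : ∃ w, w ≠ 0 ∧ θ w = w := by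
  classical
  obtain ⟨v, hv⟩ := exists_ne (0 : V)
  let u : ℕ → V := fun i => θ^[i] v
  have hu : ∀ i, u (i + 1) = θ (u i) := fun i => Function.iterate_succ_apply' θ i v
  let S : ℕ →o Submodule k V := ⟨fun n => Submodule.span k (u '' ↑(Finset.range n)),
    fun a b h => Submodule.span_mono (Set.image_mono (by simpa using Set.Iio_subset_Iio h))⟩
  have ex : ∃ n, u n ∈ S n := by
    obtain ⟨n, hn⟩ := monotone_stabilizes_iff_noetherian.2 inferInstance S
    exact ⟨n, hn (n + 1) n.le_succ ▸ Submodule.subset_span ⟨n, by simp, rfl⟩⟩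
  have h1 := Nat.find_spec ex
  have h2 := fun m => Nat.find_min ex (m := m)
  obtain ⟨m, hm⟩ : ∃ m, Nat.find ex = m + 1 := Nat.exists_eq_succ_of_ne_zero fun e => by
    rw [e] at h1
    exact hv (by simpa [S, u] using h1)
  rw [hm] at h1 h2
  obtain ⟨a, ha⟩ := (Submodule.mem_span_image_finset_iff_exists_fun' k).1 h1
  obtain ⟨H, hH⟩ := lp_dvd hQ a m
  have H0 : H ≠ 0 := fun e => hv (by
    have := lp_zero hQ a m (by rw [hH, e, mul_zero])
    rw [Finset.sum_eq_zero fun i hi => by
      rw [this i (by simpa [Nat.lt_succ_iff] using hi), zero_smul]] at ha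
    exact (hθ.iterate (m + 1)) (ha.symm.trans (Function.iterate_fixed θ.map_zero _).symm))
  have hd : 0 < (X * H).degree := by
    rw [degree_mul, degree_X]
    exact lt_of_lt_of_le zero_lt_one (le_add_of_nonneg_right (zero_le_degree_iff.2 H0))
  obtain ⟨y, hy⟩ := IsAlgClosed.exists_root (X * H - C 1) (by rw [degree_sub_C hd]; exact hd.ne')
  have hy : y * eval y H = 1 := by simpa [sub_eq_zero] using hy
  have y0 : y ≠ 0 := left_ne_zero_of_mul_eq_one hy
  have e : eval y (lp Q a m) = y := by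
    rw [hH, eval_mul, eval_pow, eval_X, sq, mul_assoc, hy, mul_one]
  refine ⟨∑ i ∈ Finset.range (m + 1), eval y (lp Q a i) • u i, fun h => h2 m m.lt_succ_self ?_, ?_⟩
  · rw [Finset.sum_range_succ, e] at h
    refine (Submodule.smul_mem_iff _ y0).1 ?_
    rw [eq_neg_of_add_eq_zero_right h]
    exact neg_mem ((Submodule.mem_span_image_finset_iff_exists_fun' k).2 ⟨_, rfl⟩)
  · rw [map_sum]
    simp only [map_smulₛₗ, hσ, ← hu]
    rw [Finset.sum_range_succ, e, ← ha, Finset.sum_range_succ', Finset.sum_range_succ']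
    simp only [lp, eval_add, eval_mul, eval_pow, eval_C, eval_X, add_smul, Finset.sum_add_distrib,
      smul_add, Finset.smul_sum, smul_smul, mul_comm, add_assoc]

lemma span_fixed (hQ : 2 ≤ Q) (hσ : ∀ c, σ c = c ^ Q) (θ : V →ₛₗ[σ] V)
    (hθ : Function.Injective θ) : Submodule.span k {w | θ w = w} = ⊤ := by
  set W := Submodule.span k {w | θ w = w}
  have key : ∀ (f : V → V) , (∀ a b, f (a + b) = f a + f b) → f 0 = 0 →
      (∀ (c : k) w, θ w = w → ∃ d : k, f (d • w) = c • w) → ∀ w ∈ W, ∃ u ∈ W, f u = w := by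
    intro f f1 f0 f2 w hw
    suffices ∀ c : k, ∃ u ∈ W, f u = c • w by simpa using this 1
    induction hw using Submodule.span_induction with
    | mem w h => exact fun c => (f2 c w h).elim fun d e =>
        ⟨_, W.smul_mem d (Submodule.subset_span h), e⟩
    | zero => exact fun c => ⟨0, W.zero_mem, by simp [f0]⟩
    | add a b _ _ h h' =>
      intro c
      obtain ⟨u, u1, u2⟩ := h c
      obtain ⟨u', u1', u2'⟩ := h' c
      exact ⟨_, W.add_mem u1 u1', by rw [f1, u2, u2', smul_add]⟩
    | smul a w _ h => exact fun c => by simpa [smul_smul] using h (c * a)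
  have k1 := key θ θ.map_add θ.map_zero fun c w h => by
    obtain ⟨d, rfl⟩ := IsAlgClosed.exists_pow_nat_eq c (n := Q) (by omega)
    exact ⟨d, by rw [map_smulₛₗ, hσ, h]⟩
  have k2 := key (fun w => θ w - w) (fun a b => by rw [map_add]; abel) (by simp) fun c w h => by
    obtain ⟨d, hd⟩ := IsAlgClosed.exists_root (X ^ Q - (X + C c) : k[X]) (by
      rw [degree_sub_eq_left_of_degree_lt (by
        rw [degree_X_add_C, degree_X_pow]; exact_mod_cast hQ), degree_X_pow]
      exact_mod_cast (by omega : Q ≠ 0))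
    have hd : d ^ Q - d = c := by
      simp only [IsRoot.def, eval_sub, eval_pow, eval_X, eval_add, eval_C] at hd
      linear_combination hd
    exact ⟨d, by rw [map_smulₛₗ, hσ, h, ← sub_smul, hd]⟩
  have hW : W ≤ W.comap θ := Submodule.span_le.2 fun w h => by
    change θ w ∈ W
    rw [show θ w = w from h]
    exact Submodule.subset_span h
  by_contra h
  have := Submodule.Quotient.nontrivial_iff.2 h
  obtain ⟨w, w0, w1⟩ := exists_fixed hQ hσ (W.mapQ W θ hW) ((injective_iff_map_eq_zero _).2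
    fun x hx => by
      obtain ⟨x, rfl⟩ := W.mkQ_surjective x
      obtain ⟨u, u1, u2⟩ := k1 _ ((Submodule.Quotient.mk_eq_zero W).1 hx)
      exact (Submodule.Quotient.mk_eq_zero W).2 (hθ u2 ▸ u1))
  obtain ⟨w, rfl⟩ := W.mkQ_surjective w
  obtain ⟨u, u1, u2⟩ := k2 _ ((Submodule.Quotient.eq W).1 w1)
  refine w0 ((Submodule.Quotient.mk_eq_zero W).2 ?_)
  have : w - u ∈ W := Submodule.subset_span (by
    change θ (w - u) = _
    rw [map_sub]
    exact sub_eq_sub_iff_sub_eq_sub.1 u2.symm)
  simpa using W.add_mem this u1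

lemma card_roots (hQ : 2 ≤ Q) (h0 : (Q : k) = 0) : Nat.card {c : k // c ^ Q = c} = Q := by
  have hs : (X ^ Q - X : k[X]).Separable := by
    rw [separable_def, derivative_sub, derivative_X_pow, h0, derivative_X]
    simpa using isCoprime_one_right.neg_right
  have hd := FiniteField.X_pow_card_sub_X_natDegree_eq k hQ
  have := card_rootSet_eq_natDegree hs (IsAlgClosed.splits ((X ^ Q - X : k[X]).map
    (algebraMap k k)))
  rw [hd, ← Nat.card_eq_fintype_card] at this
  refine (Nat.card_congr (Equiv.subtypeEquivRight fun c => ?_)).trans this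
  rw [mem_rootSet_of_ne hs.ne_zero]
  simp [sub_eq_zero]

theorem card_fixed (hQ : 2 ≤ Q) (h0 : (Q : k) = 0) (hσ : ∀ c, σ c = c ^ Q) (θ : V →ₛₗ[σ] V)
    (hθ : Function.Injective θ) : Nat.card {w // θ w = w} = Q ^ finrank k V := by
  obtain ⟨s, s1, s2, s3⟩ := exists_linearIndependent k {w | θ w = w}
  rw [span_fixed hQ hσ θ hθ] at s2
  let b : Basis s k V := Basis.mk s3 (by rw [Subtype.range_coe, s2])
  have := FiniteDimensional.fintypeBasisIndex b
  have hb : ∀ i, θ (b i) = b i := fun i => by simpa [b] using s1 i.2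
  rw [finrank_eq_card_basis b, ← Nat.card_eq_fintype_card, ← card_roots hQ h0, ← Nat.card_fun]
  refine Nat.card_congr ((b.equivFun.toEquiv.subtypeEquiv fun w => ?_).trans
    (Equiv.subtypePiEquivPi (p := fun _ c => c ^ Q = c)))
  have : θ w = ∑ i, b.repr w i ^ Q • b i := by
    conv_lhs => rw [← b.sum_repr w, map_sum]
    simp only [map_smulₛₗ, hσ, hb]
  rw [this, ← b.equivFun_symm_apply, LinearEquiv.symm_apply_eq, funext_iff]
  rfl

end Pool.Agent.P.MP_9344a7_nt.R
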