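import Pool.Agent.P.MP_9344a7_nt.Cnt

/-! The L-series of a curve of genus two. -/

namespace Pool.Agent.P.MP_9344a7_nt.R

open Finset
open Pool.Agent.P.MP_6f117a_ag (Place FF)
open Pool.Agent.P.MP_ab3ecb_nt.Inv
open scoped Classical

set_option linter.unusedSectionVars false

/-- A finite set as a `Finset`. -/
noncomputable def fs {α : Type} (s : Set α) : Finset α := if h : s.Finite then h.toFinset else ∅

lemma mem_fs {α : Type} {s : Set α} (h : s.Finite) {a : α} : a ∈ fs s ↔ a ∈ s := by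
  rw [fs, dif_pos h, h.mem_toFinset]

lemma card_fs {α : Type} (s : Set α) : #(fs s) = Nat.card s := by
  rw [fs]
  split_ifs with h
  · exact (Set.ncard_eq_toFinset_card s h).symm
  · exact (Set.Infinite.ncard h).symm

section

variable {G : Type} [AddCommGroup G] (φ : G →+ G)

/-- The norm map. -/
def nm (m : ℕ) : G →+ G := .mk' (fun x => ∑ i ∈ range m, φ^[i] x) fun a b => by
  simp only [iterate_map_add, sum_add_distrib]

lemma nm_apply (m : ℕ) (x : G) : nm φ m x = ∑ i ∈ range m, φ^[i] x := rfl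

lemma nm_sub (m : ℕ) (x : G) : nm φ m (x - φ x) = x - φ^[m] x := by
  rw [map_sub, nm_apply, nm_apply, ← sum_sub_distrib]
  exact sum_range_sub' (fun i => φ^[i] x) m

variable {φ}

lemma nm_fix {m : ℕ} {x : G} (h : φ^[m] x = x) : φ (nm φ m x) = nm φ m x := by
  have := nm_sub φ m x
  rw [h, sub_self, map_sub, sub_eq_zero] at this
  refine Eq.trans ?_ this.symm
  rw [nm_apply, nm_apply, map_sum]
  exact sum_congr rfl fun i _ => (Function.iterate_succ_apply' φ i x).symm

lemma nm_of_fix {x : G} (h : φ x = x) (m : ℕ) : nm φ m x = m • x := by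
  rw [nm_apply, sum_congr rfl fun i _ => Function.iterate_fixed h i, sum_const, card_range]

lemma nm_mul {ψ : G →+ G} {m : ℕ} (h : ∀ x, ψ x = φ^[m] x) (n : ℕ) (x : G) :
    nm φ (m * n) x = nm φ m (nm ψ n x) := by
  induction n with
  | zero => simp [nm_apply]
  | succ n ih =>
    rw [nm_apply ψ, sum_range_succ, map_add, ← nm_apply, ← ih, mul_add_one, nm_apply, sum_range_add,
      funext h, ← Function.iterate_mul]
    simp only [nm_apply, add_comm (m * n), Function.iterate_add_apply]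

lemma herb {δ N : G →+ G} {M J : AddSubgroup G} [Finite M] (h1 : ∀ x, x ∈ J ↔ x ∈ M ∧ δ x = 0)
    (h2 : ∀ x ∈ M, δ x ∈ M ∧ N (δ x) = 0) (h3 : M.map N = J) {y : G} (hy : y ∈ M) (h0 : N y = 0) :
    ∃ x ∈ M, δ x = y := by
  have c : ∀ f : G →+ G, Nat.card (M ⊓ f.ker : AddSubgroup G) * Nat.card (M.map f) = Nat.card M :=
    fun f => by
      rw [← (f.domRestrict M).ker.card_mul_index, AddSubgroup.index_ker, f.domRestrict_range,
        f.ker_domRestrict, ← AddSubgroup.inf_addSubgroupOf_left,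
        Nat.card_congr (AddSubgroup.addSubgroupOfEquivOfLe inf_le_left).toEquiv]
  have c1 := c δ
  have c2 := c N
  rw [h3] at c2
  rw [show M ⊓ δ.ker = J from AddSubgroup.ext fun x => (h1 x).symm, ← c2, mul_comm] at c1
  have : Finite J := .of_injective _ (AddSubgroup.inclusion_injective fun x hx => ((h1 x).1 hx).1)
  have : Finite (M ⊓ N.ker : AddSubgroup G) :=
    .of_injective _ (AddSubgroup.inclusion_injective inf_le_left)
  have := AddSubgroup.eq_of_le_of_card_ge (H := M.map δ) (K := M ⊓ N.ker)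
    (by rintro _ ⟨x, hx, rfl⟩; exact h2 x hx) (Nat.eq_of_mul_eq_mul_right Nat.card_pos c1).ge
  exact this.ge ⟨hy, h0⟩

end

variable {k E : Type} [Field k] [Field E] [Algebra k E] [IsAlgClosed k] [FF k E]

/-- The points of level `m`. -/
noncomputable def fx (σ : SA k E) (m : ℕ) : Finset (Place k E) := fs {P | σ.pl^[m] P = P}

/-- The invariant effective divisors of degree `n`. -/
noncomputable def ef (σ : SA k E) (n : ℕ) : Finset (Dv k E) := fs (Eff σ.pl n)

/-- The invariant classes of degree `n`. -/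
noncomputable def cl (σ : SA k E) (n : ℤ) : Finset (Pic k E) := fs {x | ph σ x = x ∧ dg x = n}

variable {σ : SA k E} {Q m n : ℕ} {x y e K : Pic k E}

lemma mk_Nm (σ : SA k E) (m : ℕ) (P : Place k E) :
    (Nm σ.pl m P : Pic k E) = nm (ph σ) m (cls P) := by
  rw [Nm, QuotientAddGroup.mk_sum, nm_apply]
  exact sum_congr rfl fun i _ => (Function.Semiconj.iterate_right
    (fun P => (ph_cls σ P).symm : Function.Semiconj cls σ.pl (ph σ)) i P :)

lemma dg_nm (σ : SA k E) (m : ℕ) (x : Pic k E) : dg (nm (ph σ) m x) = m * dg x := by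
  have : Function.Semiconj dg (ph σ) id := dg_ph σ
  rw [nm_apply, map_sum, sum_congr rfl (g := fun _ => dg x) fun i _ =>
    (this.iterate_right i x).trans (by simp), sum_const, card_range, nsmul_eq_mul]

lemma G2.iter_iff (g : G2 K) {P : Place k E} : (ph σ)^[m] (cls P) = cls P ↔ σ.pl^[m] P = P := by
  rw [← Function.Semiconj.iterate_right
    (fun P => (ph_cls σ P).symm : Function.Semiconj cls σ.pl (ph σ)) m P]
  exact ⟨g.cls_inj, congrArg _⟩

namespace Fr

variable (h : Fr σ Q) (g : G2 K)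
include h g

lemma fx_spec (hm : m ≠ 0) : {P | σ.pl^[m] P = P}.Finite ∧ #(fx σ m) ≤ 2 * Q ^ m + 2 := by
  obtain ⟨τ, h1, h2, -⟩ := h.pw hm
  obtain ⟨X, h3, h4⟩ := h1.fixed g
  have : {P | σ.pl^[m] P = P} = X := Set.ext fun P => by simp [h3, h2]
  rw [fx, card_fs, this]
  exact ⟨X.finite_toSet, by simpa using h4⟩

lemma mem_fx (hm : m ≠ 0) {P : Place k E} : P ∈ fx σ m ↔ σ.pl^[m] P = P :=
  mem_fs (h.fx_spec g hm).1

lemma mem_ef {A : Dv k E} : A ∈ ef σ n ↔ A ∈ Eff σ.pl n :=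
  mem_fs (eff_finite (fun _ hm => (h.fx_spec g hm).1) n)

lemma exists_ef (hx : ph σ x = x) (hn : dg x = n) (h2 : 2 ≤ n) : ∃ A ∈ ef σ n, (A : Pic k E) = x := by
  obtain ⟨X, h3, h4⟩ := h.count hx hn
  have := g x
  obtain ⟨A, hA⟩ : X.Nonempty := card_ne_zero.1 fun e => by
    rw [e, zero_mul, zero_add, eq_comm, Nat.pow_eq_one] at h4
    have := h.1
    omega
  exact ⟨A, (h.mem_ef g).2 ((h3 A).1 hA).1, ((h3 A).1 hA).2⟩

lemma mem_cl (h2 : 2 ≤ n) : x ∈ cl σ n ↔ ph σ x = x ∧ dg x = n :=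
  mem_fs (((ef σ n).finite_toSet.image QuotientAddGroup.mk).subset fun _ hx =>
    h.exists_ef g hx.1 hx.2 h2)

lemma sum_ef (h2 : 2 ≤ n) (w : Pic k E → ℂ) :
    (Q - 1) * ∑ A ∈ ef σ n, w A = ∑ x ∈ cl σ n, (Q ^ ll x - 1) * w x := by
  rw [← sum_fiberwise_of_maps_to (t := cl σ n) (g := QuotientAddGroup.mk) fun A hA => ?_, mul_sum]
  · refine sum_congr rfl fun x hx => ?_
    obtain ⟨X, h3, h4⟩ := h.count ((h.mem_cl g h2).1 hx).1 ((h.mem_cl g h2).1 hx).2
    rw [sum_congr (s₂ := X) (g := fun _ => w x) (Finset.ext fun A => by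
      rw [mem_filter, h.mem_ef g, h3]) fun A hA => by rw [((h3 A).1 hA).2], sum_const, nsmul_eq_mul,
      ← Nat.cast_pow, ← h4]
    rw [Nat.cast_add, Nat.cast_mul, Nat.cast_sub (one_le_two.trans h.1)]
    push_cast
    ring
  · have hA := (h.mem_ef g).1 hA
    exact (h.mem_cl g h2).2 ⟨ph_inv hA.2.1, hA.2.2⟩

omit g in
lemma ne_one : (Q - 1 : ℂ) ≠ 0 := sub_ne_zero.2 (Nat.cast_ne_one.2 (by have := h.1; omega))

lemma sum_two (w : Pic k E → ℂ) : ∑ A ∈ ef σ 2, w A = ∑ x ∈ cl σ 2, w x + Q * w K := by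
  have hK : K ∈ cl σ (2 : ℕ) := (h.mem_cl g le_rfl).2 ⟨g.ph_K σ, g.dg_K⟩
  refine mul_left_cancel₀ h.ne_one ?_
  rw [h.sum_ef g le_rfl, ← add_sum_erase _ _ hK, show cl σ 2 = cl σ (2 : ℕ) from rfl,
    ← add_sum_erase _ _ hK, g.ll_K, sum_congr rfl (g := fun x => (Q - 1) * w x) fun x hx => by
      rw [g.two ((h.mem_cl g le_rfl).1 (mem_of_mem_erase hx)).2 (ne_of_mem_erase hx), pow_one],
    ← mul_sum]
  ring

lemma newt (w : Pic k E → ℂ) (hw : ∀ x y, ph σ x = x → ph σ y = y → w (x + y) = w x * w y) :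
    Newt (fun n => ∑ A ∈ ef σ n, w A) fun m => ∑ P ∈ fx σ m, w (nm (ph σ) m (cls P)) := by
  simpa only [mk_Nm] using newton (ef σ) (fun _ _ => h.mem_ef g) (fx σ)
    (fun _ hm _ => h.mem_fx g hm) (fun A => w A) fun A B hA hB => hw _ _ (ph_inv hA) (ph_inv hB)

lemma ef_zero : ef σ 0 = {0} := Finset.ext fun A => by
  rw [h.mem_ef g, eff_zero, mem_singleton, Set.mem_singleton_iff]

theorem lchi (w : Pic k E → ℂ) (w0 : w 0 = 1)
    (hw : ∀ x y, ph σ x = x → ph σ y = y → w (x + y) = w x * w y) {a : Pic k E} (a1 : ph σ a = a)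
    (a2 : dg a = 0) (a3 : w a ≠ 1) {α β : ℂ} (h1 : α + β = -∑ P ∈ fx σ 1, w (cls P))
    (h2 : α * β = Q * w K) (hm : m ≠ 0) :
    ∑ P ∈ fx σ m, w (nm (ph σ) m (cls P)) = -(α ^ m + β ^ m) := by
  have N := h.newt g w hw
  have z : ∀ n : ℕ, 2 ≤ n → ∑ x ∈ cl σ n, w x = 0 := fun n hn => by
    refine eq_zero_of_mul_eq_self_left a3 ?_
    rw [mul_sum]
    refine sum_equiv (Equiv.addLeft a) (fun x => ?_) fun x hx =>
      (hw _ _ a1 ((h.mem_cl g hn).1 hx).1).symm
    simp [h.mem_cl g hn, a1, a2]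
  have e0 : ∑ A ∈ ef σ 0, w A = 1 := by rw [h.ef_zero g, sum_singleton]; exact w0
  have e : (fun n => ∑ A ∈ ef σ n, w A) = qd α β := funext fun n => match n with
    | 0 => e0
    | 1 => by
      have := N 1
      simp only [sum_range_one, e0, nm_apply, Nat.sub_zero, Function.iterate_zero_apply] at this
      rw [qd, h1]
      simpa using this
    | 2 => by rw [h.sum_two g, qd, h2]; exact (congrArg (· + _) (z 2 le_rfl)).trans (zero_add _)
    | n + 3 => by
      refine mul_left_cancel₀ h.ne_one ?_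
      rw [h.sum_ef g (by omega), qd, mul_zero,
        sum_congr rfl (g := fun x => (Q ^ (n + 2) - 1) * w x) fun x hx => ?_, ← mul_sum,
        z _ (by omega), mul_zero]
      have d := ((h.mem_cl g (by omega)).1 hx).2
      have := g.big (x := x) (by omega)
      rw [show ll x = n + 2 by omega]
  rw [e] at N
  exact N.s_eq (newt_qd α β) rfl m hm

lemma newt1 : Newt (fun n => #(ef σ n)) fun m => #(fx σ m) := by
  simpa using h.newt g (fun _ => 1) fun _ _ _ _ => (one_mul _).symm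

lemma class_no : 2 * (#(cl σ 2) + Q) = #(fx σ 2) + #(fx σ 1) ^ 2 := by
  have N := h.newt1 g
  have e1 := N 1
  have e2 := N 2
  have e3 := h.sum_two g fun _ => 1
  simp only [sum_range_succ, range_zero, sum_empty, h.ef_zero g, card_singleton, sum_const,
    nsmul_eq_mul, mul_one, Nat.sub_zero, zero_add, Nat.cast_one, one_mul] at e1 e2 e3
  rw [e3, e1] at e2
  rw [sq]
  exact_mod_cast e2

end Fr

end Pool.Agent.P.MP_9344a7_nt.R
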