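import Pool.Agent.P.MP_ab3ecb_nt.Inv.BaseG

/-! Euler products in the form of the identities of Newton. -/

namespace Pool.Agent.P.MP_9344a7_nt.R

open Finset Polynomial
open Pool.Agent.P.MP_6f117a_ag (Place)
open Pool.Agent.P.MP_ab3ecb_nt.Inv
open scoped Classical

/-- `s` is the sequence of power sums of the series `W`. -/
def Newt (W s : ℕ → ℂ) : Prop := ∀ n : ℕ, n * W n = ∑ j ∈ range n, s (n - j) * W j

lemma Newt.s_eq {W s s' : ℕ → ℂ} (h : Newt W s) (h' : Newt W s') (h0 : W 0 = 1) (n : ℕ)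
    (hn : n ≠ 0) : s n = s' n := by
  induction n using Nat.strong_induction_on with
  | _ n ih =>
    obtain ⟨n, rfl⟩ := Nat.exists_eq_succ_of_ne_zero hn
    have := (h (n + 1)).symm.trans (h' (n + 1))
    rw [sum_range_succ', sum_range_succ', h0, mul_one, mul_one, sum_congr rfl fun j hj => by
      rw [ih (n + 1 - (j + 1)) (by omega) (by have := mem_range.1 hj; omega)]] at this
    exact add_left_cancel this

lemma Newt.W_eq {W W' s s' : ℕ → ℂ} (h : Newt W s) (h' : Newt W' s') (h0 : W 0 = W' 0)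
    (hs : ∀ n, n ≠ 0 → s n = s' n) (n : ℕ) : W n = W' n := by
  induction n using Nat.strong_induction_on with
  | _ n ih =>
    rcases eq_or_ne n 0 with rfl | hn
    · exact h0
    refine mul_left_cancel₀ (Nat.cast_ne_zero.2 hn : (n : ℂ) ≠ 0) ?_
    rw [h, h']
    exact sum_congr rfl fun j hj => by
      rw [ih j (mem_range.1 hj), hs _ (by have := mem_range.1 hj; omega)]

/-- The coefficients of `(1 - a T) (1 - b T)`. -/
noncomputable def qd (a b : ℂ) : ℕ → ℂ
  | 0 => 1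
  | 1 => -(a + b)
  | 2 => a * b
  | _ + 3 => 0

lemma newt_qd (a b : ℂ) : Newt (qd a b) fun m => -(a ^ m + b ^ m)
  | 0 => by simp
  | 1 => by simp [qd]
  | 2 => by simp [qd, sum_range_succ]; ring
  | n + 3 => by
    rw [sum_range_succ', sum_range_succ', sum_range_succ']
    simp only [qd, mul_zero, sum_const_zero, show n + 3 - (0 + 1 + 1) = n + 1 from rfl,
      show n + 3 - (0 + 1) = n + 2 from rfl, Nat.sub_zero]
    ring

lemma common_root {ι κ : Type} (s : Finset ι) (t : Finset κ) (x : ι → ℂ) (y : κ → ℂ)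
    (h : ∀ m, m ≠ 0 → ∑ i ∈ s, x i ^ m = ∑ j ∈ t, y j ^ m) {i0 : ι} (h0 : i0 ∈ s)
    (h1 : x i0 ≠ 0) : ∃ j ∈ t, y j = x i0 := by
  by_contra h2
  push Not at h2
  have key : ∀ r : ℂ[X], ∑ i ∈ s, x i * r.eval (x i) = ∑ j ∈ t, y j * r.eval (y j) := fun r => by
    induction r using Polynomial.induction_on' with
    | add p q hp hq => simp only [eval_add, mul_add, sum_add_distrib, hp, hq]
    | monomial n c =>
      have e : ∀ z : ℂ, z * eval z (monomial n c) = c * z ^ (n + 1) := fun z => by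
        rw [eval_monomial]; ring
      simp only [e, ← mul_sum, h (n + 1) n.succ_ne_zero]
  obtain ⟨Z, hZ⟩ : ∃ Z : Finset ℂ, ∀ z, z ∈ Z ↔ z ≠ x i0 ∧ (z ∈ s.image x ∨ z ∈ t.image y) :=
    ⟨(s.image x ∪ t.image y).erase (x i0), fun z => by rw [mem_erase, mem_union]⟩
  have h3 := key (∏ z ∈ Z, (X - C z))
  simp only [eval_prod, eval_sub, eval_X, eval_C] at h3
  have h4 : ∀ z ∈ Z, z * ∏ w ∈ Z, (z - w) = 0 := fun z hz => by
    rw [prod_eq_zero hz (sub_self z), mul_zero]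
  have h5 : ∑ j ∈ t, y j * ∏ w ∈ Z, (y j - w) = 0 :=
    sum_eq_zero fun j hj => h4 _ ((hZ _).2 ⟨h2 j hj, .inr (mem_image_of_mem y hj)⟩)
  have h6 : ∀ i ∈ s, x i * ∏ w ∈ Z, (x i - w) =
      if x i = x i0 then x i0 * ∏ w ∈ Z, (x i0 - w) else 0 := fun i hi => by
    split_ifs with e
    · rw [e]
    · exact h4 _ ((hZ _).2 ⟨e, .inl (mem_image_of_mem x hi)⟩)
  rw [h5, sum_congr rfl h6, ← sum_filter, sum_const, nsmul_eq_mul] at h3
  have h7 : i0 ∈ s.filter fun i => x i = x i0 := mem_filter.2 ⟨h0, rfl⟩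
  have h8 : ∏ w ∈ Z, (x i0 - w) ≠ 0 :=
    prod_ne_zero_iff.2 fun z hz => sub_ne_zero.2 ((hZ z).1 hz).1.symm
  exact mul_ne_zero (Nat.cast_ne_zero.2 (card_ne_zero_of_mem h7)) (mul_ne_zero h1 h8) h3

variable {k E : Type} [Field k] [Field E] [Algebra k E] (τ : Equiv.Perm (Place k E))

/-- Effective invariant divisors of degree `n`. -/
def Eff (n : ℕ) : Set (Dv k E) := {A | 0 ≤ A ∧ (∀ P, A (τ P) = A P) ∧ deg A = n}

/-- The norm of a point. -/
noncomputable def Nm (m : ℕ) (P : Place k E) : Dv k E :=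
  ∑ i ∈ range m, Finsupp.single (τ^[i] P) 1

variable {τ} {m n : ℕ} {P : Place k E} {A : Dv k E}

lemma deg_Nm (m : ℕ) (P : Place k E) : deg (Nm τ m P) = m := by simp [Nm]

lemma Nm_nonneg (m : ℕ) (P : Place k E) : 0 ≤ Nm τ m P :=
  sum_nonneg fun _ _ => Finsupp.single_nonneg.2 zero_le_one

lemma Nm_inv (h : τ^[m] P = P) (Q : Place k E) : Nm τ m P (τ Q) = Nm τ m P Q := by
  have h1 := sum_range_succ' (fun i => Finsupp.single (τ^[i] P) (1 : ℤ) (τ Q)) m
  rw [sum_range_succ, h, Function.iterate_zero_apply, add_left_inj] at h1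
  rw [Nm, Finsupp.finsetSum_apply, Finsupp.finsetSum_apply, h1]
  exact sum_congr rfl fun i _ => by
    rw [Function.iterate_succ_apply', Finsupp.single_apply_left τ.injective]

lemma Nm_self (m : ℕ) (P : Place k E) : Nm τ m P P = Nat.count (fun i => τ^[i] P = P) m := by
  rw [Nm, Finsupp.finsetSum_apply, Nat.count_eq_card_filter_range, card_filter]
  simp [Finsupp.single_apply]

lemma inv_iter (h : ∀ P, A (τ P) = A P) (i : ℕ) (P : Place k E) : A (τ^[i] P) = A P := by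
  induction i with
  | zero => rfl
  | succ i ih => rw [Function.iterate_succ_apply', h, ih]

lemma Nm_le (hA : A ∈ Eff τ n) (h : τ^[m] P = P) : Nm τ m P ≤ A ↔ Nm τ m P P ≤ A P := by
  refine ⟨fun h => h P, fun h1 Q => ?_⟩
  by_cases h2 : ∃ i, τ^[i] P = Q
  · obtain ⟨i, rfl⟩ := h2
    rwa [inv_iter hA.2.1, inv_iter (Nm_inv h)]
  · rw [Nm, Finsupp.finsetSum_apply, sum_eq_zero fun i _ =>
      Finsupp.single_eq_of_ne' fun e => h2 ⟨i, e⟩]
    exact hA.1 Q

lemma count_loc (hA : A ∈ Eff τ n) (hP : P ∈ A.support) :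
    (#{j ∈ range n | τ^[n - j] P = P ∧ Nm τ (n - j) P ≤ A} : ℤ) = A P := by
  obtain ⟨d, d0, hd⟩ : ∃ d, d ≠ 0 ∧ τ^[d] P = P := by
    obtain ⟨i, j, h1, h2⟩ := Set.Finite.exists_lt_map_eq_of_forall_mem (f := fun i : ℕ => τ^[i] P)
      (t := A.support) (fun i => by simpa [inv_iter hA.2.1] using hP) A.support.finite_toSet
    obtain ⟨d, rfl⟩ := Nat.exists_eq_add_of_lt h1
    rw [add_assoc, Function.iterate_add_apply] at h2
    exact ⟨d + 1, d.succ_ne_zero, (τ.injective.iterate i h2).symm⟩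
  have inf : {i | τ^[i] P = P}.Infinite := Set.infinite_of_injective_forall_mem
    (f := fun j => d * j) (mul_right_injective₀ d0) fun j => by
      change τ^[d * j] P = P
      rw [Function.iterate_mul]
      exact Function.iterate_fixed hd j
  have h0 : 0 ≤ A P := hA.1 P
  rw [← Int.toNat_of_nonneg h0, Nat.cast_inj, ← add_tsub_cancel_right (A P).toNat 1,
    ← Nat.card_Icc]
  refine card_bij (fun j _ => Nat.count (fun i => τ^[i] P = P) (n - j)) (fun j hj => ?_)
    (fun i hi j hj e => ?_) fun r hr => ?_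
  · rw [mem_filter, mem_range] at hj
    have := hj.2.2 P
    rw [Nm_self] at this
    exact mem_Icc.2 ⟨Nat.pos_of_ne_zero
      (Nat.count_ne_iff_exists.2 ⟨0, by omega, rfl⟩), by omega⟩
  · rw [mem_filter, mem_range] at hi hj
    have := Nat.count_injective hi.2.1 hj.2.1 e
    omega
  · rw [mem_Icc] at hr
    set m := Nat.nth (fun i => τ^[i] P = P) r
    have h1 : τ^[m] P = P := Nat.nth_mem_of_infinite inf r
    have h2 : Nat.count (fun i => τ^[i] P = P) m = r := Nat.count_nth_of_infinite inf r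
    have h3 : Nm τ m P ≤ A := (Nm_le hA h1).2 (by rw [Nm_self, h2]; omega)
    have h4 := deg_mono h3
    rw [deg_Nm, hA.2.2] at h4
    have h5 : m ≠ 0 := fun e => by rw [e, Nat.count_zero] at h2; omega
    have e : n - (n - m) = m := by omega
    exact ⟨n - m, mem_filter.2 ⟨mem_range.2 (by omega), by rw [e]; exact ⟨h1, h3⟩⟩, by rw [e, h2]⟩

lemma sub_Nm {j : ℕ} (hA : A ∈ Eff τ n) (hj : j < n) (h : τ^[n - j] P = P)
    (h1 : Nm τ (n - j) P ≤ A) : A - Nm τ (n - j) P ∈ Eff τ j :=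
  ⟨sub_nonneg.2 h1, fun Q => by simp [hA.2.1, Nm_inv h], by
    rw [map_sub, hA.2.2, deg_Nm]; omega⟩

lemma eff_zero : Eff τ 0 = {0} := by
  ext A
  exact ⟨fun h => eq_zero_of_deg h.1 h.2.2, by rintro rfl; exact ⟨le_rfl, fun _ => rfl, rfl⟩⟩

lemma eff_finite (hf : ∀ m, m ≠ 0 → {P | τ^[m] P = P}.Finite) (n : ℕ) : (Eff τ n).Finite := by
  induction n using Nat.strong_induction_on with
  | _ n ih =>
    rcases eq_or_ne n 0 with rfl | hn
    · rw [eff_zero]; exact Set.finite_singleton _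
    refine ((Set.finite_lt_nat n).biUnion fun j hj => (hf (n - j) (by have : j < n := hj; omega)).image2
      (fun P B => B + Nm τ (n - j) P) (ih j hj)).subset fun A hA => ?_
    obtain ⟨P, hP⟩ := Finsupp.support_nonempty_iff.2 (fun e : A = 0 => hn (by
      have := hA.2.2
      rw [e, map_zero] at this
      omega))
    have := count_loc hA hP
    obtain ⟨j, hj⟩ := card_ne_zero.1 fun e => Finsupp.mem_support_iff.1 hP (by
      rw [← this, e, Nat.cast_zero])
    rw [mem_filter, mem_range] at hj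
    exact Set.mem_biUnion hj.1 ⟨P, hj.2.1, _, sub_Nm hA hj.1 hj.2.1 hj.2.2, sub_add_cancel _ _⟩

theorem newton (Ef : ℕ → Finset (Dv k E)) (hE : ∀ n A, A ∈ Ef n ↔ A ∈ Eff τ n)
    (Fx : ℕ → Finset (Place k E)) (hF : ∀ m, m ≠ 0 → ∀ P, P ∈ Fx m ↔ τ^[m] P = P)
    (w : Dv k E → ℂ) (hw : ∀ A B : Dv k E, (∀ P, A (τ P) = A P) → (∀ P, B (τ P) = B P) →
      w (A + B) = w A * w B) :
    Newt (fun n => ∑ A ∈ Ef n, w A) fun m => ∑ P ∈ Fx m, w (Nm τ m P) := fun n => by
  have e1 : ∀ j ∈ range n, (∑ P ∈ Fx (n - j), w (Nm τ (n - j) P)) * ∑ B ∈ Ef j, w B =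
      ∑ A ∈ Ef n, ∑ P ∈ A.support,
        if τ^[n - j] P = P ∧ Nm τ (n - j) P ≤ A then w A else 0 := fun j hj => by
    have hj := mem_range.1 hj
    have hF := hF (n - j) (by omega)
    rw [sum_mul_sum, sum_congr rfl (g := fun P => ∑ A ∈ Ef n, if Nm τ (n - j) P ≤ A then w A else 0)
      fun P hP => ?_, sum_comm]
    · refine sum_congr rfl fun A _ => ?_
      rw [← sum_filter, ← sum_filter]
      refine sum_congr (Finset.ext fun P => ?_) fun _ _ => rfl
      rw [mem_filter, mem_filter, hF]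
      refine ⟨fun h => ⟨Finsupp.mem_support_iff.2 ?_, h⟩, fun h => h.2⟩
      have := h.2 P
      rw [Nm_self] at this
      have : Nat.count (fun i => τ^[i] P = P) (n - j) ≠ 0 :=
        Nat.count_ne_iff_exists.2 ⟨0, by omega, rfl⟩
      omega
    · rw [← sum_filter]
      refine sum_bij (fun B _ => Nm τ (n - j) P + B) (fun B hB => ?_)
        (fun _ _ _ _ => add_left_cancel) (fun A hA => ?_) fun B hB =>
        (hw _ _ (Nm_inv ((hF P).1 hP)) ((hE _ _).1 hB).2.1).symm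
      · have hB := (hE _ _).1 hB
        refine mem_filter.2 ⟨(hE _ _).2 ⟨add_nonneg (Nm_nonneg _ _) hB.1, fun Q => ?_, ?_⟩,
          le_add_of_nonneg_right hB.1⟩
        · simp [hB.2.1, Nm_inv ((hF P).1 hP)]
        · rw [map_add, hB.2.2, deg_Nm]; omega
      · rw [mem_filter] at hA
        exact ⟨_, (hE _ _).2 (sub_Nm ((hE _ _).1 hA.1) hj ((hF P).1 hP) hA.2), add_sub_cancel _ _⟩
  rw [sum_congr rfl e1, sum_comm, mul_sum]
  refine sum_congr rfl fun A hA => ?_
  have hA := (hE _ _).1 hA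
  have e2 : (n : ℂ) = ∑ P ∈ A.support, (A P : ℂ) := by
    rw [← Int.cast_sum, ← deg_eq, hA.2.2, Int.cast_natCast]
  rw [sum_comm, e2, sum_mul]
  refine sum_congr rfl fun P hP => ?_
  rw [← sum_filter, sum_const, nsmul_eq_mul, ← count_loc hA hP, Int.cast_natCast]

end Pool.Agent.P.MP_9344a7_nt.R
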