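import Pool.Agent.P.MP_9344a7_nt.Defs
import Pool.Agent.P.MP_9344a7_nt.Dual
import Pool.Agent.P.MP_9344a7_nt.Lang
import Pool.Agent.P.MP_9344a7_nt.Newt

/-! Divisor classes on a curve of genus two and the count of invariant effective divisors. -/

namespace Pool.Agent.P.MP_9344a7_nt.R

open WithZero Module Finset
open Pool.Agent.P.MP_6f117a_ag (Place FF)
open Pool.Agent.P.MP_ab3ecb_nt.Inv
open scoped Classical

set_option linter.unusedSectionVars false

variable {k E : Type} [Field k] [Field E] [Algebra k E] [IsAlgClosed k] [FF k E]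

lemma ell_eq (D : Dv k E) : ell D = finrank k (LS D) := by
  rw [ell, show {z : E | ∀ P : Place k E, P.v z ≤ exp (D P)} = (LS D : Set E) from
    Set.ext fun _ => mem_LS.symm, Submodule.span_eq]

lemma degree_eq (D : Dv k E) : degree D = deg D := rfl

lemma mem_Prin {D : Dv k E} : D ∈ MP_9344a7_nt.Prin k E ↔ Prin D :=
  exists_congr fun z => and_congr_right fun hz =>
    ⟨fun h => Finsupp.ext fun P => by rw [dv_apply, (ord_eq_iff hz).2 (h P)],
      fun h P => (ord_eq_iff hz).1 (by rw [← h, dv_apply])⟩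

lemma mk_eq {D D' : Dv k E} : (D : Pic k E) = D' ↔ Prin (D - D') :=
  QuotientAddGroup.eq_iff_sub_mem.trans mem_Prin

/-- The degree of a class. -/
noncomputable def dg : Pic k E →+ ℤ := QuotientAddGroup.lift _ deg fun D h =>
  (Prin.deg_eq (D' := 0) (by simpa using mem_Prin.1 h)).trans (map_zero _)

@[simp] lemma dg_mk (D : Dv k E) : dg (D : Pic k E) = deg D := rfl

@[simp] lemma dg_cls (P : Place k E) : dg (cls P) = 1 := deg_single P 1

lemma hasDeg {x : Pic k E} {n : ℤ} : HasDeg x n ↔ dg x = n :=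
  ⟨by rintro ⟨D, rfl, rfl⟩; rfl, fun h => by
    obtain ⟨D, rfl⟩ := QuotientAddGroup.mk_surjective x
    exact ⟨D, rfl, h⟩⟩

/-- The dimension of a class. -/
noncomputable def ll (x : Pic k E) : ℕ := finrank k (LS x.out)

lemma ll_mk (D : Dv k E) : ll (D : Pic k E) = finrank k (LS D) :=
  (mk_eq.1 (QuotientAddGroup.out_eq' _)).finrank_eq

lemma ll_zero : ll (0 : Pic k E) = 1 := (ll_mk 0).trans rr_zero

variable {x y K : Pic k E} {P Q P' Q' : Place k E}

lemma ll_neg (h : dg x < 0) : ll x = 0 := by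
  obtain ⟨D, rfl⟩ := QuotientAddGroup.mk_surjective x
  rw [ll_mk, LS_eq_bot h, finrank_bot]

lemma ll_eff (h : ll x ≠ 0) : ∃ A : Dv k E, 0 ≤ A ∧ (A : Pic k E) = x := by
  obtain ⟨D, rfl⟩ := QuotientAddGroup.mk_surjective x
  obtain ⟨A, h1, h2⟩ := exists_eff (ll_mk D ▸ h)
  exact ⟨A, h1, mk_eq.2 h2⟩

lemma ll_deg0 (h0 : dg x = 0) (h : ll x ≠ 0) : x = 0 := by
  obtain ⟨A, h1, rfl⟩ := ll_eff h
  rw [eq_zero_of_deg h1 h0]
  rfl

lemma ll_deg1 (h0 : dg x = 1) (h : ll x ≠ 0) : ∃ P, cls P = x := by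
  obtain ⟨A, h1, rfl⟩ := ll_eff h
  obtain ⟨P, hP⟩ := Finsupp.support_nonempty_iff.2 fun e : A = 0 => by simp [e] at h0
  have h2 : 0 ≤ A - Finsupp.single P 1 := sub_nonneg.2 fun Q => by
    rw [Finsupp.single_apply]
    split_ifs with e
    · exact e ▸ lt_of_le_of_ne (h1 P) (Finsupp.mem_support_iff.1 hP).symm
    · exact h1 Q
  have h3 := eq_zero_of_deg h2 (by rw [map_sub, deg_single, ← dg_mk, h0, sub_self])
  exact ⟨P, congrArg _ (sub_eq_zero.1 h3).symm⟩

/-- The theorem of Riemann-Roch in genus two, `K` being the canonical class. -/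
def G2 (K : Pic k E) : Prop := ∀ x, (ll x : ℤ) = dg x - 1 + ll (K - x)

lemma exists_G2 {t : E} (ht : Transcendental k t) (h : Genus k E 2) : ∃ K : Pic k E, G2 K := by
  obtain ⟨g, R⟩ := exists_RR ht
  obtain ⟨O, -⟩ := PL.exists_pole ht
  obtain ⟨c, hc⟩ := R.big
  obtain ⟨⟨D, h1⟩, h2⟩ := h
  have h3 := h2 ⟨Finsupp.single O c, rfl⟩
  have h4 := R.rie D
  have h5 := hc (Finsupp.single O c) (by simp)
  simp only [ell_eq, degree_eq] at h1 h3
  obtain ⟨W, hW⟩ := R.canonical O
  suffices G2 (W : Pic k E) from ⟨_, this⟩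
  intro x
  obtain ⟨D, rfl⟩ := QuotientAddGroup.mk_surjective x
  rw [← QuotientAddGroup.mk_sub, ll_mk, ll_mk, hW, dg_mk]
  omega

namespace G2

variable (h : G2 K)
include h

lemma ll_K : ll K = 2 := by
  have := h 0
  rw [ll_zero, map_zero, sub_zero] at this
  omega

lemma dg_K : dg K = 2 := by
  have := h K
  rw [h.ll_K, sub_self, ll_zero] at this
  omega

lemma big (h3 : 3 ≤ dg x) : (ll x : ℤ) = dg x - 1 := by
  rw [h x, ll_neg (x := K - x) (by rw [map_sub, h.dg_K]; omega)]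
  simp

lemma two (h2 : dg x = 2) (hx : x ≠ K) : ll x = 1 := by
  have := h x
  have h1 : ll (K - x) = 0 := by_contra fun e =>
    hx (sub_eq_zero.1 (ll_deg0 (by rw [map_sub, h.dg_K, h2, sub_self]) e)).symm
  omega

lemma ll_cls (P : Place k E) : ll (cls P) = 1 := by
  have := rr_fd (Finsupp.single P 1 + Finsupp.single P 1)
  have := rr_fd (Finsupp.single P 1)
  have l1 : (0 : Dv k E) ≤ Finsupp.single P 1 := Finsupp.single_nonneg.2 zero_le_one
  have a1 := Submodule.finrank_mono (LS_mono l1)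
  by_contra h1
  rw [cls, ll_mk] at h1
  obtain ⟨f, f1, f2⟩ := SetLike.exists_of_lt (lt_of_le_of_ne (LS_mono l1) fun e => h1 (by
    rw [← e, rr_zero]))
  have f0 : f ≠ 0 := fun e => f2 (by rw [e]; exact zero_mem _)
  have f3 := (mem_LS' f0).1 f1
  have f4 : f * f ∈ LS (Finsupp.single P 1 + Finsupp.single P 1) :=
    (mem_LS' (mul_ne_zero f0 f0)).2 (by
      rw [dv_mul f0 f0, add_add_add_comm]; exact add_nonneg f3 f3)
  have f5 : f * f ∉ LS (Finsupp.single P 1) := fun e => f2 ((mem_LS' f0).2 fun Q => by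
    have e1 := (mem_LS' (mul_ne_zero f0 f0)).1 e Q
    rw [dv_mul f0 f0] at e1
    have : Finsupp.single P (1 : ℤ) Q ≤ 1 := by rw [Finsupp.single_apply]; split_ifs <;> simp
    simp only [Finsupp.add_apply, Finsupp.zero_apply] at e1 ⊢
    omega)
  have a2 := Submodule.finrank_lt_finrank_of_lt (lt_of_le_of_ne
    (LS_mono (le_add_of_nonneg_right l1)) fun e => f5 (e.ge f4))
  rw [rr_zero] at a1
  rw [← ll_mk (_ + _)] at a2
  by_cases e : ((Finsupp.single P 1 + Finsupp.single P 1 : Dv k E) : Pic k E) = K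
  · rw [e, h.ll_K] at a2
    omega
  · rw [h.two (by simp) e] at a2
    omega

lemma cls_inj (e : cls P = cls Q) : P = Q := by
  have l : ∀ P : Place k E, (0 : Dv k E) ≤ Finsupp.single P 1 := fun P =>
    Finsupp.single_nonneg.2 zero_le_one
  exact Finsupp.single_left_injective one_ne_zero
    (eff_unique ((ll_mk _).symm.trans (h.ll_cls Q)) (l Q) (l P) (mk_eq.1 e))

lemma conj (P : Place k E) : ∃ Q, cls Q = K - cls P := by
  have := h (cls P)
  rw [h.ll_cls, dg_cls] at this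
  exact ll_deg1 (by rw [map_sub, h.dg_K, dg_cls]; rfl) (by omega)

lemma sid (e : cls P + cls Q' = cls P' + cls Q) : P = P' ∨ P = Q ∨ cls P + cls Q' = K := by
  have l : ∀ P Q : Place k E, (0 : Dv k E) ≤ Finsupp.single P 1 + Finsupp.single Q 1 :=
    fun P Q => add_nonneg (Finsupp.single_nonneg.2 zero_le_one)
      (Finsupp.single_nonneg.2 zero_le_one)
  by_contra h1
  push Not at h1
  have h2 := DFunLike.congr_fun (eff_unique ((ll_mk _).symm.trans
    (h.two (x := cls P + cls Q') (by simp) h1.2.2)) (l P Q') (l P' Q) (mk_eq.1 e.symm)) P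
  have : (0 : Dv k E) P ≤ Finsupp.single Q' 1 P := Finsupp.single_nonneg.2 zero_le_one P
  simp only [Finsupp.add_apply, Finsupp.single_eq_same, Finsupp.single_eq_of_ne h1.1,
    Finsupp.single_eq_of_ne h1.2.1, Finsupp.zero_apply] at h2 this
  omega

end G2

end Pool.Agent.P.MP_9344a7_nt.R
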