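import Pool.Agent.P.MP_ab3ecb_nt.Inv.BaseG

/-! The theorem of Riemann (a copy of the text used for another problem, with fewer imports). -/

namespace Pool.Agent.P.MP_9344a7_nt.R

open WithZero Polynomial Module
open Pool.Agent.P.MP_6f117a_ag (Place FF Model Reg)
open Pool.Agent.P.MP_ab3ecb_nt.Inv
open scoped IntermediateField Classical

set_option linter.unusedSectionVars false

section rr

variable {k E : Type} [Field k] [Field E] [Algebra k E]

/-- Principal divisors. -/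
def Prin (D : Dv k E) : Prop := ∃ z : E, z ≠ 0 ∧ dv k z = D

variable (k E) in
/-- The theorem of Riemann, with genus `g`. -/
structure RR (g : ℕ) : Prop where
  fd : ∀ D : Dv k E, FiniteDimensional k (LS D)
  rie : ∀ D : Dv k E, deg D + 1 - g ≤ finrank k (LS D)
  big : ∃ c : ℤ, ∀ D : Dv k E, c ≤ deg D → (finrank k (LS D) : ℤ) = deg D + 1 - g
  exc : ∀ D : Dv k E, deg D + 1 - g < finrank k (LS D) →
    {Q | finrank k (LS (D + Finsupp.single Q 1)) ≠ finrank k (LS D)}.Finite
  le : ∀ D : Dv k E, 0 ≤ deg D → (finrank k (LS D) : ℤ) ≤ deg D + 1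
  step : ∀ (D : Dv k E) Q, finrank k (LS (D + Finsupp.single Q 1)) ≤ finrank k (LS D) + 1

variable [IsAlgClosed k] [FF k E] {D D' A A' : Dv k E} {g : ℕ} {x y z : E}

lemma Prin.zero : Prin (0 : Dv k E) := ⟨1, one_ne_zero, dv_one⟩

lemma Prin.add (h : Prin D) (h' : Prin D') : Prin (D + D') := by
  obtain ⟨z, h1, rfl⟩ := h
  obtain ⟨w, h2, rfl⟩ := h'
  exact ⟨z * w, mul_ne_zero h1 h2, dv_mul h1 h2⟩

lemma Prin.neg (h : Prin D) : Prin (-D) := by
  obtain ⟨z, h1, rfl⟩ := h
  exact ⟨z⁻¹, inv_ne_zero h1, dv_inv z⟩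

lemma Prin.sub (h : Prin D) (h' : Prin D') : Prin (D - D') := by
  rw [sub_eq_add_neg]
  exact h.add h'.neg

lemma Prin.nsmul (h : Prin D) (n : ℕ) : Prin (n • D) := by
  obtain ⟨z, h1, rfl⟩ := h
  exact ⟨z ^ n, pow_ne_zero n h1, dv_pow z n⟩

lemma Prin.dm (h : Prin D) (σ : SA k E) : Prin (σ.dm D) := by
  obtain ⟨z, h1, rfl⟩ := h
  exact ⟨σ.s z, (map_ne_zero σ.s).2 h1, σ.dv_s z⟩

lemma Prin.deg_eq (h : Prin (D - D')) : deg D = deg D' := by
  obtain ⟨z, -, h1⟩ := h
  have := deg_dv (k := k) z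
  rwa [h1, map_sub, sub_eq_zero] at this

lemma Prin.finrank_eq (h : Prin (D - D')) : finrank k (LS D) = finrank k (LS D') := by
  obtain ⟨z, h0, h1⟩ := h
  rw [← finrank_LS_add_dv h0 D', h1, add_sub_cancel]

lemma exists_eff (h : finrank k (LS D) ≠ 0) : ∃ A, 0 ≤ A ∧ Prin (A - D) := by
  obtain ⟨z, h1, h0⟩ := Submodule.exists_mem_ne_zero_of_ne_bot (p := LS D) fun h1 =>
    h (by rw [h1, finrank_bot])
  exact ⟨_, (mem_LS' h0).1 h1, z, h0, (add_sub_cancel_right _ _).symm⟩

lemma RR.exists_eff (R : RR k E g) (h : (g : ℤ) ≤ deg D) : ∃ A, 0 ≤ A ∧ Prin (A - D) :=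
  MP_9344a7_nt.R.exists_eff fun h1 => by
    have := R.rie D
    omega

lemma const_of_finrank (h : finrank k (LS A) = 1) (hA : 0 ≤ A) (hz : z ∈ LS A) :
    ∃ c, algebraMap k E c = z := by
  have h1 : (1 : E) ∈ LS A := (mem_LS' one_ne_zero).2 (by simpa using hA)
  obtain ⟨c, hc⟩ := (finrank_eq_one_iff_of_nonzero' (⟨1, h1⟩ : LS A)
    (by simp [Subtype.ext_iff])).1 h ⟨z, hz⟩
  exact ⟨c, by simpa [Algebra.smul_def, Subtype.ext_iff] using hc⟩

/-- An effective divisor that does not move is determined by its class. -/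
lemma eff_unique (h : finrank k (LS A) = 1) (hA : 0 ≤ A) (hA' : 0 ≤ A') (hp : Prin (A' - A)) :
    A' = A := by
  obtain ⟨z, h0, h1⟩ := hp
  obtain ⟨c, rfl⟩ := const_of_finrank h hA ((mem_LS' h0).2 (by rwa [h1, sub_add_cancel]))
  rw [dv_const, eq_comm, sub_eq_zero] at h1
  exact h1

end rr

section

variable {k E : Type} [Field k] [Field E] [Algebra k E]

lemma rr_fam {t : E} (ht : Transcendental k t) {n : ℕ} {g : Fin n → E}
    (hg : LinearIndependent k⟮t⟯ g) (r : ℕ) : finrank k (Submodule.span k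
      (Set.range fun p : Fin r × Fin n => t ^ (p.1 : ℕ) * g p.2)) = r * n := by
  have h0 : LinearIndependent k fun j : ℕ => t ^ j := by
    simpa [Function.comp_def, aeval_monomial] using (basisMonomials k).linearIndependent.map'
      (aeval t : k[X] →ₐ[k] E).toLinearMap
      (LinearMap.ker_eq_bot.2 (transcendental_iff_injective.1 ht))
  have h1 : LinearIndependent k fun j : Fin r =>
      IntermediateField.AdjoinSimple.gen k t ^ (j : ℕ) :=
    LinearIndependent.of_comp (k⟮t⟯.val).toLinearMap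
      (h0.comp (Fin.val : Fin r → ℕ) Fin.val_injective)
  have := finrank_span_eq_card (linearIndependent_smul h1 hg)
  rwa [Fintype.card_prod, Fintype.card_fin, Fintype.card_fin] at this

variable [IsAlgClosed k] [FF k E] {D D' : Dv k E}

lemma rr_down (h : D ≤ D') (V : Submodule k E) [FiniteDimensional k V] (hV : V ≤ LS D') :
    ∃ W ≤ LS D, (finrank k V : ℤ) ≤ finrank k W + (deg D' - deg D) := by
  obtain ⟨W, h1, h2, h3⟩ := PL.step_many (D' - D).support D D' V (fun P _ => h P)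
    fun P _ x hx => mem_LS.1 (hV hx) P
  refine ⟨W, fun x hx => mem_LS.2 fun P => ?_, ?_⟩
  · by_cases e : P ∈ (D' - D).support
    · exact h2 P e hx
    · rw [Finsupp.notMem_support_iff, Finsupp.sub_apply, sub_eq_zero] at e
      exact e ▸ mem_LS.1 (hV (h1 hx)) P
  · rw [← map_sub, deg_eq]
    exact h3

lemma rr_zero : finrank k (LS (0 : Dv k E)) = 1 := by
  rw [LS_zero, Subalgebra.finrank_toSubmodule, Subalgebra.finrank_bot]

lemma rr_fd (D : Dv k E) : FiniteDimensional k (LS D) := by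
  have := Module.finite_of_finrank_eq_succ (rr_zero (k := k) (E := E))
  refine MP_6f117a_ag.fd_of_bound _ (deg (D ⊔ 0) + 1).toNat fun V hV _ => ?_
  obtain ⟨W, h1, h2⟩ := rr_down (le_sup_right : 0 ≤ D ⊔ 0) V (hV.trans (LS_mono le_sup_left))
  have h3 := Submodule.finrank_mono h1
  rw [rr_zero] at h3
  rw [map_zero] at h2
  omega

lemma rr_mono (h : D ≤ D') : (finrank k (LS D') : ℤ) ≤ finrank k (LS D) + (deg D' - deg D) := by
  have := rr_fd D
  have := rr_fd D'
  obtain ⟨W, h1, h2⟩ := rr_down h _ le_rfl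
  have h3 := Submodule.finrank_mono h1
  omega

lemma rr_le (h : 0 ≤ deg D) : (finrank k (LS D) : ℤ) ≤ deg D + 1 := by
  by_cases h0 : finrank k (LS D) = 0
  · omega
  obtain ⟨A, h1, h2⟩ := exists_eff h0
  have h3 := rr_mono h1
  rw [rr_zero, map_zero, h2.finrank_eq, h2.deg_eq] at h3
  omega

lemma rr_B {t : E} (ht : Transcendental k t) : ∃ B : Dv k E, 0 ≤ B ∧ t ∈ LS B ∧
    deg B = finrank k⟮t⟯ E ∧
    ∀ D : Dv k E, (∀ P, P.v t ≤ 1 → D P ≤ 0) → ∃ m : ℕ, D ≤ m • B := by
  obtain ⟨Z, h1, h2⟩ := PL.exists_poles ht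
  have t0 := MP_6f117a_ag.trans_ne ht
  have e : ∀ P : Place k E, ((-dv k t) ⊔ 0) P = max (-ord P t) 0 := fun P => by
    rw [Finsupp.sup_apply, Finsupp.neg_apply, dv_apply]
    rfl
  have z : ∀ P : Place k E, P ∈ Z ↔ ord P t < 0 := fun P => by
    rw [h1, ← not_le, le_one_iff t0, not_le]
  refine ⟨(-dv k t) ⊔ 0, le_sup_right, (mem_LS' t0).2 (neg_le_iff_add_nonneg'.1 le_sup_left),
    ?_, fun D hD => ?_⟩
  · rw [deg_eq_of_subset (S := Z) fun P hP => by
      rw [Finsupp.mem_support_iff, e] at hP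
      rw [z]
      omega, ← h2]
    refine Finset.sum_congr rfl fun P hP => ?_
    have := (z P).1 hP
    rw [e, max_eq_left (by omega), ord, neg_neg]
  · refine ⟨∑ P ∈ D.support, (D P).toNat, fun P => ?_⟩
    rw [Finsupp.smul_apply, e, nsmul_eq_mul]
    by_cases h : D P ≤ 0
    · exact h.trans (mul_nonneg (Nat.cast_nonneg _) (le_max_right _ _))
    · have h3 : (D P).toNat ≤ ∑ P ∈ D.support, (D P).toNat :=
        Finset.single_le_sum (f := fun P => (D P).toNat) (fun _ _ => Nat.zero_le _)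
          (Finsupp.mem_support_iff.2 (by omega))
      have h4 : ¬ 0 ≤ ord P t := fun h' => h (hD P ((le_one_iff t0).2 h'))
      refine le_trans ?_ (le_mul_of_one_le_right (Nat.cast_nonneg _) (by omega))
      omega

lemma rr_clear {t : E} (ht : Transcendental k t) (D : Dv k E) :
    ∃ p : E, p ≠ 0 ∧ ∀ Q : Place k E, Q.v t ≤ 1 → D Q ≤ ord Q p := by
  have n0 : ∀ c : k, t - algebraMap k E c ≠ 0 := fun c =>
    MP_6f117a_ag.trans_ne (MP_6f117a_ag.trans_sub ht c)
  refine ⟨∏ P ∈ D.support, (t - algebraMap k E (ev P t)) ^ (D P).toNat,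
    Finset.prod_ne_zero_iff.2 fun P _ => pow_ne_zero _ (n0 _), fun Q hQ => ?_⟩
  rw [ord_prod Q _ fun P _ => pow_ne_zero _ (n0 _)]
  have h1 : ∀ P ∈ D.support, 0 ≤ ord Q ((t - algebraMap k E (ev P t)) ^ (D P).toNat) :=
    fun P _ => by
      rw [ord_pow]
      exact mul_nonneg (Nat.cast_nonneg _)
        ((le_one_iff (n0 _)).1 (Q.v.map_sub_le hQ (Q.triv _)))
  by_cases h : Q ∈ D.support
  · refine le_trans ?_ (Finset.single_le_sum h1 h)
    have := (lt_one_iff (n0 _)).1 (ev_spec hQ)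
    rw [ord_pow]
    exact (Int.self_le_toNat _).trans (le_mul_of_one_le_right (Nat.cast_nonneg _) this)
  · rw [Finsupp.notMem_support_iff.1 h]
    exact Finset.sum_nonneg h1

lemma rr_bdd {t : E} (ht : Transcendental k t) :
    ∃ G : ℤ, ∀ D : Dv k E, deg D + 1 - finrank k (LS D) ≤ G := by
  obtain ⟨B, b0, b1, b2, b3⟩ := rr_B ht
  obtain ⟨b, hb⟩ := (PL.model ht).basis
  have hr : ∀ i, ∃ m : ℕ, b i ∈ LS (m • B) := fun i => by
    have h1 : Reg k t (b i) := (hb _).2 ⟨Pi.single i 1, by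
      rw [Finset.sum_eq_single i (fun j _ h => by simp [Pi.single_eq_of_ne h]) (by simp)]
      simp⟩
    obtain ⟨m, hm⟩ := b3 (-dv k (b i)) fun P hP => by
      rw [Finsupp.neg_apply, dv_apply, neg_nonpos]
      exact (le_one_iff (b.ne_zero i)).1 (h1 P hP)
    exact ⟨m, (mem_LS' (b.ne_zero i)).2 (neg_le_iff_add_nonneg'.1 hm)⟩
  choose m hm using hr
  obtain ⟨c, hc⟩ := Finite.exists_le m
  have key : ∀ r : ℕ, (r + 1) * finrank k⟮t⟯ E ≤ finrank k (LS ((r + c) • B)) := fun r => by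
    have := rr_fd ((r + c) • B)
    rw [← rr_fam ht b.linearIndependent (r + 1)]
    refine Submodule.finrank_mono (Submodule.span_le.2 ?_)
    rintro _ ⟨⟨j, i⟩, rfl⟩
    refine LS_mono (nsmul_le_nsmul_left b0 (add_le_add (Nat.lt_succ_iff.1 j.2) (hc i)))
      (mem_LS.2 fun P => ?_)
    beta_reduce
    rw [map_mul, map_pow, add_nsmul, Finsupp.add_apply, exp_add, Finsupp.smul_apply, exp_nsmul]
    exact mul_le_mul' (pow_le_pow_left' (mem_LS.1 b1 P) _) (mem_LS.1 (hm i) P)
  refine ⟨c * finrank k⟮t⟯ E + 1, fun D => ?_⟩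
  obtain ⟨p, p0, hp⟩ := rr_clear ht D
  obtain ⟨r, hr⟩ := b3 (D - dv k p) fun P hP => by
    rw [Finsupp.sub_apply, dv_apply, sub_nonpos]
    exact hp P hP
  have h1 := rr_mono (hr.trans (nsmul_le_nsmul_left b0 (Nat.le_add_right r c)))
  have h2 := finrank_LS_add_dv p0 (D - dv k p)
  have h3 : ((r + 1) * finrank k⟮t⟯ E : ℤ) ≤ finrank k (LS ((r + c) • B)) := by
    exact_mod_cast key r
  rw [sub_add_cancel] at h2
  rw [← h2, map_sub, deg_dv, map_nsmul, b2, nsmul_eq_mul] at h1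
  push_cast at h1
  have : (0 : ℤ) ≤ finrank k⟮t⟯ E := Nat.cast_nonneg _
  linarith

lemma rr_many (D : Dv k E) (T : Finset (Place k E))
    (h : ∀ Q ∈ T, finrank k (LS (D + Finsupp.single Q 1)) ≠ finrank k (LS D)) :
    finrank k (LS D) + T.card ≤ finrank k (LS (D + ∑ Q ∈ T, Finsupp.single Q 1)) := by
  induction T using Finset.induction_on with
  | empty => rw [Finset.sum_empty, add_zero, Finset.card_empty, add_zero]
  | insert Q T hQ ih =>
    have s0 : ∀ Q : Place k E, (0 : Dv k E) ≤ Finsupp.single Q 1 := fun Q =>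
      Finsupp.single_nonneg.2 zero_le_one
    have h1 := ih fun P hP => h P (Finset.mem_insert_of_mem hP)
    obtain ⟨f, f1, f2⟩ := SetLike.not_le_iff_exists.1
      fun e : LS (D + Finsupp.single Q 1) ≤ LS D => h Q (Finset.mem_insert_self _ _)
        (by rw [le_antisymm e (LS_mono (le_add_of_nonneg_right (s0 Q)))])
    have := rr_fd (D + ∑ P ∈ insert Q T, Finsupp.single P 1)
    have h2 : LS (D + ∑ P ∈ T, Finsupp.single P 1) <
        LS (D + ∑ P ∈ insert Q T, Finsupp.single P 1) := by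
      rw [Finset.sum_insert hQ]
      refine SetLike.lt_iff_le_and_exists.2 ⟨LS_mono (add_le_add_right
        (le_add_of_nonneg_left (s0 Q)) D), f, LS_mono (add_le_add_right
        (le_add_of_nonneg_right (Finset.sum_nonneg fun P _ => s0 P)) D) f1,
        fun f3 => f2 (mem_LS.2 fun P => ?_)⟩
      by_cases e : P = Q
      · have := mem_LS.1 f3 P
        rwa [Finsupp.add_apply, Finsupp.finsetSum_apply, Finset.sum_eq_zero fun R hR =>
          Finsupp.single_eq_of_ne (by rintro rfl; exact hQ (e ▸ hR)), add_zero] at this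
      · have := mem_LS.1 f1 P
        rwa [Finsupp.add_apply, Finsupp.single_eq_of_ne e, add_zero] at this
    have h3 := Submodule.finrank_lt_finrank_of_lt h2
    rw [Finset.card_insert_of_notMem hQ]
    omega

end

theorem exists_RR {k E : Type} [Field k] [IsAlgClosed k] [Field E] [Algebra k E] [FF k E] {t : E}
    (ht : Transcendental k t) : ∃ g, RR k E g := by
  obtain ⟨G, hG⟩ := rr_bdd ht
  obtain ⟨g, ⟨D0, h0⟩, h1⟩ := Int.exists_greatest_of_bdd
    (P := fun s => ∃ D : Dv k E, s = deg D + 1 - finrank k (LS D))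
    ⟨G, fun _ ⟨D, e⟩ => e ▸ hG D⟩ ⟨_, 0, rfl⟩
  have h2 := h1 _ ⟨0, rfl⟩
  rw [rr_zero, map_zero] at h2
  lift g to ℕ using by simpa using h2
  have rie : ∀ D : Dv k E, deg D + 1 - g ≤ finrank k (LS D) := fun D => by
    have := h1 _ ⟨D, rfl⟩
    omega
  have big : ∀ D : Dv k E, deg D0 + g ≤ deg D → (finrank k (LS D) : ℤ) = deg D + 1 - g :=
    fun D hD => by
      obtain ⟨A, a1, a2⟩ := exists_eff (D := D - D0) fun e => by
        have := rie (D - D0)
        rw [map_sub] at this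
        omega
      have a3 : Prin (A + D0 - D) := by rwa [show A + D0 - D = A - (D - D0) by abel]
      have a4 := rr_mono (le_add_of_nonneg_left a1 : D0 ≤ A + D0)
      rw [a3.finrank_eq, a3.deg_eq] at a4
      have := rie D
      omega
  refine ⟨g, rr_fd, rie, ⟨_, big⟩, fun D hD => by_contra fun h => ?_, fun _ => rr_le,
    fun D Q => ?_⟩
  · obtain ⟨T, t1, t2⟩ := Set.Infinite.exists_subset_card_eq h (deg D0 + g - deg D).toNat
    have h3 := rr_many D T fun Q hQ => t1 hQ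
    have h4 : deg (D + ∑ Q ∈ T, Finsupp.single Q 1) = deg D + T.card := by simp
    have h5 := big _ (by rw [h4]; omega)
    omega
  · have := rr_mono (le_add_of_nonneg_right (Finsupp.single_nonneg.2 zero_le_one) :
      D ≤ D + Finsupp.single Q 1)
    rw [map_add, deg_single] at this
    omega

end Pool.Agent.P.MP_9344a7_nt.R
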